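import Mathlib

set_option autoImplicit false

namespace Pool.Agent.H55

open MeasureTheory Metric Complex

/-- rotation by a unimodular number preserves integrals over rotation invariant sets -/
lemma rot_mp (c : Circle) : MeasurePreserving (fun z : ℂ => (c : ℂ) * z) volume volume := by
  exact (rotation c).measurePreserving

lemma rot_emb (c : Circle) : MeasurableEmbedding (fun z : ℂ => (c : ℂ) * z) := by
  have h := (rotation c).toHomeomorph.measurableEmbedding
  exact h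

lemma rot_preimage_ball (c : Circle) :
    (fun z : ℂ => (c : ℂ) * z) ⁻¹' (ball (0 : ℂ) 1) = ball (0 : ℂ) 1 := by
  ext z
  simp [Circle.norm_coe]

lemma rot_setIntegral {E : Type*} [NormedAddCommGroup E] [NormedSpace ℝ E] (c : Circle)
    (G : ℂ → E) :
    ∫ z in ball (0 : ℂ) 1, G ((c : ℂ) * z) = ∫ z in ball (0 : ℂ) 1, G z := by
  have h := (rot_mp c).setIntegral_preimage_emb (rot_emb c) G (ball (0 : ℂ) 1)
  rwa [rot_preimage_ball] at h

lemma rot_setLIntegral (c : Circle) (G : ℂ → ENNReal) :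
    ∫⁻ z in ball (0 : ℂ) 1, G ((c : ℂ) * z) = ∫⁻ z in ball (0 : ℂ) 1, G z := by
  have h := (rot_mp c).setLIntegral_comp_preimage_emb (rot_emb c) G (ball (0 : ℂ) 1)
  rwa [rot_preimage_ball] at h

/-- orthogonality of distinct monomials for radial weights -/
lemma orth_monomials (φ : ℝ → ℝ) {n m : ℕ} (hnm : n ≠ m) :
    ∫ z in ball (0 : ℂ) 1, z ^ n * (starRingEnd ℂ z) ^ m * (φ ‖z‖ : ℂ) = 0 := by
  -- rotation by angle π / (n - m)
  have hne : ((n : ℝ) - m) ≠ 0 := by
    intro h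
    exact hnm (by exact_mod_cast (sub_eq_zero.mp h))
  set c : Circle := Circle.exp (Real.pi / ((n : ℝ) - m)) with hc
  have hinv := rot_setIntegral c (fun z : ℂ => z ^ n * (starRingEnd ℂ z) ^ m * (φ ‖z‖ : ℂ))
  have hcc : (c : ℂ) ^ n * (starRingEnd ℂ (c : ℂ)) ^ m = -1 := by
    rw [hc, Circle.coe_exp, ← Complex.exp_conj, ← Complex.exp_nat_mul, ← Complex.exp_nat_mul,
      ← Complex.exp_add]
    have : (n : ℂ) * (((Real.pi / ((n : ℝ) - m) : ℝ) : ℂ) * I) +
        (m : ℂ) * (starRingEnd ℂ) (((Real.pi / ((n : ℝ) - m) : ℝ) : ℂ) * I) = Real.pi * I := by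
      simp only [map_mul, conj_ofReal, conj_I]
      have h2 : ((n : ℂ) - m) ≠ 0 := by exact_mod_cast hne
      push_cast
      field_simp
      ring
    rw [this, Complex.exp_pi_mul_I]
  have hpt : ∀ z : ℂ, ((c : ℂ) * z) ^ n * (starRingEnd ℂ ((c : ℂ) * z)) ^ m * (φ ‖(c : ℂ) * z‖ : ℂ)
      = - (z ^ n * (starRingEnd ℂ z) ^ m * (φ ‖z‖ : ℂ)) := by
    intro z
    rw [map_mul, mul_pow, mul_pow, norm_mul, Circle.norm_coe, one_mul]
    calc (c : ℂ) ^ n * z ^ n * ((starRingEnd ℂ (c : ℂ)) ^ m * (starRingEnd ℂ z) ^ m) * (φ ‖z‖ : ℂ)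
        = ((c : ℂ) ^ n * (starRingEnd ℂ (c : ℂ)) ^ m) * (z ^ n * (starRingEnd ℂ z) ^ m * (φ ‖z‖ : ℂ)) := by
          ring
      _ = _ := by rw [hcc]; ring
  simp only [hpt] at hinv
  rw [integral_neg] at hinv
  have h2 := hinv
  have : (2 : ℂ) * ∫ z in ball (0 : ℂ) 1, z ^ n * (starRingEnd ℂ z) ^ m * (φ ‖z‖ : ℂ) = 0 := by
    rw [two_mul]
    nth_rewrite 1 [← h2]
    ring
  simpa using this

/-- radial integration on the disc -/
lemma radial_integral (f : ℝ → ℝ) :
    ∫ z in ball (0 : ℂ) 1, f ‖z‖ = 2 * Real.pi * ∫ y in (0:ℝ)..1, y * f y := by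
  have h := MeasureTheory.integral_fun_norm_addHaar (volume : Measure ℂ)
    (fun r : ℝ => (Set.Iio (1:ℝ)).indicator f r)
  have h1 : ∫ z in ball (0 : ℂ) 1, f ‖z‖ = ∫ z : ℂ, (Set.Iio (1:ℝ)).indicator f ‖z‖ := by
    rw [← integral_indicator measurableSet_ball]
    apply integral_congr_ae
    filter_upwards with z
    simp [Set.indicator]
  have h2 : (volume : Measure ℂ).real (ball (0:ℂ) 1) = Real.pi := by
    rw [Measure.real, Complex.volume_ball]
    simp
  have h3 : ∫ y in Set.Ioi (0 : ℝ), y ^ (Module.finrank ℝ ℂ - 1) • (Set.Iio (1:ℝ)).indicator f y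
      = ∫ y in (0:ℝ)..1, y * f y := by
    rw [Complex.finrank_real_complex, intervalIntegral.integral_of_le zero_le_one,
      integral_Ioc_eq_integral_Ioo, ← integral_indicator measurableSet_Ioi,
      ← integral_indicator measurableSet_Ioo]
    congr 1
    ext y
    by_cases h0 : 0 < y <;> by_cases h1 : y < 1 <;> simp [Set.indicator, h0, h1]
  rw [h1, h, h2, h3, Complex.finrank_real_complex]
  simp [mul_assoc]

lemma moment (n : ℕ) : ∫ z in ball (0 : ℂ) 1, ‖z‖ ^ (2 * n) = Real.pi / (n + 1) := by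
  rw [radial_integral (fun r => r ^ (2 * n))]
  have : (fun y : ℝ => y * y ^ (2 * n)) = fun y : ℝ => y ^ (2 * n + 1) := by
    ext y; ring
  rw [this, integral_pow]
  push_cast
  have : (2 * (n:ℝ) + 1 + 1) ≠ 0 := by positivity
  have : ((n:ℝ) + 1) ≠ 0 := by positivity
  field_simp
  simp
  ring

end Pool.Agent.H55
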