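import Mathlib
import Pool.Agent.H55.Berg1

set_option autoImplicit false

namespace Pool.Agent.H55

open MeasureTheory Metric Complex

lemma integrableOn_mono_phi {φ : ℝ → ℝ} (hφ : IntegrableOn (fun z : ℂ => φ ‖z‖) (ball (0 : ℂ) 1))
    {h : ℂ → ℂ} (hh : Continuous h) {M : ℝ} (hM : ∀ z ∈ ball (0:ℂ) 1, ‖h z‖ ≤ M) :
    IntegrableOn (fun z : ℂ => h z * (φ ‖z‖ : ℂ)) (ball (0 : ℂ) 1) := by
  have h1 : IntegrableOn (fun z : ℂ => ((φ ‖z‖ : ℝ) : ℂ)) (ball (0 : ℂ) 1) := hφ.ofReal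
  refine h1.bdd_mul (c := M) hh.aestronglyMeasurable ?_
  filter_upwards [ae_restrict_mem measurableSet_ball] with z hz using hM z hz

lemma norm_mono_le {n m : ℕ} {z : ℂ} (hz : z ∈ ball (0:ℂ) 1) :
    ‖z ^ n * (starRingEnd ℂ z) ^ m‖ ≤ 1 := by
  have hz' : ‖z‖ ≤ 1 := by
    have := mem_ball_zero_iff.mp hz
    exact this.le
  rw [norm_mul, norm_pow, norm_pow, RCLike.norm_conj]
  calc ‖z‖ ^ n * ‖z‖ ^ m ≤ 1 * 1 := by
        gcongr
        · exact pow_le_one₀ (norm_nonneg _) hz'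
        · exact pow_le_one₀ (norm_nonneg _) hz'
    _ = 1 := one_mul 1

lemma integrableOn_monomial {φ : ℝ → ℝ}
    (hφ : IntegrableOn (fun z : ℂ => φ ‖z‖) (ball (0 : ℂ) 1)) (n m : ℕ) :
    IntegrableOn (fun z : ℂ => z ^ n * (starRingEnd ℂ z) ^ m * (φ ‖z‖ : ℂ)) (ball (0 : ℂ) 1) := by
  refine integrableOn_mono_phi hφ (M := 1) ?_ (fun z hz => norm_mono_le hz)
  exact (continuous_pow n).mul ((continuous_conj).pow m)

/-- the squared norm of a polynomial in a radially weighted space -/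
lemma poly_radial {φ : ℝ → ℝ} (hφ : IntegrableOn (fun z : ℂ => φ ‖z‖) (ball (0 : ℂ) 1))
    (a : ℕ → ℂ) (N : ℕ) :
    ∫ z in ball (0 : ℂ) 1, ‖∑ n ∈ Finset.range N, a n * z ^ n‖ ^ 2 * φ ‖z‖
      = ∑ n ∈ Finset.range N, ‖a n‖ ^ 2 * ∫ z in ball (0 : ℂ) 1, ‖z‖ ^ (2 * n) * φ ‖z‖ := by
  have key : ((∫ z in ball (0 : ℂ) 1, ‖∑ n ∈ Finset.range N, a n * z ^ n‖ ^ 2 * φ ‖z‖ : ℝ) : ℂ)
      = ((∑ n ∈ Finset.range N, ‖a n‖ ^ 2 * ∫ z in ball (0 : ℂ) 1, ‖z‖ ^ (2 * n) * φ ‖z‖ : ℝ) : ℂ) := by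
    rw [← integral_complex_ofReal]
    have hpt : ∀ z : ℂ, ((‖∑ n ∈ Finset.range N, a n * z ^ n‖ ^ 2 * φ ‖z‖ : ℝ) : ℂ)
        = ∑ n ∈ Finset.range N, ∑ m ∈ Finset.range N,
          (a n * starRingEnd ℂ (a m)) * (z ^ n * (starRingEnd ℂ z) ^ m * (φ ‖z‖ : ℂ)) := by
      intro z
      have h1 : ((‖∑ n ∈ Finset.range N, a n * z ^ n‖ ^ 2 : ℝ) : ℂ)
          = (∑ n ∈ Finset.range N, a n * z ^ n) *
            starRingEnd ℂ (∑ n ∈ Finset.range N, a n * z ^ n) := by
        rw [Complex.mul_conj, Complex.normSq_eq_norm_sq]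
      rw [ofReal_mul, h1, map_sum, Finset.sum_mul_sum, Finset.sum_mul]
      refine Finset.sum_congr rfl fun n _ => ?_
      rw [Finset.sum_mul]
      refine Finset.sum_congr rfl fun m _ => ?_
      rw [map_mul, map_pow]
      ring
    simp_rw [hpt]
    rw [integral_finsetSum]
    · push_cast
      refine Finset.sum_congr rfl fun n hn => ?_
      rw [integral_finsetSum]
      · rw [Finset.sum_eq_single n]
        · rw [integral_const_mul, ← integral_complex_ofReal, Complex.mul_conj, Complex.normSq_eq_norm_sq]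
          push_cast
          congr 1
          apply integral_congr_ae
          filter_upwards with z
          rw [pow_mul, ← Complex.conj_mul', mul_pow]
          ring
        · intro m _ hm
          rw [integral_const_mul, orth_monomials φ (Ne.symm hm), mul_zero]
        · intro h
          exact absurd hn h
      · intro m _
        exact (integrableOn_monomial hφ n m).const_mul _
    · intro n _
      refine integrable_finsetSum _ fun m _ => ?_
      exact (integrableOn_monomial hφ n m).const_mul _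
  exact_mod_cast key

/-- the moments of `1 - |z|^2` -/
lemma moment_one_sub (n : ℕ) :
    ∫ z in ball (0 : ℂ) 1, ‖z‖ ^ (2 * n) * (1 - ‖z‖ ^ 2) = Real.pi / ((n + 1) * (n + 2)) := by
  have h1 : ∀ k : ℕ, IntegrableOn (fun z : ℂ => ‖z‖ ^ k) (ball (0 : ℂ) 1) := by
    intro k
    refine (ContinuousOn.integrableOn_compact (isCompact_closedBall (0:ℂ) 1) ?_).mono_set
      ball_subset_closedBall
    exact (continuous_norm.pow k).continuousOn
  have h2 : (fun z : ℂ => ‖z‖ ^ (2 * n) * (1 - ‖z‖ ^ 2))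
      = fun z : ℂ => ‖z‖ ^ (2 * n) - ‖z‖ ^ (2 * (n + 1)) := by
    ext z; ring
  rw [h2, integral_sub (h1 _) (h1 _), moment, moment]
  push_cast
  have : ((n:ℝ) + 1) ≠ 0 := by positivity
  have : ((n:ℝ) + 2) ≠ 0 := by positivity
  have : ((n:ℝ) + 1 + 1) ≠ 0 := by positivity
  field_simp
  ring

/-- Welford's identity -/
lemma welford (γ : ℕ → ℂ) (N : ℕ) :
    ∑ n ∈ Finset.range N, ‖(∑ j ∈ Finset.range (n + 1), γ j) - (n + 1) * γ (n + 1)‖ ^ 2 /
        (((n:ℝ) + 1) * (n + 2))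
      + ‖∑ j ∈ Finset.range (N + 1), γ j‖ ^ 2 / ((N:ℝ) + 1)
      = ∑ j ∈ Finset.range (N + 1), ‖γ j‖ ^ 2 := by
  induction N with
  | zero => simp
  | succ N ih =>
    rw [Finset.sum_range_succ, Finset.sum_range_succ (fun j => ‖γ j‖ ^ 2), ← ih,
      Finset.sum_range_succ γ (N + 1)]
    set S := ∑ j ∈ Finset.range (N + 1), γ j with hS
    have e1 : ‖S - (N + 1) * γ (N + 1)‖ ^ 2 = ‖S‖ ^ 2 - 2 * (N + 1) * (S * starRingEnd ℂ (γ (N + 1))).re
        + (N + 1) ^ 2 * ‖γ (N + 1)‖ ^ 2 := by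
      rw [← Complex.normSq_eq_norm_sq, ← Complex.normSq_eq_norm_sq, ← Complex.normSq_eq_norm_sq]
      simp only [Complex.normSq_apply, Complex.sub_re, Complex.sub_im, Complex.mul_re,
        Complex.mul_im, Complex.add_re, Complex.add_im, Complex.natCast_re, Complex.natCast_im,
        Complex.one_re, Complex.one_im, Complex.conj_re, Complex.conj_im]
      ring
    have e2 : ‖S + γ (N + 1)‖ ^ 2 = ‖S‖ ^ 2 + 2 * (S * starRingEnd ℂ (γ (N + 1))).re
        + ‖γ (N + 1)‖ ^ 2 := by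
      rw [← Complex.normSq_eq_norm_sq, ← Complex.normSq_eq_norm_sq, ← Complex.normSq_eq_norm_sq]
      simp only [Complex.normSq_apply, Complex.add_re, Complex.add_im, Complex.mul_re,
        Complex.conj_re, Complex.conj_im]
      ring
    rw [e1, e2]
    have : ((N:ℝ) + 1) ≠ 0 := by positivity
    have : ((N:ℝ) + 2) ≠ 0 := by positivity
    have : ((N:ℝ) + 1 + 1) ≠ 0 := by positivity
    push_cast
    have h3 : ((N:ℝ) + 1 + 1) = N + 2 := by ring
    rw [h3]
    field_simp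
    ring

end Pool.Agent.H55
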