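import Mathlib
import Pool.Agent.H55.Berg2

set_option autoImplicit false

namespace Pool.Agent.H55

open MeasureTheory Metric Complex Filter Topology

/-- coefficients of the expansion of `(1-b)/((1-z)(1-bz)^2)` -/
noncomputable def kappa (n : ℕ) (b : ℂ) : ℂ :=
  (∑ j ∈ Finset.range (n + 1), b ^ j) - (n + 1) * b ^ (n + 1)

lemma kappa_norm_le (n : ℕ) {b : ℂ} (hb : ‖b‖ ≤ 1) : ‖kappa n b‖ ≤ 2 * (n + 1) := by
  unfold kappa
  have h1 : ‖∑ j ∈ Finset.range (n + 1), b ^ j‖ ≤ n + 1 := by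
    calc ‖∑ j ∈ Finset.range (n + 1), b ^ j‖ ≤ ∑ j ∈ Finset.range (n + 1), ‖b ^ j‖ := norm_sum_le _ _
      _ ≤ ∑ j ∈ Finset.range (n + 1), (1 : ℝ) := by
          refine Finset.sum_le_sum fun j _ => ?_
          rw [norm_pow]
          exact pow_le_one₀ (norm_nonneg _) hb
      _ = n + 1 := by simp
  have h2 : ‖((n : ℂ) + 1) * b ^ (n + 1)‖ ≤ n + 1 := by
    rw [norm_mul, norm_pow]
    have h3 : ‖(n : ℂ) + 1‖ = n + 1 := by
      have : ((n : ℂ) + 1) = ((n + 1 : ℕ) : ℂ) := by push_cast; rfl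
      rw [this, Complex.norm_natCast]
      push_cast; rfl
    rw [h3]
    calc ((n:ℝ) + 1) * ‖b‖ ^ (n + 1) ≤ (n + 1) * 1 := by
          gcongr
          exact pow_le_one₀ (norm_nonneg _) hb
      _ = n + 1 := mul_one _
  calc _ ≤ ‖∑ j ∈ Finset.range (n + 1), b ^ j‖ + ‖((n : ℂ) + 1) * b ^ (n + 1)‖ := norm_sub_le _ _
    _ ≤ (n + 1) + (n + 1) := add_le_add h1 h2
    _ = 2 * (n + 1) := by ring

lemma kappa_hasSum {z b : ℂ} (hz : ‖z‖ < 1) (hb : ‖b‖ < 1) :
    HasSum (fun n : ℕ => kappa n b * z ^ n) ((1 - b) / ((1 - z) * (1 - z * b) ^ 2)) := by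
  have hb1 : (1 - b) ≠ 0 := by
    intro h
    have : b = 1 := (sub_eq_zero.mp h).symm
    rw [this] at hb
    simp at hb
  have hz1 : (1 - z) ≠ 0 := by
    intro h
    have : z = 1 := (sub_eq_zero.mp h).symm
    rw [this] at hz
    simp at hz
  have hzb : ‖z * b‖ < 1 := by
    rw [norm_mul]
    calc ‖z‖ * ‖b‖ ≤ ‖z‖ * 1 := by gcongr
      _ < 1 := by simpa using hz
  have hzb1 : (1 - z * b) ≠ 0 := by
    intro h
    have : z * b = 1 := (sub_eq_zero.mp h).symm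
    rw [this] at hzb
    simp at hzb
  have hzb2 : (1 - b * z) ≠ 0 := by rwa [mul_comm b z]
  have s1 : HasSum (fun n : ℕ => z ^ n) (1 - z)⁻¹ := hasSum_geometric_of_norm_lt_one hz
  have s2 : HasSum (fun n : ℕ => (z * b) ^ n) (1 - z * b)⁻¹ := hasSum_geometric_of_norm_lt_one hzb
  have s3 : HasSum (fun n : ℕ => ((n : ℂ) + 1) * (z * b) ^ n) (1 / (1 - z * b) ^ 2) := by
    have := hasSum_choose_mul_geometric_of_norm_lt_one 1 hzb
    simpa using this
  have s4 := (((s1.sub (s2.mul_left b)).mul_left (1 - b)⁻¹)).sub (s3.mul_left b)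
  have e1 : (1 - b)⁻¹ * ((1 - z)⁻¹ - b * (1 - z * b)⁻¹) - b * (1 / (1 - z * b) ^ 2)
      = (1 - b) / ((1 - z) * (1 - z * b) ^ 2) := by
    field_simp
    ring
  rw [e1] at s4
  have e2 : (fun n : ℕ => kappa n b * z ^ n) = (fun n : ℕ => (1 - b)⁻¹ * (z ^ n - b * (z * b) ^ n) -
      b * ((n + 1) * (z * b) ^ n)) := by
    ext n
    unfold kappa
    have hg : (∑ j ∈ Finset.range (n + 1), b ^ j) = (1 - b)⁻¹ * (1 - b ^ (n + 1)) := by
      rw [eq_inv_mul_iff_mul_eq₀ hb1]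
      exact mul_neg_geom_sum b (n + 1)
    rw [hg, mul_pow]
    field_simp
    ring
  rw [e2]
  exact s4

/-- the function obtained by applying the twisted kernel to `F` -/
noncomputable def KF (F : ℂ → ℂ) (z : ℂ) : ℂ :=
  ∫ ζ in ball (0 : ℂ) 1, F ζ * ((1 - starRingEnd ℂ ζ) /
    ((1 - z) * (1 - z * starRingEnd ℂ ζ) ^ 2))

/-- the moments of `F` -/
noncomputable def gam (F : ℂ → ℂ) (n : ℕ) : ℂ :=
  ∫ ζ in ball (0 : ℂ) 1, F ζ * (starRingEnd ℂ ζ) ^ n

lemma gam_integrable {F : ℂ → ℂ} (hF : IntegrableOn F (ball (0 : ℂ) 1)) (n : ℕ) :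
    IntegrableOn (fun ζ => F ζ * (starRingEnd ℂ ζ) ^ n) (ball (0 : ℂ) 1) := by
  refine hF.mul_bdd (c := 1) ((continuous_conj.pow n).aestronglyMeasurable) ?_
  filter_upwards [ae_restrict_mem measurableSet_ball] with z hz
  rw [norm_pow, RCLike.norm_conj]
  exact pow_le_one₀ (norm_nonneg _) (mem_ball_zero_iff.mp hz).le

lemma integral_kappa {F : ℂ → ℂ} (hF : IntegrableOn F (ball (0 : ℂ) 1)) (n : ℕ) :
    ∫ ζ in ball (0 : ℂ) 1, F ζ * kappa n (starRingEnd ℂ ζ)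
      = (∑ j ∈ Finset.range (n + 1), gam F j) - (n + 1) * gam F (n + 1) := by
  have h1 : ∀ ζ : ℂ, F ζ * kappa n (starRingEnd ℂ ζ)
      = (∑ j ∈ Finset.range (n + 1), F ζ * (starRingEnd ℂ ζ) ^ j)
        - (n + 1) * (F ζ * (starRingEnd ℂ ζ) ^ (n + 1)) := by
    intro ζ
    unfold kappa
    rw [mul_sub, Finset.mul_sum]
    ring
  simp_rw [h1]
  rw [integral_sub, integral_finsetSum, integral_const_mul]
  · rfl
  · intro j _
    exact gam_integrable hF j
  · exact integrable_finsetSum _ fun j _ => gam_integrable hF j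
  · exact (gam_integrable hF (n + 1)).const_mul _

lemma KF_hasSum {F : ℂ → ℂ} (hF : IntegrableOn F (ball (0 : ℂ) 1)) {z : ℂ} (hz : ‖z‖ < 1) :
    HasSum (fun n : ℕ => ((∑ j ∈ Finset.range (n + 1), gam F j) - (n + 1) * gam F (n + 1)) * z ^ n)
      (KF F z) := by
  have hmeas : ∀ n : ℕ, AEStronglyMeasurable (fun ζ : ℂ => F ζ * kappa n (starRingEnd ℂ ζ) * z ^ n)
      (volume.restrict (ball (0 : ℂ) 1)) := by
    intro n
    refine (hF.aestronglyMeasurable.mul ?_).mul_const _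
    apply Continuous.aestronglyMeasurable
    unfold kappa
    fun_prop
  have hbound : ∀ n : ℕ, ∀ ζ ∈ ball (0:ℂ) 1, ‖F ζ * kappa n (starRingEnd ℂ ζ) * z ^ n‖
      ≤ (2 * (n + 1) * ‖z‖ ^ n) * ‖F ζ‖ := by
    intro n ζ hζ
    rw [norm_mul, norm_mul, norm_pow]
    have := kappa_norm_le n (b := starRingEnd ℂ ζ)
      (by rw [RCLike.norm_conj]; exact (mem_ball_zero_iff.mp hζ).le)
    calc ‖F ζ‖ * ‖kappa n (starRingEnd ℂ ζ)‖ * ‖z‖ ^ n ≤ ‖F ζ‖ * (2 * (n + 1)) * ‖z‖ ^ n := by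
          gcongr
      _ = _ := by ring
  have hint : ∀ n : ℕ, IntegrableOn (fun ζ : ℂ => F ζ * kappa n (starRingEnd ℂ ζ) * z ^ n)
      (ball (0 : ℂ) 1) := by
    intro n
    refine Integrable.mono' (hF.norm.const_mul (2 * (n + 1) * ‖z‖ ^ n)) (hmeas n) ?_
    filter_upwards [ae_restrict_mem measurableSet_ball] with ζ hζ using hbound n ζ hζ
  have hsum : Summable (fun n : ℕ => ∫ ζ in ball (0:ℂ) 1,
      ‖F ζ * kappa n (starRingEnd ℂ ζ) * z ^ n‖) := by
    have hs : Summable (fun n : ℕ => (2 * ((n:ℝ) + 1) * ‖z‖ ^ n) * ∫ ζ in ball (0:ℂ) 1, ‖F ζ‖) := by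
      apply Summable.mul_right
      have := summable_choose_mul_geometric_of_norm_lt_one 1 (r := ‖z‖) (by simpa using hz)
      have h2 := this.mul_left 2
      refine h2.congr ?_
      intro n
      simp
      ring
    refine Summable.of_nonneg_of_le (fun n => integral_nonneg fun _ => norm_nonneg _) ?_ hs
    intro n
    rw [← integral_const_mul]
    refine integral_mono_ae (hint n).norm (hF.norm.const_mul _) ?_
    filter_upwards [ae_restrict_mem measurableSet_ball] with ζ hζ using hbound n ζ hζ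
  have h := hasSum_integral_of_summable_integral_norm hint hsum
  have e1 : (fun n : ℕ => ∫ ζ in ball (0:ℂ) 1, F ζ * kappa n (starRingEnd ℂ ζ) * z ^ n)
      = fun n : ℕ => ((∑ j ∈ Finset.range (n + 1), gam F j) - (n + 1) * gam F (n + 1)) * z ^ n := by
    ext n
    rw [integral_mul_const, integral_kappa hF]
  have e2 : (∫ ζ in ball (0:ℂ) 1, ∑' n : ℕ, F ζ * kappa n (starRingEnd ℂ ζ) * z ^ n) = KF F z := by
    unfold KF
    apply setIntegral_congr_fun measurableSet_ball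
    intro ζ hζ
    have hk := kappa_hasSum (z := z) (b := starRingEnd ℂ ζ) hz
      (by rw [RCLike.norm_conj]; exact mem_ball_zero_iff.mp hζ)
    have := (hk.mul_left (F ζ)).tsum_eq
    simp only [← mul_assoc] at this
    exact this
  rw [e1, e2] at h
  exact h

/-- The key estimate: twisted kernel maps are bounded by the moments. -/
lemma key_estimate {F : ℂ → ℂ} (hF : IntegrableOn F (ball (0 : ℂ) 1)) {K : ℝ}
    (hK : ∀ N : ℕ, ∑ j ∈ Finset.range N, ‖gam F j‖ ^ 2 ≤ K) :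
    ∫⁻ z in ball (0 : ℂ) 1, ‖KF F z‖ₑ ^ 2 * ENNReal.ofReal (1 - ‖z‖ ^ 2)
      ≤ ENNReal.ofReal (Real.pi * K) := by
  set c : ℕ → ℂ := fun n => (∑ j ∈ Finset.range (n + 1), gam F j) - (n + 1) * gam F (n + 1) with hc
  set S : ℕ → ℂ → ℂ := fun N z => ∑ n ∈ Finset.range N, c n * z ^ n with hS
  have hScont : ∀ N, Continuous (S N) := by
    intro N
    simp only [hS]
    fun_prop
  have hφ : IntegrableOn (fun z : ℂ => (fun r : ℝ => 1 - r ^ 2) ‖z‖) (ball (0 : ℂ) 1) := by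
    refine (ContinuousOn.integrableOn_compact (isCompact_closedBall (0:ℂ) 1) ?_).mono_set
      ball_subset_closedBall
    fun_prop
  have hSint : ∀ N, ∫⁻ z in ball (0 : ℂ) 1, ‖S N z‖ₑ ^ 2 * ENNReal.ofReal (1 - ‖z‖ ^ 2)
      ≤ ENNReal.ofReal (Real.pi * K) := by
    intro N
    have h1 : ∫ z in ball (0 : ℂ) 1, ‖S N z‖ ^ 2 * (1 - ‖z‖ ^ 2) ≤ Real.pi * K := by
      have h2 := poly_radial (φ := fun r => 1 - r ^ 2) hφ c N
      simp only [hS]
      rw [h2]
      have hw := welford (gam F) N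
      have h3 : ∑ n ∈ Finset.range N, ‖c n‖ ^ 2 * ∫ z in ball (0 : ℂ) 1, ‖z‖ ^ (2 * n) * (1 - ‖z‖ ^ 2)
          = Real.pi * ∑ n ∈ Finset.range N, ‖c n‖ ^ 2 / (((n:ℝ) + 1) * (n + 2)) := by
        rw [Finset.mul_sum]
        refine Finset.sum_congr rfl fun n _ => ?_
        rw [moment_one_sub]
        ring
      rw [h3]
      refine mul_le_mul_of_nonneg_left ?_ Real.pi_pos.le
      have h4 : 0 ≤ ‖∑ j ∈ Finset.range (N + 1), gam F j‖ ^ 2 / ((N:ℝ) + 1) := by positivity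
      have h5 := hK (N + 1)
      simp only [hc]
      linarith
    have hcont : Continuous (fun z : ℂ => ‖S N z‖ ^ 2 * (1 - ‖z‖ ^ 2)) := by
      have := hScont N
      fun_prop
    have hi : IntegrableOn (fun z : ℂ => ‖S N z‖ ^ 2 * (1 - ‖z‖ ^ 2)) (ball (0 : ℂ) 1) := by
      refine (ContinuousOn.integrableOn_compact (isCompact_closedBall (0:ℂ) 1) ?_).mono_set
        ball_subset_closedBall
      exact hcont.continuousOn
    have h6 : ∫⁻ z in ball (0 : ℂ) 1, ‖S N z‖ₑ ^ 2 * ENNReal.ofReal (1 - ‖z‖ ^ 2)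
        = ∫⁻ z in ball (0 : ℂ) 1, ENNReal.ofReal (‖S N z‖ ^ 2 * (1 - ‖z‖ ^ 2)) := by
      apply lintegral_congr
      intro z
      rw [ENNReal.ofReal_mul (by positivity), ENNReal.ofReal_pow (norm_nonneg _),
        ofReal_norm]
    rw [h6, ← ofReal_integral_eq_lintegral_ofReal hi]
    · exact ENNReal.ofReal_le_ofReal h1
    · filter_upwards [ae_restrict_mem measurableSet_ball] with z hz
      have : ‖z‖ < 1 := mem_ball_zero_iff.mp hz
      have h7 : 0 ≤ 1 - ‖z‖ ^ 2 := by nlinarith [norm_nonneg z]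
      simp only [Pi.zero_apply]
      positivity
  have hlim : ∀ z ∈ ball (0:ℂ) 1, Tendsto (fun N => ‖S N z‖ₑ ^ 2 * ENNReal.ofReal (1 - ‖z‖ ^ 2)) atTop
      (𝓝 (‖KF F z‖ₑ ^ 2 * ENNReal.ofReal (1 - ‖z‖ ^ 2))) := by
    intro z hz
    have h1 : Tendsto (fun N => S N z) atTop (𝓝 (KF F z)) :=
      (KF_hasSum hF (mem_ball_zero_iff.mp hz)).tendsto_sum_nat
    have h2 : Tendsto (fun N => ‖S N z‖ₑ ^ 2) atTop (𝓝 (‖KF F z‖ₑ ^ 2)) :=
      (ENNReal.continuous_pow 2).continuousAt.tendsto.comp h1.enorm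
    exact ENNReal.Tendsto.mul_const h2 (Or.inr ENNReal.ofReal_ne_top)
  calc ∫⁻ z in ball (0 : ℂ) 1, ‖KF F z‖ₑ ^ 2 * ENNReal.ofReal (1 - ‖z‖ ^ 2)
      = ∫⁻ z in ball (0 : ℂ) 1, liminf (fun N => ‖S N z‖ₑ ^ 2 * ENNReal.ofReal (1 - ‖z‖ ^ 2)) atTop := by
        apply setLIntegral_congr_fun measurableSet_ball
        intro z hz
        exact (hlim z hz).liminf_eq.symm
    _ ≤ liminf (fun N => ∫⁻ z in ball (0 : ℂ) 1, ‖S N z‖ₑ ^ 2 * ENNReal.ofReal (1 - ‖z‖ ^ 2)) atTop := by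
        apply lintegral_liminf_le
        intro N
        have := hScont N
        fun_prop
    _ ≤ ENNReal.ofReal (Real.pi * K) := by
        refine Filter.liminf_le_of_frequently_le' ?_
        exact Frequently.of_forall hSint

end Pool.Agent.H55
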