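import Mathlib
import Pool.Agent.H55.Berg3

set_option autoImplicit false

namespace Pool.Agent.H55

open MeasureTheory Metric Complex Filter Topology

/-- lacunary exponents -/
def NN (k : ℕ) : ℕ := 2 ^ (4 ^ k)

/-- coefficients -/
noncomputable def bb (k : ℕ) : ℝ := (NN k : ℝ) / 2 ^ k

/-- radial part of the weight, as a function of `|z|^2` -/
noncomputable def rho (x : ℝ) : ℝ := ∑' k : ℕ, bb k * x ^ (NN k - 1)

lemma NN_pos (k : ℕ) : 0 < NN k := by unfold NN; positivity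

lemma NN_strictMono : StrictMono NN := by
  intro a b hab
  unfold NN
  exact Nat.pow_lt_pow_right (by norm_num) (Nat.pow_lt_pow_right (by norm_num) hab)

lemma bb_nonneg (k : ℕ) : 0 ≤ bb k := by unfold bb; positivity

lemma bb_le (k : ℕ) : bb k ≤ NN k := by
  unfold bb
  apply div_le_self (by positivity)
  exact one_le_pow₀ (by norm_num)

lemma rho_summable_aux {r : ℝ} (hr0 : 0 ≤ r) (hr1 : r < 1) :
    Summable (fun k : ℕ => bb k * r ^ (NN k - 1)) := by
  have h1 : Summable (fun n : ℕ => (n : ℝ) * r ^ (n - 1)) := by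
    have h2 := summable_choose_mul_geometric_of_norm_lt_one 1 (r := r)
      (by rwa [Real.norm_eq_abs, abs_of_nonneg hr0])
    rw [← summable_nat_add_iff 1]
    refine h2.congr ?_
    intro n
    simp
  have h3 : Summable (fun k : ℕ => (NN k : ℝ) * r ^ (NN k - 1)) :=
    h1.comp_injective NN_strictMono.injective
  refine Summable.of_nonneg_of_le (fun k => mul_nonneg (bb_nonneg k) (by positivity)) ?_ h3
  intro k
  exact mul_le_mul_of_nonneg_right (bb_le k) (by positivity)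

lemma rho_continuousOn : ContinuousOn rho (Set.Ioo (-1) 1) := by
  intro x hx
  obtain ⟨r, hr1, hr2⟩ := exists_between (show |x| < 1 from abs_lt.mpr hx)
  have hr0 : 0 ≤ r := (abs_nonneg x).trans hr1.le
  have hc : ContinuousOn rho (Set.Ioo (-r) r) := by
    unfold rho
    refine continuousOn_tsum (u := fun k => bb k * r ^ (NN k - 1)) ?_ (rho_summable_aux hr0 hr2) ?_
    · intro k
      fun_prop
    · intro k y hy
      rw [norm_mul, Real.norm_eq_abs, abs_of_nonneg (bb_nonneg k), norm_pow, Real.norm_eq_abs]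
      refine mul_le_mul_of_nonneg_left ?_ (bb_nonneg k)
      exact pow_le_pow_left₀ (abs_nonneg y) (abs_lt.mpr hy).le _
  have hmem : Set.Ioo (-r) r ∈ 𝓝 x := isOpen_Ioo.mem_nhds (abs_lt.mp hr1)
  exact (hc.continuousAt hmem).continuousWithinAt

lemma rho_nonneg {x : ℝ} (hx : 0 ≤ x) : 0 ≤ rho x :=
  tsum_nonneg fun k => mul_nonneg (bb_nonneg k) (by positivity)

lemma rho_ge {x : ℝ} (hx : 0 ≤ x) (hx1 : x < 1) (k : ℕ) : bb k * x ^ (NN k - 1) ≤ rho x :=
  (rho_summable_aux hx hx1).le_tsum k fun j _ => mul_nonneg (bb_nonneg j) (by positivity)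

lemma rhoz_continuousOn : ContinuousOn (fun z : ℂ => rho (‖z‖ ^ 2)) (ball (0:ℂ) 1) := by
  refine rho_continuousOn.comp (by fun_prop) ?_
  intro z hz
  have h : ‖z‖ < 1 := mem_ball_zero_iff.mp hz
  have h0 := norm_nonneg z
  constructor <;> nlinarith

lemma rhoz_integrable : IntegrableOn (fun z : ℂ => rho (‖z‖ ^ 2)) (ball (0:ℂ) 1) := by
  refine ⟨rhoz_continuousOn.aestronglyMeasurable measurableSet_ball, ?_⟩
  have hnn : ∀ z : ℂ, 0 ≤ rho (‖z‖ ^ 2) := fun z => rho_nonneg (by positivity)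
  rw [hasFiniteIntegral_iff_ofReal (Eventually.of_forall hnn)]
  have h1 : ∫⁻ z in ball (0:ℂ) 1, ENNReal.ofReal (rho (‖z‖ ^ 2))
      = ∫⁻ z in ball (0:ℂ) 1, ∑' k : ℕ, ENNReal.ofReal (bb k * (‖z‖ ^ 2) ^ (NN k - 1)) := by
    apply setLIntegral_congr_fun measurableSet_ball
    intro z hz
    have h : ‖z‖ < 1 := mem_ball_zero_iff.mp hz
    have h0 := norm_nonneg z
    have h2 : ‖z‖ ^ 2 < 1 := by nlinarith
    simp only [rho]
    rw [ENNReal.ofReal_tsum_of_nonneg]
    · intro k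
      exact mul_nonneg (bb_nonneg k) (by positivity)
    · exact rho_summable_aux (by positivity) h2
  rw [h1, lintegral_tsum]
  · have h2 : ∀ k : ℕ, ∫⁻ z in ball (0:ℂ) 1, ENNReal.ofReal (bb k * (‖z‖ ^ 2) ^ (NN k - 1))
        = ENNReal.ofReal (Real.pi * (1/2) ^ k) := by
      intro k
      rw [← ofReal_integral_eq_lintegral_ofReal]
      · congr 1
        rw [integral_const_mul]
        have h3 := moment (NN k - 1)
        have h4 : (fun z : ℂ => (‖z‖ ^ 2) ^ (NN k - 1)) = fun z : ℂ => ‖z‖ ^ (2 * (NN k - 1)) := by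
          ext z; rw [pow_mul]
        rw [h4, h3]
        have h5 : ((NN k - 1 : ℕ) : ℝ) + 1 = NN k := by
          have := NN_pos k
          rw [Nat.cast_sub (by omega)]
          simp
        rw [h5]
        unfold bb
        have : (NN k : ℝ) ≠ 0 := by exact_mod_cast (NN_pos k).ne'
        field_simp
        rw [← mul_pow]
        norm_num
      · refine (ContinuousOn.integrableOn_compact (isCompact_closedBall (0:ℂ) 1) ?_).mono_set
          ball_subset_closedBall
        fun_prop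
      · exact Eventually.of_forall fun z => mul_nonneg (bb_nonneg k) (by positivity)
    simp_rw [h2]
    rw [← ENNReal.ofReal_tsum_of_nonneg]
    · exact ENNReal.ofReal_lt_top
    · intro k
      positivity
    · exact (summable_geometric_of_lt_one (by norm_num) (by norm_num)).mul_left _
  · intro k
    fun_prop

/-- the weight `σ` -/
noncomputable def sig (z : ℂ) : ℝ := ‖1 - z‖ ^ 2 * rho (‖z‖ ^ 2)

/-- the weight `w`: the Poisson kernel -/
noncomputable def wgt (z : ℂ) : ℝ := ((1 + z) / (1 - z)).re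

lemma one_sub_ne {z : ℂ} (hz : ‖z‖ < 1) : (1 - z) ≠ 0 := by
  intro h
  have : z = 1 := (sub_eq_zero.mp h).symm
  rw [this] at hz
  simp at hz

lemma wgt_eq {z : ℂ} (hz : ‖z‖ < 1) : wgt z = (1 - ‖z‖ ^ 2) / ‖1 - z‖ ^ 2 := by
  unfold wgt
  rw [Complex.div_re]
  have h : (1 - z) ≠ 0 := one_sub_ne hz
  have h2 : Complex.normSq (1 - z) ≠ 0 := by simpa [Complex.normSq_eq_zero] using h
  rw [← Complex.normSq_eq_norm_sq, ← Complex.normSq_eq_norm_sq, ← add_div]
  congr 1
  simp only [Complex.normSq_apply, add_re, one_re, sub_re, add_im, one_im, sub_im]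
  ring

lemma wgt_nonneg {z : ℂ} (hz : ‖z‖ < 1) : 0 ≤ wgt z := by
  rw [wgt_eq hz]
  have h0 := norm_nonneg z
  have : 0 ≤ 1 - ‖z‖ ^ 2 := by nlinarith
  positivity

lemma sig_nonneg (z : ℂ) : 0 ≤ sig z := mul_nonneg (by positivity) (rho_nonneg (by positivity))

lemma sig_continuousOn : ContinuousOn sig (ball (0:ℂ) 1) := by
  unfold sig
  exact ContinuousOn.mul (by fun_prop) rhoz_continuousOn

lemma wgt_continuousOn : ContinuousOn wgt (ball (0:ℂ) 1) := by
  unfold wgt
  apply Complex.continuous_re.comp_continuousOn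
  refine ContinuousOn.div (by fun_prop) (by fun_prop) ?_
  intro z hz
  exact one_sub_ne (mem_ball_zero_iff.mp hz)

/-- sub-mean value property of the square of the modulus of an entire function -/
lemma subMean_sq {h : ℂ → ℂ} (hh : Differentiable ℂ h) (z : ℂ) (r : ℝ) :
    ‖h z‖ ^ 2 ≤ (2 * Real.pi)⁻¹ *
          ∫ θ in (0:ℝ)..2 * Real.pi, ‖h (z + (r:ℂ) * Complex.exp ((θ:ℂ) * Complex.I))‖ ^ 2 := by
  have h1 : DiffContOnCl ℂ (fun w => h w ^ 2) (ball z |r|) := (hh.pow 2).diffContOnCl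
  have h2 := h1.circleAverage
  have h3 : ‖h z‖ ^ 2 = ‖h z ^ 2‖ := (norm_pow _ _).symm
  rw [h3, ← h2, Real.circleAverage_def, norm_smul]
  rw [Real.norm_of_nonneg (by positivity)]
  refine mul_le_mul_of_nonneg_left ?_ (by positivity)
  calc ‖∫ θ in (0:ℝ)..2 * Real.pi, h (circleMap z r θ) ^ 2‖
      ≤ ∫ θ in (0:ℝ)..2 * Real.pi, ‖h (circleMap z r θ) ^ 2‖ :=
        intervalIntegral.norm_integral_le_integral_norm (by positivity)
    _ = _ := by
        apply intervalIntegral.integral_congr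
        intro θ _
        simp only [norm_pow, circleMap]

lemma circle_mem {z : ℂ} {r : ℝ} (hr : 0 < r) (h : closedBall z r ⊆ ball (0:ℂ) 1) (θ : ℝ) :
    z + (r:ℂ) * Complex.exp ((θ:ℂ) * Complex.I) ∈ ball (0:ℂ) 1 := by
  apply h
  rw [mem_closedBall, dist_eq_norm]
  simp [abs_of_pos hr]

lemma sig_subMean {z : ℂ} {r : ℝ} (hr : 0 < r) (h : closedBall z r ⊆ ball (0:ℂ) 1) :
    sig z ≤ (2 * Real.pi)⁻¹ *
          ∫ θ in (0:ℝ)..2 * Real.pi, sig (z + (r:ℂ) * Complex.exp ((θ:ℂ) * Complex.I)) := by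
  have hcont : Continuous (fun θ : ℝ => sig (z + (r:ℂ) * Complex.exp ((θ:ℂ) * Complex.I))) := by
    rw [← continuousOn_univ]
    refine sig_continuousOn.comp (by fun_prop) ?_
    intro θ _
    exact circle_mem hr h θ
  have hzb : z ∈ ball (0:ℂ) 1 := h (mem_closedBall_self hr.le)
  -- partial sums
  have hs : ∀ ζ ∈ ball (0:ℂ) 1, HasSum (fun k : ℕ => bb k * ‖ζ ^ (NN k - 1) * (1 - ζ)‖ ^ 2) (sig ζ) := by
    intro ζ hζ
    have hζ1 : ‖ζ‖ < 1 := mem_ball_zero_iff.mp hζ
    have h2 : ‖ζ‖ ^ 2 < 1 := by nlinarith [norm_nonneg ζ]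
    have h3 := ((rho_summable_aux (r := ‖ζ‖ ^ 2) (by positivity) h2).hasSum.mul_left (‖1 - ζ‖ ^ 2))
    have e : (fun k : ℕ => bb k * ‖ζ ^ (NN k - 1) * (1 - ζ)‖ ^ 2)
        = fun k : ℕ => ‖1 - ζ‖ ^ 2 * (bb k * (‖ζ‖ ^ 2) ^ (NN k - 1)) := by
      ext k
      rw [norm_mul, norm_pow, mul_pow, ← pow_mul, ← pow_mul, mul_comm (NN k - 1) 2]
      ring
    rw [e]
    exact h3
  have hterm : ∀ k : ℕ, bb k * ‖z ^ (NN k - 1) * (1 - z)‖ ^ 2 ≤ (2 * Real.pi)⁻¹ *
      ∫ θ in (0:ℝ)..2 * Real.pi, bb k * ‖(z + (r:ℂ) * Complex.exp ((θ:ℂ) * Complex.I)) ^ (NN k - 1) *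
        (1 - (z + (r:ℂ) * Complex.exp ((θ:ℂ) * Complex.I)))‖ ^ 2 := by
    intro k
    have h1 := subMean_sq (h := fun ζ => ζ ^ (NN k - 1) * (1 - ζ)) (by fun_prop) z r
    rw [intervalIntegral.integral_const_mul, ← mul_assoc, mul_comm _ (bb k), mul_assoc]
    exact mul_le_mul_of_nonneg_left h1 (bb_nonneg k)
  have hpart : ∀ K : ℕ, ∑ k ∈ Finset.range K, bb k * ‖z ^ (NN k - 1) * (1 - z)‖ ^ 2 ≤
      (2 * Real.pi)⁻¹ *
          ∫ θ in (0:ℝ)..2 * Real.pi, sig (z + (r:ℂ) * Complex.exp ((θ:ℂ) * Complex.I)) := by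
    intro K
    calc ∑ k ∈ Finset.range K, bb k * ‖z ^ (NN k - 1) * (1 - z)‖ ^ 2
        ≤ ∑ k ∈ Finset.range K, (2 * Real.pi)⁻¹ *
      ∫ θ in (0:ℝ)..2 * Real.pi, bb k * ‖(z + (r:ℂ) * Complex.exp ((θ:ℂ) * Complex.I)) ^ (NN k - 1) *
        (1 - (z + (r:ℂ) * Complex.exp ((θ:ℂ) * Complex.I)))‖ ^ 2 :=
          Finset.sum_le_sum fun k _ => hterm k
      _ = (2 * Real.pi)⁻¹ *
      ∫ θ in (0:ℝ)..2 * Real.pi, ∑ k ∈ Finset.range K, bb k *
        ‖(z + (r:ℂ) * Complex.exp ((θ:ℂ) * Complex.I)) ^ (NN k - 1) *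
        (1 - (z + (r:ℂ) * Complex.exp ((θ:ℂ) * Complex.I)))‖ ^ 2 := by
          rw [← Finset.mul_sum, intervalIntegral.integral_finsetSum]
          intro k _
          apply Continuous.intervalIntegrable
          fun_prop
      _ ≤ _ := by
          refine mul_le_mul_of_nonneg_left ?_ (by positivity)
          apply intervalIntegral.integral_mono_on (by positivity)
          · apply Continuous.intervalIntegrable
            fun_prop
          · exact hcont.intervalIntegrable _ _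
          · intro θ _
            exact sum_le_hasSum _ (fun k _ => mul_nonneg (bb_nonneg k) (by positivity))
              (hs _ (circle_mem hr h θ))
  exact le_of_tendsto' (hs z hzb).tendsto_sum_nat hpart

lemma wgt_subMean {z : ℂ} {r : ℝ} (hr : 0 < r) (h : closedBall z r ⊆ ball (0:ℂ) 1) :
    wgt z ≤ (2 * Real.pi)⁻¹ *
          ∫ θ in (0:ℝ)..2 * Real.pi, wgt (z + (r:ℂ) * Complex.exp ((θ:ℂ) * Complex.I)) := by
  have hcont : Continuous (fun θ : ℝ => (1 + (z + (r:ℂ) * Complex.exp ((θ:ℂ) * Complex.I))) /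
      (1 - (z + (r:ℂ) * Complex.exp ((θ:ℂ) * Complex.I)))) := by
    refine Continuous.div (by fun_prop) (by fun_prop) ?_
    intro θ
    exact one_sub_ne (mem_ball_zero_iff.mp (circle_mem hr h θ))
  have h1 : DiffContOnCl ℂ (fun w : ℂ => (1 + w) / (1 - w)) (ball z |r|) := by
    rw [abs_of_pos hr]
    apply DifferentiableOn.diffContOnCl
    rw [closure_ball z hr.ne']
    intro w hw
    have hw1 : ‖w‖ < 1 := mem_ball_zero_iff.mp (h hw)
    apply DifferentiableAt.differentiableWithinAt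
    exact DifferentiableAt.div (by fun_prop) (by fun_prop) (one_sub_ne hw1)
  have h2 := h1.circleAverage
  have h3 : wgt z = (2 * Real.pi)⁻¹ *
          ∫ θ in (0:ℝ)..2 * Real.pi, wgt (z + (r:ℂ) * Complex.exp ((θ:ℂ) * Complex.I)) := by
    have h4 : wgt z = (Real.circleAverage (fun w : ℂ => (1 + w) / (1 - w)) z r).re := by
      rw [h2]; rfl
    rw [h4, Real.circleAverage_def, Complex.real_smul, Complex.re_ofReal_mul]
    congr 1
    have h5 := Complex.reCLM.intervalIntegral_comp_comm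
      (hcont.intervalIntegrable (μ := volume) 0 (2 * Real.pi))
    simp only [Complex.reCLM_apply] at h5
    simp only [circleMap]
    rw [← h5]
    rfl
  exact h3.le

end Pool.Agent.H55
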