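import Mathlib
import Pool.Agent.H55.Berg4

set_option autoImplicit false

namespace Pool.Agent.H55

open MeasureTheory Metric Complex Filter Topology

/-- the total mass constant -/
noncomputable def RR : ℝ := (∫ z in ball (0:ℂ) 1, rho (‖z‖ ^ 2)) + 1

lemma RR_pos : 0 < RR := by
  unfold RR
  have : 0 ≤ ∫ z in ball (0:ℂ) 1, rho (‖z‖ ^ 2) :=
    integral_nonneg fun z => rho_nonneg (by positivity)
  linarith

/-- the twisted function -/
noncomputable def Ff (f : ℂ → ℂ) (ζ : ℂ) : ℂ := f ζ * ((1 - ζ) * (rho (‖ζ‖ ^ 2) : ℂ))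

lemma rhoz_integrableC : IntegrableOn (fun z : ℂ => (rho (‖z‖ ^ 2) : ℂ)) (ball (0:ℂ) 1) :=
  rhoz_integrable.ofReal

lemma Ff_integrable {f : ℂ → ℂ} (hf : Measurable f) {M : ℝ} (hM : ∀ z, ‖f z‖ ≤ M) :
    IntegrableOn (Ff f) (ball (0:ℂ) 1) := by
  have h1 : IntegrableOn (fun z : ℂ => (1 - z) * (rho (‖z‖ ^ 2) : ℂ)) (ball (0:ℂ) 1) := by
    refine rhoz_integrableC.bdd_mul (c := 2) (by fun_prop) ?_
    filter_upwards [ae_restrict_mem measurableSet_ball] with z hz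
    have : ‖z‖ < 1 := mem_ball_zero_iff.mp hz
    calc ‖1 - z‖ ≤ ‖(1:ℂ)‖ + ‖z‖ := norm_sub_le _ _
      _ ≤ 1 + 1 := by simp; exact this.le
      _ = 2 := by norm_num
  unfold Ff
  exact h1.bdd_mul (c := M) hf.aestronglyMeasurable (Eventually.of_forall hM)

/-- Bessel's inequality for the moments -/
lemma bessel {f : ℂ → ℂ} (hf : Measurable f) {M : ℝ} (hM : ∀ z, ‖f z‖ ≤ M) (N : ℕ) :
    ∑ j ∈ Finset.range N, ‖gam (Ff f) j‖ ^ 2
      ≤ RR * ∫ z in ball (0:ℂ) 1, ‖f z‖ ^ 2 * sig z := by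
  set S := ∑ j ∈ Finset.range N, ‖gam (Ff f) j‖ ^ 2 with hS
  set a : ℕ → ℂ := gam (Ff f) with ha
  set p : ℂ → ℂ := fun z => ∑ n ∈ Finset.range N, a n * z ^ n with hp
  have hpc : Continuous p := by
    simp only [hp]; fun_prop
  have hφ : IntegrableOn (fun z : ℂ => (fun r : ℝ => rho (r ^ 2)) ‖z‖) (ball (0 : ℂ) 1) :=
    rhoz_integrable
  have hFint := Ff_integrable hf hM
  -- bound of p
  obtain ⟨P, hP⟩ : ∃ P : ℝ, ∀ z ∈ ball (0:ℂ) 1, ‖p z‖ ≤ P := by
    obtain ⟨P, hP⟩ := (isCompact_closedBall (0:ℂ) 1).exists_bound_of_continuousOn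
      (f := p) hpc.continuousOn
    exact ⟨P, fun z hz => hP z (ball_subset_closedBall hz)⟩
  -- second factor
  have hB : ∫ z in ball (0 : ℂ) 1, ‖p z‖ ^ 2 * rho (‖z‖ ^ 2) ≤ RR * S := by
    have h1 := poly_radial (φ := fun r => rho (r ^ 2)) hφ a N
    simp only [hp]
    rw [h1, hS, Finset.mul_sum]
    refine Finset.sum_le_sum fun n _ => ?_
    rw [mul_comm]
    refine mul_le_mul_of_nonneg_right ?_ (by positivity)
    calc ∫ z in ball (0 : ℂ) 1, ‖z‖ ^ (2 * n) * rho (‖z‖ ^ 2)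
        ≤ ∫ z in ball (0 : ℂ) 1, rho (‖z‖ ^ 2) := by
          refine integral_mono_ae ?_ hφ ?_
          · refine rhoz_integrable.bdd_mul (c := 1) (by fun_prop) ?_
            filter_upwards [ae_restrict_mem measurableSet_ball] with z hz
            have : ‖z‖ < 1 := mem_ball_zero_iff.mp hz
            rw [Real.norm_of_nonneg (by positivity)]
            exact pow_le_one₀ (norm_nonneg _) this.le
          · filter_upwards [ae_restrict_mem measurableSet_ball] with z hz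
            have : ‖z‖ < 1 := mem_ball_zero_iff.mp hz
            have h2 : ‖z‖ ^ (2 * n) ≤ 1 := pow_le_one₀ (norm_nonneg _) this.le
            have h3 : 0 ≤ rho (‖z‖ ^ 2) := rho_nonneg (by positivity)
            calc ‖z‖ ^ (2 * n) * rho (‖z‖ ^ 2) ≤ 1 * rho (‖z‖ ^ 2) := by gcongr
              _ = rho (‖z‖ ^ 2) := one_mul _
      _ ≤ RR := by unfold RR; linarith
  -- S as an integral
  have hSint : ((S : ℝ) : ℂ) = ∫ z in ball (0:ℂ) 1, Ff f z * starRingEnd ℂ (p z) := by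
    have h1 : ∀ z : ℂ, Ff f z * starRingEnd ℂ (p z)
        = ∑ n ∈ Finset.range N, starRingEnd ℂ (a n) * (Ff f z * (starRingEnd ℂ z) ^ n) := by
      intro z
      simp only [hp]
      rw [map_sum, Finset.mul_sum]
      refine Finset.sum_congr rfl fun n _ => ?_
      rw [map_mul, map_pow]
      ring
    simp_rw [h1]
    rw [integral_finsetSum]
    · rw [hS]
      push_cast
      refine Finset.sum_congr rfl fun n _ => ?_
      rw [integral_const_mul]
      have h2 : (∫ z in ball (0:ℂ) 1, Ff f z * (starRingEnd ℂ z) ^ n) = a n := rfl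
      rw [h2, mul_comm, Complex.mul_conj, Complex.normSq_eq_norm_sq]
      push_cast
      rfl
    · intro n _
      exact (gam_integrable hFint n).const_mul _
  have hint1 : IntegrableOn (fun z => ‖f z‖ ^ 2 * sig z) (ball (0:ℂ) 1) := by
    have h1 : IntegrableOn (fun z : ℂ => sig z) (ball (0:ℂ) 1) := by
      unfold sig
      refine rhoz_integrable.bdd_mul (c := 4) (by fun_prop) ?_
      filter_upwards [ae_restrict_mem measurableSet_ball] with z hz
      have : ‖z‖ < 1 := mem_ball_zero_iff.mp hz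
      have h2 : ‖1 - z‖ ≤ 2 := by
        calc ‖1 - z‖ ≤ ‖(1:ℂ)‖ + ‖z‖ := norm_sub_le _ _
          _ ≤ 1 + 1 := by simp; exact this.le
          _ = 2 := by norm_num
      rw [Real.norm_of_nonneg (by positivity)]
      nlinarith [norm_nonneg (1 - z)]
    refine h1.bdd_mul (c := M ^ 2) (hf.norm.pow_const 2).aestronglyMeasurable ?_
    refine Eventually.of_forall fun z => ?_
    rw [Real.norm_of_nonneg (by positivity)]
    have := hM z
    have h0 := norm_nonneg (f z)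
    gcongr
  have hint2 : IntegrableOn (fun z => ‖p z‖ ^ 2 * rho (‖z‖ ^ 2)) (ball (0:ℂ) 1) := by
    refine rhoz_integrable.bdd_mul (c := P ^ 2) (by fun_prop) ?_
    filter_upwards [ae_restrict_mem measurableSet_ball] with z hz
    rw [Real.norm_of_nonneg (by positivity)]
    have := hP z hz
    have h0 := norm_nonneg (p z)
    gcongr
  have hmain : 2 * S ≤ RR * (∫ z in ball (0:ℂ) 1, ‖f z‖ ^ 2 * sig z)
      + RR⁻¹ * ∫ z in ball (0 : ℂ) 1, ‖p z‖ ^ 2 * rho (‖z‖ ^ 2) := by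
    have hS0 : 0 ≤ S := Finset.sum_nonneg fun _ _ => by positivity
    have h1 : S ≤ ∫ z in ball (0:ℂ) 1, ‖Ff f z * starRingEnd ℂ (p z)‖ := by
      calc S = ‖((S:ℝ):ℂ)‖ := by rw [Complex.norm_real, Real.norm_of_nonneg hS0]
        _ = ‖∫ z in ball (0:ℂ) 1, Ff f z * starRingEnd ℂ (p z)‖ := by rw [hSint]
        _ ≤ _ := norm_integral_le_integral_norm _
    calc 2 * S ≤ 2 * ∫ z in ball (0:ℂ) 1, ‖Ff f z * starRingEnd ℂ (p z)‖ := by linarith
      _ = ∫ z in ball (0:ℂ) 1, 2 * ‖Ff f z * starRingEnd ℂ (p z)‖ := by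
          rw [integral_const_mul]
      _ ≤ ∫ z in ball (0:ℂ) 1, (RR * (‖f z‖ ^ 2 * sig z) + RR⁻¹ * (‖p z‖ ^ 2 * rho (‖z‖ ^ 2))) := by
          refine integral_mono_of_nonneg (Eventually.of_forall fun z => by positivity)
            ((hint1.const_mul _).add (hint2.const_mul _)) ?_
          refine Eventually.of_forall fun z => ?_
          have h2 : ‖Ff f z * starRingEnd ℂ (p z)‖ = (‖f z‖ * ‖1 - z‖ * ‖p z‖) * rho (‖z‖ ^ 2) := by
            unfold Ff
            rw [norm_mul, norm_mul, norm_mul, RCLike.norm_conj, Complex.norm_real,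
              Real.norm_of_nonneg (rho_nonneg (by positivity))]
            ring
          have h3 : 0 ≤ rho (‖z‖ ^ 2) := rho_nonneg (by positivity)
          simp only []
          rw [h2]
          unfold sig
          have h4 : 2 * (‖f z‖ * ‖1 - z‖ * ‖p z‖) ≤ RR * (‖f z‖ ^ 2 * ‖1 - z‖ ^ 2) + RR⁻¹ * ‖p z‖ ^ 2 := by
            have hR := RR_pos
            have h5 : 0 ≤ RR⁻¹ * (RR * (‖f z‖ * ‖1 - z‖) - ‖p z‖) ^ 2 := by positivity
            have h6 : RR⁻¹ * (RR * (‖f z‖ * ‖1 - z‖) - ‖p z‖) ^ 2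
                = RR * (‖f z‖ ^ 2 * ‖1 - z‖ ^ 2) + RR⁻¹ * ‖p z‖ ^ 2 - 2 * (‖f z‖ * ‖1 - z‖ * ‖p z‖) := by
              field_simp
              ring
            linarith
          calc 2 * (‖f z‖ * ‖1 - z‖ * ‖p z‖ * rho (‖z‖ ^ 2))
              = (2 * (‖f z‖ * ‖1 - z‖ * ‖p z‖)) * rho (‖z‖ ^ 2) := by ring
            _ ≤ (RR * (‖f z‖ ^ 2 * ‖1 - z‖ ^ 2) + RR⁻¹ * ‖p z‖ ^ 2) * rho (‖z‖ ^ 2) := by gcongr
            _ = _ := by ring
      _ = _ := by
          rw [integral_add (hint1.const_mul _) (hint2.const_mul _), integral_const_mul,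
            integral_const_mul]
  have hR := RR_pos
  have h7 : RR⁻¹ * ∫ z in ball (0 : ℂ) 1, ‖p z‖ ^ 2 * rho (‖z‖ ^ 2) ≤ S := by
    calc RR⁻¹ * ∫ z in ball (0 : ℂ) 1, ‖p z‖ ^ 2 * rho (‖z‖ ^ 2) ≤ RR⁻¹ * (RR * S) := by gcongr
      _ = S := by field_simp
  linarith

lemma sig_integrable_f {f : ℂ → ℂ} (hf : Measurable f) {M : ℝ} (hM : ∀ z, ‖f z‖ ≤ M) :
    IntegrableOn (fun z => ‖f z‖ ^ 2 * sig z) (ball (0:ℂ) 1) := by
  have h1 : IntegrableOn (fun z : ℂ => sig z) (ball (0:ℂ) 1) := by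
    unfold sig
    refine rhoz_integrable.bdd_mul (c := 4) (by fun_prop) ?_
    filter_upwards [ae_restrict_mem measurableSet_ball] with z hz
    have : ‖z‖ < 1 := mem_ball_zero_iff.mp hz
    have h2 : ‖1 - z‖ ≤ 2 := by
      calc ‖1 - z‖ ≤ ‖(1:ℂ)‖ + ‖z‖ := norm_sub_le _ _
        _ ≤ 1 + 1 := by simp; exact this.le
        _ = 2 := by norm_num
    rw [Real.norm_of_nonneg (by positivity)]
    nlinarith [norm_nonneg (1 - z)]
  refine h1.bdd_mul (c := M ^ 2) (hf.norm.pow_const 2).aestronglyMeasurable ?_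
  refine Eventually.of_forall fun z => ?_
  rw [Real.norm_of_nonneg (by positivity)]
  have := hM z
  have h0 := norm_nonneg (f z)
  gcongr

/-- The Bergman projection is bounded for the pair of weights. -/
lemma bergman_bounded {f : ℂ → ℂ} (hf : Measurable f) {M : ℝ} (hM : ∀ z, ‖f z‖ ≤ M) :
    ∫⁻ z in ball (0:ℂ) 1,
        ‖∫ ζ in ball (0:ℂ) 1, f ζ * (sig ζ : ℂ) / (1 - z * starRingEnd ℂ ζ) ^ 2‖ₑ ^ 2 *
          ENNReal.ofReal (wgt z)
      ≤ ENNReal.ofReal (Real.pi * RR) *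
        ∫⁻ ζ in ball (0:ℂ) 1, ‖f ζ‖ₑ ^ 2 * ENNReal.ofReal (sig ζ) := by
  have h1 := key_estimate (Ff_integrable hf hM) (bessel hf hM)
  have h2 : ∫⁻ ζ in ball (0:ℂ) 1, ‖f ζ‖ₑ ^ 2 * ENNReal.ofReal (sig ζ)
      = ENNReal.ofReal (∫ z in ball (0:ℂ) 1, ‖f z‖ ^ 2 * sig z) := by
    rw [ofReal_integral_eq_lintegral_ofReal (sig_integrable_f hf hM)]
    · apply lintegral_congr
      intro z
      rw [ENNReal.ofReal_mul (by positivity), ENNReal.ofReal_pow (norm_nonneg _), ofReal_norm]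
    · exact Eventually.of_forall fun z => mul_nonneg (by positivity) (sig_nonneg z)
  have h3 : ENNReal.ofReal (Real.pi * (RR * ∫ z in ball (0:ℂ) 1, ‖f z‖ ^ 2 * sig z))
      = ENNReal.ofReal (Real.pi * RR) *
        ∫⁻ ζ in ball (0:ℂ) 1, ‖f ζ‖ₑ ^ 2 * ENNReal.ofReal (sig ζ) := by
    rw [h2, ← ENNReal.ofReal_mul (mul_pos Real.pi_pos RR_pos).le]
    congr 1
    ring
  rw [← h3]
  refine le_trans (le_of_eq ?_) h1
  apply setLIntegral_congr_fun measurableSet_ball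
  intro z hz
  have hz1 : ‖z‖ < 1 := mem_ball_zero_iff.mp hz
  have hne := one_sub_ne hz1
  have h4 : (∫ ζ in ball (0:ℂ) 1, f ζ * (sig ζ : ℂ) / (1 - z * starRingEnd ℂ ζ) ^ 2)
      = (1 - z) * KF (Ff f) z := by
    unfold KF
    rw [← integral_const_mul]
    congr 1
    ext ζ
    unfold Ff sig
    have h5 : ((‖1 - ζ‖ ^ 2 : ℝ) : ℂ) = (1 - ζ) * (1 - starRingEnd ℂ ζ) := by
      rw [← Complex.normSq_eq_norm_sq, ← Complex.mul_conj, map_sub, map_one]
    rw [ofReal_mul, h5]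
    rw [div_eq_mul_inv, div_eq_mul_inv, mul_inv]
    have h6 : (1 - z) * (1 - z)⁻¹ = 1 := mul_inv_cancel₀ hne
    linear_combination (-(f ζ * ((1 - ζ) * (rho (‖ζ‖ ^ 2) : ℂ))) * (1 - starRingEnd ℂ ζ) *
      ((1 - z * starRingEnd ℂ ζ) ^ 2)⁻¹) * h6
  simp only []
  rw [h4, wgt_eq hz1, enorm_mul, mul_pow, mul_comm (‖1 - z‖ₑ ^ 2), mul_assoc]
  congr 1
  rw [← ofReal_norm (1 - z), ← ENNReal.ofReal_pow (norm_nonneg _), ← ENNReal.ofReal_mul (by positivity)]
  congr 1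
  have : ‖1 - z‖ ≠ 0 := norm_ne_zero_iff.mpr hne
  field_simp

end Pool.Agent.H55
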