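import Mathlib
import Pool.Agent.H55.Berg5

set_option autoImplicit false

namespace Pool.Agent.H55

open MeasureTheory Metric Complex Filter Topology

/-- averaging over rotations -/
lemma lintegral_avg {G : ℂ → ENNReal} (hG : Measurable G) :
    ∫⁻ z in ball (0:ℂ) 1, G z = ∫⁻ z in ball (0:ℂ) 1,
      (ENNReal.ofReal (2 * Real.pi))⁻¹ *
        ∫⁻ θ in Set.Ioc (0:ℝ) (2 * Real.pi), G (Complex.exp ((θ:ℂ) * Complex.I) * z) := by
  have hpos : (0:ℝ) < 2 * Real.pi := by positivity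
  have h1 : ∀ θ : ℝ, ∫⁻ z in ball (0:ℂ) 1, G (Complex.exp ((θ:ℂ) * Complex.I) * z)
      = ∫⁻ z in ball (0:ℂ) 1, G z := by
    intro θ
    have := rot_setLIntegral (Circle.exp θ) G
    simpa [Circle.coe_exp] using this
  rw [lintegral_const_mul]
  · rw [lintegral_lintegral_swap]
    · simp_rw [h1]
      rw [lintegral_const, Measure.restrict_apply MeasurableSet.univ, Set.univ_inter,
        Real.volume_Ioc, sub_zero]
      rw [mul_comm (∫⁻ z in ball (0:ℂ) 1, G z), ← mul_assoc, ENNReal.inv_mul_cancel, one_mul]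
      · simpa using hpos
      · exact ENNReal.ofReal_ne_top
    · apply Measurable.aemeasurable
      apply hG.comp
      fun_prop
  · apply Measurable.lintegral_prod_right'
      (f := fun p : ℂ × ℝ => G (Complex.exp ((p.2:ℂ) * Complex.I) * p.1))
    apply hG.comp
    fun_prop

lemma denom_ne {z ζ : ℂ} (hz : ‖z‖ < 1) (hζ : ‖ζ‖ < 1) : 1 - z * starRingEnd ℂ ζ ≠ 0 := by
  apply one_sub_ne
  rw [norm_mul, RCLike.norm_conj]
  nlinarith [norm_nonneg z, norm_nonneg ζ]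

/-- the circle average -/
lemma circ_avg {z ζ : ℂ} (hz : ‖z‖ < 1) (hζ : ‖ζ‖ < 1) (hζ0 : ζ ≠ 0) :
    (2 * Real.pi)⁻¹ * ∫ θ in (0:ℝ)..2 * Real.pi,
      ‖1 - Complex.exp ((θ:ℂ) * Complex.I) * ζ‖ ^ 2 /
        ‖1 - z * starRingEnd ℂ (Complex.exp ((θ:ℂ) * Complex.I) * ζ)‖ ^ 2
      = (1 + ‖ζ‖ ^ 2 - 2 * ‖ζ‖ ^ 2 * z.re) / (1 - ‖ζ‖ ^ 2 * ‖z‖ ^ 2) := by
  set r := ‖ζ‖ with hr
  have hr0 : 0 < r := norm_pos_iff.mpr hζ0
  set w : ℂ := (r ^ 2 : ℝ) * z with hw
  have hwn : ‖w‖ = r ^ 2 * ‖z‖ := by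
    rw [hw, norm_mul, Complex.norm_real, Real.norm_of_nonneg (by positivity)]
  have hwb : w ∈ ball (0:ℂ) r := by
    rw [mem_ball_zero_iff, hwn]
    nlinarith [norm_nonneg z]
  -- the average of G over the circle of radius r
  have h1 := Real.circleAverage_eq_integral_add (f := fun ω : ℂ => ‖1 - ω‖ ^ 2 /
        ‖1 - z * starRingEnd ℂ ω‖ ^ 2) (c := 0) (R := r) ζ.arg
  have h2 : ∀ θ : ℝ, circleMap 0 r (θ + ζ.arg) = Complex.exp ((θ:ℂ) * Complex.I) * ζ := by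
    intro θ
    rw [circleMap, zero_add]
    calc (r : ℂ) * Complex.exp (((θ + ζ.arg : ℝ) : ℂ) * Complex.I)
        = Complex.exp ((θ:ℂ) * Complex.I) * ((‖ζ‖ : ℂ) * Complex.exp (ζ.arg * Complex.I)) := by
          push_cast
          rw [add_mul, Complex.exp_add, hr]
          ring
      _ = _ := by rw [Complex.norm_mul_exp_arg_mul_I]
  simp only [h2] at h1
  rw [smul_eq_mul] at h1
  rw [← h1]
  have h3 : DiffContOnCl ℂ (fun ω : ℂ => ((1 + r ^ 2 : ℝ) : ℂ) - 2 * ω) (ball (0:ℂ) r) := by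
    apply Differentiable.diffContOnCl
    fun_prop
  have h4 := h3.circleAverage_poissonKernel_smul hwb
  have hD : 0 < 1 - r ^ 2 * ‖z‖ ^ 2 := by
    have := norm_nonneg z
    have h5 : r ^ 2 < 1 := by nlinarith
    have h6 : ‖z‖ ^ 2 < 1 := by nlinarith
    nlinarith [sq_nonneg r, sq_nonneg ‖z‖]
  -- relate
  have hcont : CircleIntegrable (poissonKernel 0 w • fun ω : ℂ => ((1 + r ^ 2 : ℝ) : ℂ) - 2 * ω) 0 r := by
    apply ContinuousOn.circleIntegrable hr0.le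
    apply ContinuousOn.smul
    · unfold poissonKernel
      refine ContinuousOn.div (by fun_prop) (by fun_prop) ?_
      intro x hx
      have hx1 : ‖x‖ = r := by simpa using hx
      have : x - 0 - (w - 0) ≠ 0 := by
        intro h
        have h' : x = w := by simpa using sub_eq_zero.mp h
        rw [← h', mem_ball_zero_iff, hx1] at hwb
        exact lt_irrefl _ hwb
      have := norm_pos_iff.mpr this
      positivity
    · fun_prop
  have h7 := Complex.reCLM.circleAverage_comp_comm hcont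
  rw [h4] at h7
  have h8 : Real.circleAverage (fun ω : ℂ => ‖1 - ω‖ ^ 2 /
        ‖1 - z * starRingEnd ℂ ω‖ ^ 2) 0 r
      = Real.circleAverage ((1 - r ^ 2 * ‖z‖ ^ 2)⁻¹ • (Complex.reCLM ∘ (poissonKernel 0 w • fun ω : ℂ => ((1 + r ^ 2 : ℝ) : ℂ) - 2 * ω))) 0 r := by
    apply Real.circleAverage_congr_sphere
    intro ω hω
    have hω1 : ‖ω‖ = r := by simpa [abs_of_pos hr0] using hω
    have hω0 : ω ≠ 0 := by
      rw [← norm_pos_iff, hω1]; exact hr0
    have e1 : ‖1 - ω‖ ^ 2 = 1 + r ^ 2 - 2 * ω.re := by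
      rw [← hω1, ← Complex.normSq_eq_norm_sq, ← Complex.normSq_eq_norm_sq]
      simp only [Complex.normSq_apply, sub_re, one_re, sub_im, one_im]
      ring
    have e2 : ω * (1 - z * starRingEnd ℂ ω) = ω - w := by
      rw [mul_sub, mul_one, hw, ← hω1]
      have : ω * (z * starRingEnd ℂ ω) = (ω * starRingEnd ℂ ω) * z := by ring
      rw [this, Complex.mul_conj, Complex.normSq_eq_norm_sq]
    have e3 : ‖ω - w‖ ^ 2 = r ^ 2 * ‖1 - z * starRingEnd ℂ ω‖ ^ 2 := by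
      rw [← e2, norm_mul, hω1, mul_pow]
    have hne : ‖1 - z * starRingEnd ℂ ω‖ ≠ 0 := by
      rw [norm_ne_zero_iff]
      exact denom_ne hz (by rw [hω1]; exact hζ)
    have e4 : ((1 - r ^ 2 * ‖z‖ ^ 2)⁻¹ • (⇑Complex.reCLM ∘ (poissonKernel 0 w • fun ω : ℂ =>
        ((1 + r ^ 2 : ℝ) : ℂ) - 2 * ω))) ω = (1 - r ^ 2 * ‖z‖ ^ 2)⁻¹ *
        (((‖ω‖ ^ 2 - ‖w‖ ^ 2) / ‖ω - w‖ ^ 2) * (1 + r ^ 2 - 2 * ω.re)) := by
      simp only [Pi.smul_apply, Function.comp_apply, Pi.smul_apply', smul_eq_mul,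
        Complex.reCLM_apply, poissonKernel, sub_zero, Complex.real_smul, Complex.re_ofReal_mul]
      congr 2
      rw [Complex.sub_re, Complex.ofReal_re]
      simp
    rw [e4, e3, hwn, hω1]
    simp only []
    rw [e1]
    have hr1 : r ≠ 0 := hr0.ne'
    have hD1 := hD.ne'
    have e5 : (r ^ 2 - (r ^ 2 * ‖z‖) ^ 2) = r ^ 2 * (1 - r ^ 2 * ‖z‖ ^ 2) := by ring
    rw [e5]
    field_simp
  rw [h8, Real.circleAverage_smul, h7]
  simp only [smul_eq_mul, Complex.reCLM_apply]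
  rw [hw]
  have e6 : (((1 + r ^ 2 : ℝ) : ℂ) - 2 * ((r ^ 2 : ℝ) * z)).re = 1 + r ^ 2 - 2 * r ^ 2 * z.re := by
    rw [Complex.sub_re, Complex.ofReal_re]
    have : (2 : ℂ) * (((r ^ 2 : ℝ) : ℂ) * z) = (((2 * r ^ 2 : ℝ)) : ℂ) * z := by push_cast; ring
    rw [this, Complex.re_ofReal_mul]
  rw [e6]
  field_simp

end Pool.Agent.H55
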