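import Mathlib
import Pool.Agent.H55.Berg6

set_option autoImplicit false

namespace Pool.Agent.H55

open MeasureTheory Metric Complex Filter Topology

lemma avg_lower {z ζ : ℂ} {a : ℝ} (ha : 1 / 2 ≤ a ^ 2) (ha0 : 0 < a) (hz : ‖z‖ ≤ a)
    (hζ : a ≤ ‖ζ‖) (hζ1 : ‖ζ‖ < 1) :
    ENNReal.ofReal (1 / 4 * (‖1 - z‖ ^ 2 / (1 - ‖z‖ ^ 2)))
      ≤ (ENNReal.ofReal (2 * Real.pi))⁻¹ * ∫⁻ θ in Set.Ioc (0:ℝ) (2 * Real.pi),
        ENNReal.ofReal (‖1 - Complex.exp ((θ:ℂ) * Complex.I) * ζ‖ ^ 2 /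
        ‖1 - z * starRingEnd ℂ (Complex.exp ((θ:ℂ) * Complex.I) * ζ)‖ ^ 2) := by
  have hpos : (0:ℝ) < 2 * Real.pi := by positivity
  have hz1 : ‖z‖ < 1 := by linarith
  have hζ0 : ζ ≠ 0 := by
    rw [← norm_pos_iff]; linarith
  have h1 := circ_avg hz1 hζ1 hζ0
  have hcont : Continuous (fun θ : ℝ => ‖1 - Complex.exp ((θ:ℂ) * Complex.I) * ζ‖ ^ 2 /
        ‖1 - z * starRingEnd ℂ (Complex.exp ((θ:ℂ) * Complex.I) * ζ)‖ ^ 2) := by
    refine Continuous.div ?_ ?_ ?_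
    · fun_prop
    · have : Continuous (fun θ : ℝ => starRingEnd ℂ (Complex.exp ((θ:ℂ) * Complex.I) * ζ)) :=
        continuous_conj.comp (by fun_prop)
      fun_prop
    · intro θ
      have : 1 - z * starRingEnd ℂ (Complex.exp ((θ:ℂ) * Complex.I) * ζ) ≠ 0 := by
        apply denom_ne hz1
        rw [norm_mul, Complex.norm_exp_ofReal_mul_I, one_mul]
        exact hζ1
      have := norm_pos_iff.mpr this
      positivity
  have h2 : ∫⁻ θ in Set.Ioc (0:ℝ) (2 * Real.pi),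
        ENNReal.ofReal (‖1 - Complex.exp ((θ:ℂ) * Complex.I) * ζ‖ ^ 2 /
        ‖1 - z * starRingEnd ℂ (Complex.exp ((θ:ℂ) * Complex.I) * ζ)‖ ^ 2)
      = ENNReal.ofReal (∫ θ in (0:ℝ)..2 * Real.pi,
      ‖1 - Complex.exp ((θ:ℂ) * Complex.I) * ζ‖ ^ 2 /
        ‖1 - z * starRingEnd ℂ (Complex.exp ((θ:ℂ) * Complex.I) * ζ)‖ ^ 2) := by
    rw [intervalIntegral.integral_of_le hpos.le, ofReal_integral_eq_lintegral_ofReal]
    · exact (hcont.intervalIntegrable 0 (2 * Real.pi)).1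
    · exact Eventually.of_forall fun θ => by positivity
  rw [h2, ← ENNReal.ofReal_inv_of_pos hpos, ← ENNReal.ofReal_mul (by positivity), h1]
  apply ENNReal.ofReal_le_ofReal
  set r := ‖ζ‖
  set t := ‖z‖ with ht
  have ht0 : 0 ≤ t := norm_nonneg z
  have hr2 : a ^ 2 ≤ r ^ 2 := by gcongr
  have hr21 : r ^ 2 < 1 := by nlinarith
  have ht2 : t ^ 2 ≤ a ^ 2 := by gcongr
  have ht21 : t ^ 2 < 1 := by nlinarith
  have hD1 : 0 < 1 - t ^ 2 := by linarith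
  have hD : 0 < 1 - r ^ 2 * t ^ 2 := by nlinarith [sq_nonneg r, sq_nonneg t]
  have e1 : ‖1 - z‖ ^ 2 = 1 + t ^ 2 - 2 * z.re := by
    rw [ht, ← Complex.normSq_eq_norm_sq, ← Complex.normSq_eq_norm_sq]
    simp only [Complex.normSq_apply, sub_re, one_re, sub_im, one_im]
    ring
  have hnn : 0 ≤ ‖1 - z‖ ^ 2 := by positivity
  have h3 : r ^ 2 * ‖1 - z‖ ^ 2 ≤ 1 + r ^ 2 - 2 * r ^ 2 * z.re := by
    rw [e1]
    nlinarith
  have h4 : 1 - r ^ 2 * t ^ 2 ≤ 2 * (1 - t ^ 2) := by nlinarith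
  rw [mul_div_assoc', div_le_div_iff₀ hD1 hD]
  calc 1 / 4 * ‖1 - z‖ ^ 2 * (1 - r ^ 2 * t ^ 2)
      ≤ 1 / 4 * ‖1 - z‖ ^ 2 * (2 * (1 - t ^ 2)) := by gcongr
    _ = (1 / 2 * ‖1 - z‖ ^ 2) * (1 - t ^ 2) := by ring
    _ ≤ (r ^ 2 * ‖1 - z‖ ^ 2) * (1 - t ^ 2) := by
        gcongr
        linarith
    _ ≤ _ := by gcongr

/-- the annulus -/
def Ann (a b : ℝ) : Set ℂ := {ζ | a ≤ ‖ζ‖ ∧ ‖ζ‖ ≤ b}

lemma Ann_meas (a b : ℝ) : MeasurableSet (Ann a b) := by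
  unfold Ann
  exact (isClosed_le continuous_const continuous_norm).measurableSet.inter
    (isClosed_le continuous_norm continuous_const).measurableSet

/-- clamped radial weight -/
noncomputable def rhoc (b x : ℝ) : ℝ := rho (max 0 (min x (b ^ 2)))

lemma rhoc_cont {b : ℝ} (hb0 : 0 ≤ b) (hb : b < 1) : Continuous (rhoc b) := by
  unfold rhoc
  refine rho_continuousOn.comp_continuous (by fun_prop) ?_
  intro x
  constructor
  · have := le_max_left 0 (min x (b ^ 2))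
    linarith
  · rw [max_lt_iff]
    refine ⟨one_pos, ?_⟩
    calc min x (b ^ 2) ≤ b ^ 2 := min_le_right _ _
      _ < 1 := by nlinarith

/-- radial density on the annulus -/
noncomputable def Rr (a b : ℝ) (ζ : ℂ) : ENNReal :=
  (Ann a b).indicator (fun ζ => ENNReal.ofReal (rhoc b (‖ζ‖ ^ 2))) ζ

lemma Rr_meas {a b : ℝ} (hb0 : 0 ≤ b) (hb : b < 1) : Measurable (Rr a b) := by
  unfold Rr
  apply Measurable.indicator _ (Ann_meas a b)
  have := (rhoc_cont hb0 hb).measurable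
  fun_prop

lemma Rr_rot (a b θ : ℝ) (ζ : ℂ) : Rr a b (Complex.exp ((θ:ℂ) * Complex.I) * ζ) = Rr a b ζ := by
  unfold Rr Ann Set.indicator
  simp only [Set.mem_ofPred_eq, norm_mul, Complex.norm_exp_ofReal_mul_I, one_mul]

lemma P_lower {a b : ℝ} (ha : 1 / 2 ≤ a ^ 2) (ha0 : 0 < a) (hb0 : 0 ≤ b) (hb : b < 1) {z : ℂ}
    (hz : ‖z‖ ≤ a) (hz1 : ‖z‖ < 1) :
    (∫⁻ ζ in ball (0:ℂ) 1, Rr a b ζ) * ENNReal.ofReal (1 / 4 * (‖1 - z‖ ^ 2 / (1 - ‖z‖ ^ 2)))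
      ≤ ∫⁻ ζ in ball (0:ℂ) 1, ‖(Ann a b).indicator (fun _ => (1:ℂ)) ζ‖ₑ * ENNReal.ofReal (sig ζ) /
        ‖1 - z * starRingEnd ℂ ζ‖ₑ ^ 2 := by
  set G : ℂ → ENNReal := fun ζ => ENNReal.ofReal (‖1 - ζ‖ ^ 2 / ‖1 - z * starRingEnd ℂ ζ‖ ^ 2) with hG
  have hGm : Measurable G := by
    have : Measurable (fun ζ : ℂ => starRingEnd ℂ ζ) := continuous_conj.measurable
    fun_prop
  have hRm := Rr_meas (a := a) hb0 hb
  have h1 : ∫⁻ ζ in ball (0:ℂ) 1, ‖(Ann a b).indicator (fun _ => (1:ℂ)) ζ‖ₑ * ENNReal.ofReal (sig ζ) /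
        ‖1 - z * starRingEnd ℂ ζ‖ₑ ^ 2 = ∫⁻ ζ in ball (0:ℂ) 1, Rr a b ζ * G ζ := by
    apply setLIntegral_congr_fun measurableSet_ball
    intro ζ hζ
    have hζ1 : ‖ζ‖ < 1 := mem_ball_zero_iff.mp hζ
    simp only [Rr, hG]
    by_cases hA : ζ ∈ Ann a b
    · rw [Set.indicator_of_mem hA, Set.indicator_of_mem hA]
      have hb2 : rhoc b (‖ζ‖ ^ 2) = rho (‖ζ‖ ^ 2) := by
        unfold rhoc
        rw [min_eq_left, max_eq_right (by positivity)]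
        have := hA.2
        gcongr
      have hne : 0 < ‖1 - z * starRingEnd ℂ ζ‖ := norm_pos_iff.mpr (denom_ne hz1 hζ1)
      rw [hb2, ← ofReal_norm, ← ofReal_norm, ← ENNReal.ofReal_pow (norm_nonneg _), norm_one,
        ENNReal.ofReal_one, one_mul, ← ENNReal.ofReal_div_of_pos (by positivity),
        ← ENNReal.ofReal_mul (rho_nonneg (by positivity))]
      congr 1
      unfold sig
      ring
    · rw [Set.indicator_of_notMem hA, Set.indicator_of_notMem hA]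
      simp
  have hprod : Measurable (fun ζ => Rr a b ζ * G ζ) := hRm.mul hGm
  rw [h1, lintegral_avg hprod, ← lintegral_mul_const _ hRm]
  apply setLIntegral_mono'  measurableSet_ball
  intro ζ hζ
  have hζ1 : ‖ζ‖ < 1 := mem_ball_zero_iff.mp hζ
  by_cases hA : ζ ∈ Ann a b
  · have h2 := avg_lower ha ha0 hz hA.1 hζ1
    calc Rr a b ζ * ENNReal.ofReal (1 / 4 * (‖1 - z‖ ^ 2 / (1 - ‖z‖ ^ 2)))
        ≤ Rr a b ζ * ((ENNReal.ofReal (2 * Real.pi))⁻¹ * ∫⁻ θ in Set.Ioc (0:ℝ) (2 * Real.pi),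
          ENNReal.ofReal (‖1 - Complex.exp ((θ:ℂ) * Complex.I) * ζ‖ ^ 2 /
          ‖1 - z * starRingEnd ℂ (Complex.exp ((θ:ℂ) * Complex.I) * ζ)‖ ^ 2)) := by gcongr
      _ = _ := by
        simp_rw [Rr_rot]
        rw [lintegral_const_mul]
        · ring
        · apply hGm.comp
          fun_prop
  · have : Rr a b ζ = 0 := by
      unfold Rr
      rw [Set.indicator_of_notMem hA]
    rw [this]
    simp

end Pool.Agent.H55
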