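import Mathlib
import Pool.Agent.H55.Berg7

set_option autoImplicit false

namespace Pool.Agent.H55

open MeasureTheory Metric Complex Filter Topology

lemma I_value {a : ℝ} (ha0 : 0 < a) (ha1 : a < 1) :
    ∫⁻ z in ball (0:ℂ) 1, (if ‖z‖ ≤ a then ENNReal.ofReal (1 / (1 - ‖z‖ ^ 2)) else 0)
      = ENNReal.ofReal (Real.pi * (-Real.log (1 - a ^ 2))) := by
  set f : ℝ → ℝ := fun y => if y ≤ a then 1 / (1 - y ^ 2) else 0 with hf
  have hfm : Measurable f := by
    apply Measurable.ite measurableSet_Iic <;> fun_prop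
  have ha2 : a ^ 2 < 1 := by nlinarith
  have hfb : ∀ z : ℂ, ‖f ‖z‖‖ ≤ 1 / (1 - a ^ 2) := by
    intro z
    simp only [hf]
    split_ifs with h
    · have h1 : ‖z‖ ^ 2 ≤ a ^ 2 := by gcongr
      have h2 : 0 < 1 - ‖z‖ ^ 2 := by linarith
      rw [Real.norm_of_nonneg (by positivity)]
      exact one_div_le_one_div_of_le (by linarith) (by linarith)
    · rw [norm_zero]
      have : 0 < 1 - a ^ 2 := by linarith
      positivity
  have h1 : ∫ z in ball (0:ℂ) 1, f ‖z‖ = Real.pi * (-Real.log (1 - a ^ 2)) := by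
    rw [radial_integral]
    have e1 : ∫ y in (0:ℝ)..a, y * f y = ∫ y in (0:ℝ)..a, y / (1 - y ^ 2) := by
      apply intervalIntegral.integral_congr
      intro y hy
      rw [Set.uIcc_of_le ha0.le] at hy
      simp only [hf]
      rw [if_pos hy.2]
      ring
    have e2 : ∫ y in (0:ℝ)..a, y / (1 - y ^ 2) = -Real.log (1 - a ^ 2) / 2 := by
      have hder : ∀ y ∈ Set.uIcc 0 a, HasDerivAt (fun y : ℝ => -Real.log (1 - y ^ 2) / 2)
          (y / (1 - y ^ 2)) y := by
        intro y hy
        rw [Set.uIcc_of_le ha0.le] at hy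
        have hy2 : 0 < 1 - y ^ 2 := by nlinarith [hy.1, hy.2]
        have h2 : HasDerivAt (fun y : ℝ => 1 - y ^ 2) (-(2 * y)) y := by
          have := (hasDerivAt_pow 2 y).const_sub 1
          simpa using this
        have h3 := (h2.log hy2.ne').neg.div_const 2
        have h4 : HasDerivAt (fun y : ℝ => -Real.log (1 - y ^ 2) / 2)
          (-(-(2 * y) / (1 - y ^ 2)) / 2) y := h3
        have h5 : y / (1 - y ^ 2) = -(-(2 * y) / (1 - y ^ 2)) / 2 := by ring
        rw [h5]
        exact h4
      rw [intervalIntegral.integral_eq_sub_of_hasDerivAt hder]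
      · simp
      · apply ContinuousOn.intervalIntegrable
        apply ContinuousOn.div (by fun_prop) (by fun_prop)
        intro y hy
        rw [Set.uIcc_of_le ha0.le] at hy
        have hy2 : 0 < 1 - y ^ 2 := by nlinarith [hy.1, hy.2]
        exact hy2.ne'
    have e3 : ∫ y in a..1, y * f y = 0 := by
      rw [intervalIntegral.integral_of_le ha1.le]
      have : ∫ y in Set.Ioc a 1, y * f y = ∫ y in Set.Ioc a 1, (0:ℝ) := by
        apply setIntegral_congr_fun measurableSet_Ioc
        intro y hy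
        simp only [hf]
        rw [if_neg (not_le.mpr hy.1), mul_zero]
      rw [this]; simp
    have i1 : IntervalIntegrable (fun y => y * f y) volume 0 a := by
      have : IntervalIntegrable (fun y : ℝ => y / (1 - y ^ 2)) volume 0 a := by
        apply ContinuousOn.intervalIntegrable
        apply ContinuousOn.div (by fun_prop) (by fun_prop)
        intro y hy
        rw [Set.uIcc_of_le ha0.le] at hy
        have hy2 : 0 < 1 - y ^ 2 := by nlinarith [hy.1, hy.2]
        exact hy2.ne'
      refine this.congr ?_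
      intro y hy
      rw [Set.uIoc_of_le ha0.le] at hy
      simp only [hf]
      rw [if_pos hy.2]
      ring
    have i2 : IntervalIntegrable (fun y => y * f y) volume a 1 := by
      have : IntervalIntegrable (fun y : ℝ => (0:ℝ)) volume a 1 := by simp
      refine this.congr ?_
      intro y hy
      rw [Set.uIoc_of_le ha1.le] at hy
      simp only [hf]
      rw [if_neg (not_le.mpr hy.1), mul_zero]
    rw [← intervalIntegral.integral_add_adjacent_intervals i1 i2, e1, e2, e3]
    ring
  rw [← h1, ofReal_integral_eq_lintegral_ofReal]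
  · apply lintegral_congr
    intro z
    simp only [hf]
    split_ifs <;> simp
  · refine ⟨(hfm.comp measurable_norm).aestronglyMeasurable, ?_⟩
    have : IsFiniteMeasure (volume.restrict (ball (0:ℂ) 1)) :=
      ⟨by rw [Measure.restrict_apply_univ]; exact measure_ball_lt_top⟩
    exact HasFiniteIntegral.of_bounded (C := 1 / (1 - a ^ 2)) (Eventually.of_forall hfb)
  · refine Eventually.of_forall fun z => ?_
    simp only [hf, Pi.zero_apply]
    split_ifs with h
    · have h1 : ‖z‖ ^ 2 ≤ a ^ 2 := by gcongr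
      have h2 : 0 < 1 - ‖z‖ ^ 2 := by linarith
      positivity
    · exact le_rfl

lemma J_lower {a : ℝ} (ha0 : 0 < a) (ha1 : a < 1) :
    ENNReal.ofReal (Real.pi * (-Real.log (1 - a ^ 2))) ≤
    ∫⁻ z in ball (0:ℂ) 1, (if ‖z‖ ≤ a then ENNReal.ofReal (‖1 - z‖ ^ 2 / (1 - ‖z‖ ^ 2)) else 0) := by
  set J := ∫⁻ z in ball (0:ℂ) 1, (if ‖z‖ ≤ a then ENNReal.ofReal (‖1 - z‖ ^ 2 / (1 - ‖z‖ ^ 2)) else 0)
    with hJ
  have ha2 : a ^ 2 < 1 := by nlinarith
  have h1 : J = ∫⁻ z in ball (0:ℂ) 1,
      (if ‖z‖ ≤ a then ENNReal.ofReal (‖1 + z‖ ^ 2 / (1 - ‖z‖ ^ 2)) else 0) := by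
    have h2 := rot_setLIntegral (-1 : Circle)
      (fun z => if ‖z‖ ≤ a then ENNReal.ofReal (‖1 - z‖ ^ 2 / (1 - ‖z‖ ^ 2)) else 0)
    rw [hJ, ← h2]
    apply lintegral_congr
    intro z
    simp
  have hm : Measurable (fun z : ℂ =>
      (if ‖z‖ ≤ a then ENNReal.ofReal (‖1 - z‖ ^ 2 / (1 - ‖z‖ ^ 2)) else 0)) := by
    apply Measurable.ite (measurableSet_le measurable_norm measurable_const) <;> fun_prop
  have h3 : 2 * ENNReal.ofReal (Real.pi * (-Real.log (1 - a ^ 2))) ≤ 2 * J := by
    calc 2 * ENNReal.ofReal (Real.pi * (-Real.log (1 - a ^ 2)))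
        = ∫⁻ z in ball (0:ℂ) 1, 2 * (if ‖z‖ ≤ a then ENNReal.ofReal (1 / (1 - ‖z‖ ^ 2)) else 0) := by
          rw [lintegral_const_mul', I_value ha0 ha1]
          simp
      _ ≤ ∫⁻ z in ball (0:ℂ) 1,
          ((if ‖z‖ ≤ a then ENNReal.ofReal (‖1 - z‖ ^ 2 / (1 - ‖z‖ ^ 2)) else 0) +
            (if ‖z‖ ≤ a then ENNReal.ofReal (‖1 + z‖ ^ 2 / (1 - ‖z‖ ^ 2)) else 0)) := by
          apply lintegral_mono
          intro z
          simp only []
          split_ifs with h
          · have h1 : ‖z‖ ^ 2 ≤ a ^ 2 := by gcongr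
            have h2 : 0 < 1 - ‖z‖ ^ 2 := by linarith
            rw [← ENNReal.ofReal_add (by positivity) (by positivity)]
            have h4 : (2 : ENNReal) = ENNReal.ofReal 2 := by simp
            rw [h4, ← ENNReal.ofReal_mul (by norm_num)]
            apply ENNReal.ofReal_le_ofReal
            have h5 : ‖1 - z‖ ^ 2 + ‖1 + z‖ ^ 2 = 2 + 2 * ‖z‖ ^ 2 := by
              rw [← Complex.normSq_eq_norm_sq, ← Complex.normSq_eq_norm_sq,
                ← Complex.normSq_eq_norm_sq]
              simp only [Complex.normSq_apply, sub_re, one_re, sub_im, one_im, add_re, add_im]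
              ring
            rw [← add_div, h5, mul_one_div]
            gcongr
            nlinarith [sq_nonneg ‖z‖]
          · simp
      _ = J + J := by
          rw [lintegral_add_left hm, ← h1]
      _ = 2 * J := (two_mul J).symm
  exact (ENNReal.mul_le_mul_iff_right (by norm_num) (by norm_num)).mp h3

end Pool.Agent.H55
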