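import Mathlib
import Pool.Agent.H55.Berg8

set_option autoImplicit false

namespace Pool.Agent.H55

open MeasureTheory Metric Complex Filter Topology

lemma m_lower {a b : ℝ} (k : ℕ) (ha0 : 0 < a) (hab : a ≤ b) (hb : b < 1) :
    ENNReal.ofReal (bb k * (a ^ 2) ^ (NN k - 1) * (Real.pi * (b ^ 2 - a ^ 2)))
      ≤ ∫⁻ ζ in ball (0:ℂ) 1, Rr a b ζ := by
  have hb0 : 0 ≤ b := ha0.le.trans hab
  have hc0 : 0 ≤ bb k * (a ^ 2) ^ (NN k - 1) := mul_nonneg (bb_nonneg k) (by positivity)
  have hAball : Ann a b ⊆ ball (0:ℂ) 1 := by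
    intro z hz
    rw [mem_ball_zero_iff]
    exact hz.2.trans_lt hb
  have hvol : (volume : Measure ℂ) (Ann a b) = ENNReal.ofReal (Real.pi * (b ^ 2 - a ^ 2)) := by
    have h1 : Ann a b = closedBall (0:ℂ) b \ ball (0:ℂ) a := by
      ext z
      simp only [Ann, Set.mem_ofPred_eq, Set.mem_sdiff, mem_closedBall_zero_iff, mem_ball_zero_iff,
        not_lt]
      tauto
    rw [h1, measure_sdiff (ball_subset_closedBall.trans (closedBall_subset_closedBall hab))
      measurableSet_ball.nullMeasurableSet measure_ball_lt_top.ne, Complex.volume_closedBall,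
      Complex.volume_ball]
    have h2 : (NNReal.pi : ENNReal) = ENNReal.ofReal Real.pi := by
      rw [ENNReal.ofReal, ← NNReal.coe_real_pi, Real.toNNReal_coe]
    rw [h2, ← ENNReal.ofReal_pow hb0, ← ENNReal.ofReal_pow ha0.le,
      ← ENNReal.ofReal_mul (by positivity), ← ENNReal.ofReal_mul (by positivity),
      ← ENNReal.ofReal_sub _ (by positivity)]
    congr 1
    ring
  calc ENNReal.ofReal (bb k * (a ^ 2) ^ (NN k - 1) * (Real.pi * (b ^ 2 - a ^ 2)))
      = ∫⁻ ζ in ball (0:ℂ) 1, (Ann a b).indicator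
          (fun _ => ENNReal.ofReal (bb k * (a ^ 2) ^ (NN k - 1))) ζ := by
        rw [lintegral_indicator (Ann_meas a b), lintegral_const, Measure.restrict_apply_univ,
          Measure.restrict_apply' measurableSet_ball, Set.inter_eq_left.mpr hAball, hvol,
          ← ENNReal.ofReal_mul hc0]
    _ ≤ ∫⁻ ζ in ball (0:ℂ) 1, Rr a b ζ := by
        apply lintegral_mono
        intro ζ
        unfold Rr
        by_cases hA : ζ ∈ Ann a b
        · simp only [Set.indicator_of_mem hA]
          apply ENNReal.ofReal_le_ofReal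
          have hζ1 : ‖ζ‖ < 1 := mem_ball_zero_iff.mp (hAball hA)
          have h2 : ‖ζ‖ ^ 2 < 1 := by nlinarith [norm_nonneg ζ]
          have hb2 : rhoc b (‖ζ‖ ^ 2) = rho (‖ζ‖ ^ 2) := by
            unfold rhoc
            rw [min_eq_left, max_eq_right (by positivity)]
            have := hA.2
            gcongr
          rw [hb2]
          refine le_trans ?_ (rho_ge (by positivity) h2 k)
          apply mul_le_mul_of_nonneg_left _ (bb_nonneg k)
          have := hA.1
          gcongr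
        · simp [Set.indicator_of_notMem hA]

/-- consequence of boundedness of the positive operator on the annulus -/
lemma main_ineq {a b : ℝ} (ha : 1 / 2 ≤ a ^ 2) (ha0 : 0 < a) (hab : a ≤ b) (hb : b < 1)
    (k : ℕ) {C : NNReal}
    (hC : ∫⁻ z in ball (0:ℂ) 1,
            (∫⁻ ζ in ball (0:ℂ) 1,
                ‖(Ann a b).indicator (fun _ => (1:ℂ)) ζ‖ₑ * ENNReal.ofReal (sig ζ) /
                  ‖1 - z * starRingEnd ℂ ζ‖ₑ ^ 2) ^ 2
              * ENNReal.ofReal (wgt z)
          ≤ (C : ENNReal) * ∫⁻ ζ in ball (0:ℂ) 1,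
            ‖(Ann a b).indicator (fun _ => (1:ℂ)) ζ‖ₑ ^ 2 * ENNReal.ofReal (sig ζ)) :
    bb k * (a ^ 2) ^ (NN k - 1) * (Real.pi * (b ^ 2 - a ^ 2)) *
      (Real.pi * (-Real.log (1 - a ^ 2))) ≤ 64 * C := by
  have hb0 : 0 ≤ b := ha0.le.trans hab
  have ha1 : a < 1 := hab.trans_lt hb
  set m := ∫⁻ ζ in ball (0:ℂ) 1, Rr a b ζ with hm
  set J := ∫⁻ z in ball (0:ℂ) 1, (if ‖z‖ ≤ a then ENNReal.ofReal (‖1 - z‖ ^ 2 / (1 - ‖z‖ ^ 2)) else 0)
    with hJ
  have hm_top : m ≠ ⊤ := by
    have h1 : m ≤ ∫⁻ z in ball (0:ℂ) 1, ENNReal.ofReal (rho (‖z‖ ^ 2)) := by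
      apply lintegral_mono
      intro ζ
      unfold Rr
      by_cases hA : ζ ∈ Ann a b
      · simp only [Set.indicator_of_mem hA]
        have hb2 : rhoc b (‖ζ‖ ^ 2) = rho (‖ζ‖ ^ 2) := by
          unfold rhoc
          rw [min_eq_left, max_eq_right (by positivity)]
          have := hA.2
          gcongr
        rw [hb2]
      · simp [Set.indicator_of_notMem hA]
    have h2 := rhoz_integrable.2
    rw [hasFiniteIntegral_iff_ofReal (Eventually.of_forall fun z => rho_nonneg (by positivity))] at h2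
    exact (h1.trans_lt h2).ne
  have hmJ := m_lower k ha0 hab hb
  have hJl := J_lower ha0 ha1
  -- lower bound of the left side
  have hL : m ^ 2 * (ENNReal.ofReal (1 / 16) * J) ≤ ∫⁻ z in ball (0:ℂ) 1,
            (∫⁻ ζ in ball (0:ℂ) 1,
                ‖(Ann a b).indicator (fun _ => (1:ℂ)) ζ‖ₑ * ENNReal.ofReal (sig ζ) /
                  ‖1 - z * starRingEnd ℂ ζ‖ₑ ^ 2) ^ 2
              * ENNReal.ofReal (wgt z) := by
    rw [hJ, ← lintegral_const_mul', ← lintegral_const_mul']
    · apply setLIntegral_mono' measurableSet_ball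
      intro z hz
      have hz1 : ‖z‖ < 1 := mem_ball_zero_iff.mp hz
      split_ifs with h
      · have h1 := P_lower ha ha0 hb0 hb h hz1
        rw [← hm] at h1
        calc m ^ 2 * (ENNReal.ofReal (1 / 16) * ENNReal.ofReal (‖1 - z‖ ^ 2 / (1 - ‖z‖ ^ 2)))
            = (m * ENNReal.ofReal (1 / 4 * (‖1 - z‖ ^ 2 / (1 - ‖z‖ ^ 2)))) ^ 2 *
              ENNReal.ofReal (wgt z) := by
              have hz2 : 0 < 1 - ‖z‖ ^ 2 := by nlinarith [norm_nonneg z]
              have hz3 : 0 < ‖1 - z‖ := norm_pos_iff.mpr (one_sub_ne hz1)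
              have hq : 0 ≤ 1 / 4 * (‖1 - z‖ ^ 2 / (1 - ‖z‖ ^ 2)) := by positivity
              have h16 : (0:ℝ) ≤ 1 / 16 := by norm_num
              rw [mul_pow, mul_assoc, ← ENNReal.ofReal_pow hq,
                ← ENNReal.ofReal_mul (pow_nonneg hq 2), ← ENNReal.ofReal_mul h16,
                wgt_eq hz1]
              congr 2
              field_simp
              norm_num
          _ ≤ _ := by gcongr
      · simp
    · exact ENNReal.pow_ne_top hm_top
    · exact ENNReal.ofReal_ne_top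
  have hR : ∫⁻ ζ in ball (0:ℂ) 1,
            ‖(Ann a b).indicator (fun _ => (1:ℂ)) ζ‖ₑ ^ 2 * ENNReal.ofReal (sig ζ) ≤ 4 * m := by
    rw [hm, ← lintegral_const_mul' _ _ (by norm_num)]
    apply setLIntegral_mono' measurableSet_ball
    intro ζ hζ
    have hζ1 : ‖ζ‖ < 1 := mem_ball_zero_iff.mp hζ
    unfold Rr
    by_cases hA : ζ ∈ Ann a b
    · simp only [Set.indicator_of_mem hA]
      have hb2 : rhoc b (‖ζ‖ ^ 2) = rho (‖ζ‖ ^ 2) := by
        unfold rhoc
        rw [min_eq_left, max_eq_right (by positivity)]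
        have := hA.2
        gcongr
      have h4 : (4 : ENNReal) = ENNReal.ofReal 4 := by simp
      rw [hb2, ← ofReal_norm, norm_one, ENNReal.ofReal_one, one_pow, one_mul, h4,
        ← ENNReal.ofReal_mul (by norm_num)]
      apply ENNReal.ofReal_le_ofReal
      unfold sig
      have h2 : ‖1 - ζ‖ ≤ 2 := by
        calc ‖1 - ζ‖ ≤ ‖(1:ℂ)‖ + ‖ζ‖ := norm_sub_le _ _
          _ ≤ 1 + 1 := by simp; exact hζ1.le
          _ = 2 := by norm_num
      have h3 : 0 ≤ rho (‖ζ‖ ^ 2) := rho_nonneg (by positivity)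
      apply mul_le_mul_of_nonneg_right _ h3
      nlinarith [norm_nonneg (1 - ζ)]
    · simp [Set.indicator_of_notMem hA]
  have h5 : m ^ 2 * (ENNReal.ofReal (1 / 16) * J) ≤ C * (4 * m) :=
    hL.trans (hC.trans (by gcongr))
  -- cancel one factor m
  by_cases hm0 : m = 0
  · rw [← hm, hm0] at hmJ
    have h6 : bb k * (a ^ 2) ^ (NN k - 1) * (Real.pi * (b ^ 2 - a ^ 2)) ≤ 0 := by
      rw [← ENNReal.ofReal_eq_zero]
      exact le_antisymm hmJ bot_le
    have h7 : 0 ≤ Real.pi * (-Real.log (1 - a ^ 2)) := by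
      apply mul_nonneg Real.pi_pos.le
      rw [neg_nonneg]
      exact Real.log_nonpos (by nlinarith) (by nlinarith)
    have h8 : (0:ℝ) ≤ C := C.2
    nlinarith
  have h6 : m * (ENNReal.ofReal (1 / 16) * J) ≤ C * 4 := by
    have h7 : m * (m * (ENNReal.ofReal (1 / 16) * J)) ≤ m * (C * 4) := by
      calc m * (m * (ENNReal.ofReal (1 / 16) * J)) = m ^ 2 * (ENNReal.ofReal (1 / 16) * J) := by ring
        _ ≤ C * (4 * m) := h5
        _ = m * (C * 4) := by ring
    exact (ENNReal.mul_le_mul_iff_right hm0 hm_top).mp h7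
  have h7 : ENNReal.ofReal (bb k * (a ^ 2) ^ (NN k - 1) * (Real.pi * (b ^ 2 - a ^ 2))) *
      (ENNReal.ofReal (1 / 16) * ENNReal.ofReal (Real.pi * (-Real.log (1 - a ^ 2)))) ≤ C * 4 :=
    le_trans (by gcongr) h6
  have hnn : 0 ≤ bb k * (a ^ 2) ^ (NN k - 1) * (Real.pi * (b ^ 2 - a ^ 2)) := by
    have := bb_nonneg k
    have h8 : 0 ≤ b ^ 2 - a ^ 2 := by nlinarith
    positivity
  have h9 : 0 ≤ Real.pi * (-Real.log (1 - a ^ 2)) := by
    apply mul_nonneg Real.pi_pos.le
    rw [neg_nonneg]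
    exact Real.log_nonpos (by nlinarith) (by nlinarith)
  rw [← ENNReal.ofReal_mul (by norm_num), ← ENNReal.ofReal_mul hnn] at h7
  have h10 : (C : ENNReal) * 4 = ENNReal.ofReal (C * 4) := by
    rw [ENNReal.ofReal_mul (by positivity), ENNReal.ofReal_coe_nnreal]
    simp
  rw [h10, ENNReal.ofReal_le_ofReal_iff (by positivity)] at h7
  linarith

/-- the positive operator is unbounded -/
lemma positive_unbounded (C : NNReal) : ∃ f : ℂ → ℂ, Measurable f ∧ (∃ M : ℝ, ∀ z, ‖f z‖ ≤ M) ∧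
    (∃ s : ℝ, s < 1 ∧ ∀ z : ℂ, s < ‖z‖ → f z = 0) ∧
    ¬ (∫⁻ z in ball (0:ℂ) 1,
            (∫⁻ ζ in ball (0:ℂ) 1,
                ‖f ζ‖ₑ * ENNReal.ofReal (sig ζ) / ‖1 - z * starRingEnd ℂ ζ‖ₑ ^ 2) ^ 2
              * ENNReal.ofReal (wgt z)
          ≤ (C : ENNReal) * ∫⁻ ζ in ball (0:ℂ) 1, ‖f ζ‖ₑ ^ 2 * ENNReal.ofReal (sig ζ)) := by
  -- choose k
  obtain ⟨k, hk1, hk⟩ : ∃ k : ℕ, 1 ≤ k ∧ 10000 * (C : ℝ) + 10 < 2 ^ k := by
    obtain ⟨k, hk⟩ := pow_unbounded_of_one_lt (10000 * (C : ℝ) + 10) (one_lt_two)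
    refine ⟨k + 1, by omega, hk.trans ?_⟩
    rw [pow_succ]
    have : (0:ℝ) < 2 ^ k := by positivity
    linarith
  set N : ℝ := (NN k : ℝ) with hN
  have hN16 : (16 : ℝ) ≤ N := by
    have : 16 ≤ NN k := by
      unfold NN
      calc 16 = 2 ^ (4 ^ 1) := by norm_num
        _ ≤ 2 ^ (4 ^ k) := Nat.pow_le_pow_right (by norm_num) (Nat.pow_le_pow_right (by norm_num) hk1)
    rw [hN]
    exact_mod_cast this
  have hNpos : 0 < N := by linarith
  set a : ℝ := 1 - 1 / N with ha
  set b : ℝ := 1 - 1 / (2 * N) with hb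
  have hNinv : 1 / N ≤ 1 / 16 := one_div_le_one_div_of_le (by norm_num) hN16
  have hNinv0 : 0 < 1 / N := by positivity
  have h2N : 1 / (2 * N) = (1 / N) / 2 := by field_simp
  have ha0 : 0 < a := by rw [ha]; linarith
  have hab : a ≤ b := by rw [ha, hb, h2N]; linarith
  have hb1 : b < 1 := by rw [hb, h2N]; linarith
  have ha15 : 15 / 16 ≤ a := by rw [ha]; linarith
  have ha2 : 1 / 2 ≤ a ^ 2 := by nlinarith
  refine ⟨(Ann a b).indicator (fun _ => (1:ℂ)), measurable_const.indicator (Ann_meas a b),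
    ⟨1, ?_⟩, ⟨b, hb1, ?_⟩, ?_⟩
  · intro z
    by_cases hA : z ∈ Ann a b
    · simp [Set.indicator_of_mem hA]
    · simp [Set.indicator_of_notMem hA]
  · intro z hz
    apply Set.indicator_of_notMem
    intro hA
    exact absurd hA.2 (not_le.mpr hz)
  · intro hC
    have h1 := main_ineq ha2 ha0 hab hb1 k hC
    -- lower bounds
    have e1 : 1 / 3 ≤ a ^ (NN k - 1) := by
      have hN1 : 0 < N - 1 := by linarith
      have h2 : a = (1 + 1 / (N - 1))⁻¹ := by
        rw [ha]
        field_simp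
        ring
      have h3 : (1 + 1 / (N - 1)) ^ (NN k - 1) ≤ Real.exp 1 := by
        have h4 : 1 + 1 / (N - 1) ≤ Real.exp (1 / (N - 1)) := by
          have := Real.add_one_le_exp (1 / (N - 1))
          linarith
        calc (1 + 1 / (N - 1)) ^ (NN k - 1) ≤ (Real.exp (1 / (N - 1))) ^ (NN k - 1) := by
              gcongr
          _ = Real.exp (((NN k - 1 : ℕ) : ℝ) * (1 / (N - 1))) := by rw [← Real.exp_nat_mul]
          _ = Real.exp 1 := by
              congr 1
              have : ((NN k - 1 : ℕ) : ℝ) = N - 1 := by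
                have := NN_pos k
                rw [Nat.cast_sub (by omega), hN]
                simp
              rw [this]
              field_simp
      rw [h2, inv_pow]
      have h5 : Real.exp 1 ≤ 3 := by
        have := Real.exp_one_lt_d9
        linarith
      have h6 : 0 < (1 + 1 / (N - 1)) ^ (NN k - 1) := by positivity
      rw [one_div]
      exact inv_anti₀ h6 (h3.trans h5)
    have e2 : 1 / 9 ≤ (a ^ 2) ^ (NN k - 1) := by
      rw [← pow_mul, mul_comm, pow_mul]
      nlinarith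
    have e3 : 1 / (2 * N) ≤ b ^ 2 - a ^ 2 := by
      have : b ^ 2 - a ^ 2 = (b - a) * (b + a) := by ring
      rw [this]
      have h2 : b - a = 1 / (2 * N) := by rw [ha, hb, h2N]; ring
      rw [h2]
      have h3 : 1 ≤ b + a := by linarith
      have h4 : 0 < 1 / (2 * N) := by positivity
      nlinarith
    have e4 : (4 ^ k - 1) * Real.log 2 ≤ -Real.log (1 - a ^ 2) := by
      have h2 : 1 - a ^ 2 ≤ 2 / N := by
        rw [ha]
        have : 1 - (1 - 1 / N) ^ 2 = 2 * (1 / N) - (1 / N) ^ 2 := by ring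
        rw [this]
        have h3 : 2 / N = 2 * (1 / N) := by ring
        rw [h3]
        nlinarith [sq_nonneg (1 / N)]
      have ha1 : a < 1 := by linarith
      have h3 : 0 < 1 - a ^ 2 := by nlinarith
      have h4 : Real.log (1 - a ^ 2) ≤ Real.log (2 / N) := Real.log_le_log h3 h2
      have h5 : Real.log (2 / N) = Real.log 2 - 4 ^ k * Real.log 2 := by
        rw [Real.log_div (by norm_num) hNpos.ne', hN]
        congr 1
        unfold NN
        push_cast
        rw [Real.log_pow]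
        push_cast
        ring
      rw [h5] at h4
      linarith
    have hlog2 : 0.69 < Real.log 2 := by
      have := Real.log_two_gt_d9
      linarith
    have hpi := Real.pi_gt_three
    have h2k : (1:ℝ) ≤ 2 ^ k := one_le_pow₀ (by norm_num)
    have h4k : (4:ℝ) ^ k = 2 ^ k * 2 ^ k := by
      rw [← mul_pow]; norm_num
    -- assemble
    have f1 : 1 / (18 * 2 ^ k) * Real.pi ≤ bb k * (a ^ 2) ^ (NN k - 1) * (Real.pi * (b ^ 2 - a ^ 2)) := by
      have hbb : bb k = N / 2 ^ k := rfl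
      calc 1 / (18 * 2 ^ k) * Real.pi = (N / 2 ^ k) * (1 / 9) * (Real.pi * (1 / (2 * N))) := by
            field_simp
            norm_num
        _ ≤ bb k * (a ^ 2) ^ (NN k - 1) * (Real.pi * (b ^ 2 - a ^ 2)) := by
            rw [hbb]
            gcongr
    have f2 : Real.pi * ((4 ^ k - 1) * Real.log 2) ≤ Real.pi * (-Real.log (1 - a ^ 2)) := by
      gcongr
    have f3 : 0 ≤ Real.pi * ((4 ^ k - 1) * Real.log 2) := by
      have : (0:ℝ) ≤ 4 ^ k - 1 := by
        have := one_le_pow₀ (n := k) (show (1:ℝ) ≤ 4 by norm_num)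
        linarith
      positivity
    have f4 : 1 / (18 * 2 ^ k) * Real.pi * (Real.pi * ((4 ^ k - 1) * Real.log 2)) ≤ 64 * C := by
      refine le_trans ?_ h1
      apply mul_le_mul f1 f2 f3
      exact le_trans (by positivity) f1
    have f5 : 1 / (18 * 2 ^ k) * Real.pi * (Real.pi * ((4 ^ k - 1) * Real.log 2))
        = (Real.pi * Real.pi * Real.log 2 / 18) * (2 ^ k - 1 / 2 ^ k) := by
      rw [h4k]
      field_simp
    have f6 : 1 / (2:ℝ) ^ k ≤ 1 := by
      rw [div_le_one (by positivity)]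
      exact h2k
    have f7 : (1:ℝ) / 3 ≤ Real.pi * Real.pi * Real.log 2 / 18 := by
      have : 9 ≤ Real.pi * Real.pi := by nlinarith
      nlinarith
    rw [f5] at f4
    have f8 : (1:ℝ) / 3 * (2 ^ k - 1) ≤ (Real.pi * Real.pi * Real.log 2 / 18) * (2 ^ k - 1 / 2 ^ k) := by
      apply mul_le_mul f7 (by linarith) (by linarith) (by positivity)
    have hC0 : (0:ℝ) ≤ C := C.2
    have f9 := f8.trans f4
    linarith only [f9, hk, hC0]

end Pool.Agent.H55
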