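import Mathlib

set_option autoImplicit false

namespace Pool.Agent.H55

/-- total depth `a_j` -/
def ad : ℕ → ℤ
  | 0 => 0
  | (j + 1) => 6 * ad j + 2

/-- the lacunary times `M j = N_{j+1}` -/
def Md (j : ℕ) : ℤ := 5 * ad j + 2

/-- the level boundaries -/
def Bd (j : ℕ) : ℤ := 2 * ad j + 1

lemma ad_zero : ad 0 = 0 := rfl

lemma ad_succ (j : ℕ) : ad (j + 1) = 6 * ad j + 2 := rfl

lemma ad_succ' (j : ℕ) : ad (j + 1) = ad j + Md j := by
  rw [ad_succ, Md]; ring

lemma ad_ge (j : ℕ) : (j : ℤ) ≤ ad j := by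
  induction j with
  | zero => simp [ad_zero]
  | succ j ih => rw [ad_succ]; push_cast; omega

lemma ad_nonneg (j : ℕ) : 0 ≤ ad j := le_trans (by positivity) (ad_ge j)

lemma ad_mono : Monotone ad := by
  apply monotone_nat_of_le_succ
  intro j
  rw [ad_succ]
  have := ad_nonneg j
  omega

lemma Bd_mono : Monotone Bd := by
  intro i j h
  unfold Bd
  have := ad_mono h
  omega

lemma Bd_strictMono : StrictMono Bd := by
  apply strictMono_nat_of_lt_succ
  intro j
  unfold Bd
  rw [ad_succ]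
  have := ad_nonneg j
  omega

lemma Md_strictMono : StrictMono Md := by
  apply strictMono_nat_of_lt_succ
  intro j
  unfold Md
  rw [ad_succ]
  have := ad_nonneg j
  omega

lemma Md_pos (j : ℕ) : 0 < Md j := by
  unfold Md
  have := ad_nonneg j
  omega

lemma exists_lt_Bd (k : ℕ) : ∃ J : ℕ, (k : ℤ) < Bd J := by
  refine ⟨k, ?_⟩
  unfold Bd
  have := ad_ge k
  have := ad_nonneg k
  omega

/-- the level of a clock time -/
noncomputable def lev (k : ℕ) : ℕ := Nat.find (exists_lt_Bd k)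

lemma lt_Bd_lev (k : ℕ) : (k : ℤ) < Bd (lev k) := Nat.find_spec (exists_lt_Bd k)

lemma lev_le {k J : ℕ} (h : (k : ℤ) < Bd J) : lev k ≤ J := Nat.find_min' _ h

lemma Bd_le_of_lt_lev {k J : ℕ} (h : J < lev k) : Bd J ≤ k := by
  by_contra hc
  push Not at hc
  exact absurd (lev_le hc) (not_le.mpr h)

lemma lev_eq_succ {k L : ℕ} (h1 : Bd L ≤ k) (h2 : (k : ℤ) < Bd (L + 1)) : lev k = L + 1 := by
  apply le_antisymm (lev_le h2)
  by_contra hc
  push Not at hc
  have h3 := Bd_mono (Nat.lt_succ_iff.mp hc)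
  have h4 := lt_Bd_lev k
  omega

lemma lev_mono : Monotone lev := by
  intro a b h
  apply lev_le
  have := lt_Bd_lev b
  have : (a : ℤ) ≤ b := by exact_mod_cast h
  omega

end Pool.Agent.H55
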