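import Mathlib
import Pool.Agent.H55.Sim1

set_option autoImplicit false

namespace Pool.Agent.H55

open scoped InnerProductSpace

/-- A Riesz product system. -/
structure RSys (K : Type) [NormedAddCommGroup K] [InnerProductSpace ℂ K] [CompleteSpace K]
    (c s : ℝ) where
  V : K →L[ℂ] K
  E : ℕ → ℤ → K
  hV : V ∈ unitary (K →L[ℂ] K)
  hcs : c ^ 2 + s ^ 2 = 1
  hs : 0 < s
  hc : 0 < c
  shift : ∀ J k, V (E J k) = E J (k + 1)
  r1 : ∀ J k, E J k = (c : ℂ) • E (J + 1) k + (s : ℂ) • E (J + 1) (k - Md J)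
  r2 : ∀ J k l, |k - l| < Md J → ⟪E J k, E J l⟫_ℂ = if k = l then 1 else 0
  r3 : (Submodule.span ℂ (Set.range (E 0))).topologicalClosure = ⊤

namespace RSys

variable {K : Type} [NormedAddCommGroup K] [InnerProductSpace ℂ K] [CompleteSpace K]
  {c s : ℝ} (R : RSys K c s)

/-- windows -/
def Win (J : ℕ) (p q : ℤ) : Submodule ℂ K := Submodule.span ℂ {x | ∃ l : ℤ, p ≤ l ∧ l < q ∧ R.E J l = x}

lemma mem_Win {J : ℕ} {p q l : ℤ} (h1 : p ≤ l) (h2 : l < q) : R.E J l ∈ R.Win J p q :=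
  Submodule.subset_span ⟨l, h1, h2, rfl⟩

lemma Win_mono {J : ℕ} {p q p' q' : ℤ} (h1 : p' ≤ p) (h2 : q ≤ q') : R.Win J p q ≤ R.Win J p' q' := by
  apply Submodule.span_mono
  rintro x ⟨l, hl1, hl2, rfl⟩
  exact ⟨l, by omega, by omega, rfl⟩

lemma Win_succ (J : ℕ) (p q : ℤ) : R.Win J p q ≤ R.Win (J + 1) (p - Md J) q := by
  apply Submodule.span_le.mpr
  rintro x ⟨l, hl1, hl2, rfl⟩
  rw [R.r1 J l]
  have := Md_pos J
  refine Submodule.add_mem _ (Submodule.smul_mem _ _ (R.mem_Win ?_ ?_))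
    (Submodule.smul_mem _ _ (R.mem_Win ?_ ?_)) <;> omega

lemma Win_le {J L : ℕ} (h : J ≤ L) (p q : ℤ) :
    R.Win J p q ≤ R.Win L (p - (ad L - ad J)) q := by
  induction L, h using Nat.le_induction with
  | base => exact R.Win_mono (by omega) le_rfl
  | succ L hL ih =>
    refine ih.trans ((R.Win_succ L _ q).trans (R.Win_mono ?_ le_rfl))
    rw [ad_succ']
    omega

lemma E_mem_Win {J L : ℕ} (h : J ≤ L) (k : ℤ) :
    R.E J k ∈ R.Win L (k - (ad L - ad J)) (k + 1) :=
  R.Win_le h k (k + 1) (R.mem_Win le_rfl (by omega))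

lemma orth_Win {L : ℕ} {p q p' q' : ℤ} (h1 : q ≤ p') (h2 : q' - p ≤ Md L) {x y : K}
    (hx : x ∈ R.Win L p q) (hy : y ∈ R.Win L p' q') : ⟪x, y⟫_ℂ = 0 := by
  induction hx using Submodule.span_induction with
  | mem x hx =>
    obtain ⟨k, hk1, hk2, rfl⟩ := hx
    induction hy using Submodule.span_induction with
    | mem y hy =>
      obtain ⟨l, hl1, hl2, rfl⟩ := hy
      rw [R.r2 L k l (by rw [abs_lt]; constructor <;> omega), if_neg (by omega)]
    | zero => simp
    | add a b _ _ ha hb => rw [inner_add_right, ha, hb, add_zero]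
    | smul a x _ hx => rw [inner_smul_right, hx, mul_zero]
  | zero => simp
  | add a b _ _ ha hb => rw [inner_add_left, ha, hb, add_zero]
  | smul a x _ hx => rw [inner_smul_left, hx, mul_zero]

lemma orth_Win' {L : ℕ} {p q p' q' : ℤ} (h1 : q ≤ p') (h2 : q' - p ≤ Md L) {x y : K}
    (hx : x ∈ R.Win L p q) (hy : y ∈ R.Win L p' q') : ⟪y, x⟫_ℂ = 0 := by
  rw [← inner_conj_symm, R.orth_Win h1 h2 hx hy, map_zero]

/-- the orthonormal system spanning the future space -/
noncomputable def phi (k : ℕ) : K := R.E (lev k) k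

lemma E_norm (J : ℕ) (k : ℤ) : ⟪R.E J k, R.E J k⟫_ℂ = 1 := by
  rw [R.r2 J k k (by simpa using Md_pos J), if_pos rfl]

lemma norm_E (J : ℕ) (k : ℤ) : ‖R.E J k‖ = 1 := by
  have h := R.E_norm J k
  have h2 := inner_self_eq_norm_sq (𝕜 := ℂ) (R.E J k)
  rw [h] at h2
  rw [RCLike.one_re] at h2
  nlinarith [norm_nonneg (R.E J k)]

lemma phi_orthonormal : Orthonormal ℂ R.phi := by
  rw [orthonormal_iff_ite]
  have key : ∀ k l : ℕ, k < l → ⟪R.phi k, R.phi l⟫_ℂ = 0 := by
    intro k l hkl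
    have hlev := lev_mono hkl.le
    have h1 := R.E_mem_Win hlev (k : ℤ)
    have h2 := R.mem_Win (J := lev l) (p := (l : ℤ)) (q := l + 1) (l := (l:ℤ)) le_rfl (by omega)
    have h3 := lt_Bd_lev l
    have h4 := ad_nonneg (lev l)
    have h5 := ad_nonneg (lev k)
    have hkl' : (k : ℤ) < l := by exact_mod_cast hkl
    refine R.orth_Win ?_ ?_ h1 h2
    · omega
    · unfold Md
      unfold Bd at h3
      omega
  intro k l
  rcases lt_trichotomy k l with h | h | h
  · rw [key k l h, if_neg h.ne]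
  · rw [h, if_pos rfl]
    exact R.E_norm _ _
  · rw [← inner_conj_symm, key l k h, map_zero, if_neg h.ne']

/-- future space -/
noncomputable def F : Submodule ℂ K := (Submodule.span ℂ (Set.range R.phi)).topologicalClosure

instance : CompleteSpace R.F := (Submodule.isClosed_topologicalClosure _).completeSpace_coe

lemma phi_mem_F (k : ℕ) : R.phi k ∈ R.F :=
  Submodule.le_topologicalClosure _ (Submodule.subset_span ⟨k, rfl⟩)

/-- `E L m` lies in the future space if `m` belongs to the level `L` window -/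
lemma E_zero_mem_F {m : ℤ} (h0 : 0 ≤ m) (h : m < Bd 0) : R.E 0 m ∈ R.F := by
  obtain ⟨k, rfl⟩ := Int.eq_ofNat_of_zero_le h0
  have h1 : lev k = 0 := Nat.le_zero.mp (lev_le h)
  have := R.phi_mem_F k
  unfold phi at this
  rwa [h1] at this

lemma E_succ_mem_F {L : ℕ} {m : ℤ} (h0 : Bd L ≤ m) (h : m < Bd (L + 1)) : R.E (L + 1) m ∈ R.F := by
  have hB : 0 ≤ Bd L := by
    have := ad_nonneg L
    unfold Bd; omega
  obtain ⟨k, rfl⟩ := Int.eq_ofNat_of_zero_le (hB.trans h0)
  have h1 : lev k = L + 1 := lev_eq_succ h0 h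
  have := R.phi_mem_F k
  unfold phi at this
  rwa [h1] at this

/-- `E L m` lies in the future space for `Bd L - ad L ≤ m < Bd L` -/
lemma E_mem_F' {L : ℕ} {m : ℤ} (h0 : Bd L - ad L ≤ m) (h : m < Bd L) : R.E L m ∈ R.F := by
  cases L with
  | zero =>
    apply R.E_zero_mem_F _ h
    rw [ad_zero] at h0
    unfold Bd at h0
    rw [ad_zero] at h0
    omega
  | succ L =>
    apply R.E_succ_mem_F _ h
    have := ad_nonneg L
    unfold Bd at *
    rw [ad_succ] at h0
    omega

/-- the leak vectors -/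
def leak (L : ℕ) (m : ℤ) : K := R.E (L + 1) (m - Md L)

lemma norm_leak (L : ℕ) (m : ℤ) : ‖R.leak L m‖ = 1 := R.norm_E _ _

lemma leak_same (L : ℕ) {m m' : ℤ} (h : |m - m'| < Md (L + 1)) :
    ⟪R.leak L m, R.leak L m'⟫_ℂ = if m = m' then 1 else 0 := by
  unfold leak
  rw [R.r2 (L + 1) _ _ (by rw [show m - Md L - (m' - Md L) = m - m' by ring]; exact h)]
  by_cases hm : m = m'
  · rw [if_pos hm, if_pos (by omega)]
  · rw [if_neg hm, if_neg (by omega)]

/-- leaks of level `L'` are orthogonal to the window of level `L'` -/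
lemma leak_orth_Win {L : ℕ} {m : ℤ} (h1 : Bd L ≤ m) (h2 : m < 2 * Bd L) {x : K}
    (hx : x ∈ R.Win L (-ad L) (Bd L)) : ⟪x, R.leak L m⟫_ℂ = 0 := by
  induction hx using Submodule.span_induction with
  | mem x hx =>
    obtain ⟨l, hl1, hl2, rfl⟩ := hx
    rw [R.r1 L l]
    unfold leak
    have ha := ad_nonneg L
    have hM : Md (L + 1) = 30 * ad L + 12 := by unfold Md; rw [ad_succ]; ring
    have hM' : Md L = 5 * ad L + 2 := rfl
    unfold Bd at *
    rw [inner_add_left, inner_smul_left, inner_smul_left,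
      R.r2 (L + 1) l (m - Md L) (by rw [abs_lt]; constructor <;> omega),
      R.r2 (L + 1) (l - Md L) (m - Md L) (by rw [abs_lt]; constructor <;> omega),
      if_neg (by omega), if_neg (by omega)]
    simp
  | zero => simp
  | add a b _ _ ha hb => rw [inner_add_left, ha, hb, add_zero]
  | smul a x _ hx => rw [inner_smul_left, hx, mul_zero]

lemma leak_mem_Win {L L' : ℕ} (h : L < L') {m : ℤ} (h1 : Bd L ≤ m) (h2 : m < 2 * Bd L) :
    R.leak L m ∈ R.Win L' (-ad L') (Bd L') := by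
  have h3 := R.E_mem_Win (show L + 1 ≤ L' from h) (m - Md L)
  have h4 := ad_mono (show L + 1 ≤ L' from h)
  have h5 := ad_nonneg L
  refine R.Win_mono ?_ ?_ h3
  · have := ad_succ L
    unfold Bd Md at *
    omega
  · unfold Bd Md at *
    have := ad_nonneg L'
    omega

lemma leak_diff {L L' : ℕ} (h : L < L') {m m' : ℤ} (h1 : Bd L ≤ m) (h2 : m < 2 * Bd L)
    (h1' : Bd L' ≤ m') (h2' : m' < 2 * Bd L') : ⟪R.leak L m, R.leak L' m'⟫_ℂ = 0 :=
  R.leak_orth_Win h1' h2' (R.leak_mem_Win h h1 h2)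

/-- the family of leaks is orthonormal -/
lemma leak_orthonormal :
    Orthonormal ℂ (fun p : {p : ℕ × ℤ // Bd p.1 ≤ p.2 ∧ p.2 < 2 * Bd p.1} => R.leak p.1.1 p.1.2) := by
  rw [orthonormal_iff_ite]
  rintro ⟨⟨L, m⟩, h1, h2⟩ ⟨⟨L', m'⟩, h1', h2'⟩
  simp only at h1 h2 h1' h2' ⊢
  rcases lt_trichotomy L L' with h | h | h
  · rw [R.leak_diff h h1 h2 h1' h2', if_neg]
    intro heq
    have := congrArg (fun p : {p : ℕ × ℤ // Bd p.1 ≤ p.2 ∧ p.2 < 2 * Bd p.1} => p.1.1) heq
    simp only at this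
    omega
  · subst h
    rw [R.leak_same L]
    · by_cases hm : m = m'
      · subst hm
        simp
      · rw [if_neg hm, if_neg]
        intro heq
        have := congrArg (fun p : {p : ℕ × ℤ // Bd p.1 ≤ p.2 ∧ p.2 < 2 * Bd p.1} => p.1.2) heq
        exact hm this
    · have ha := ad_nonneg L
      have hM : Md (L + 1) = 30 * ad L + 12 := by unfold Md; rw [ad_succ]; ring
      unfold Bd at *
      rw [abs_lt]
      constructor <;> omega
  · rw [← inner_conj_symm, R.leak_diff h h1' h2' h1 h2, map_zero, if_neg]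
    intro heq
    have := congrArg (fun p : {p : ℕ × ℤ // Bd p.1 ≤ p.2 ∧ p.2 < 2 * Bd p.1} => p.1.1) heq
    simp only at this
    omega

/-- the family of leaks of one fixed level (long range) is orthonormal -/
lemma leak_orthonormal_fixed (L : ℕ) :
    Orthonormal ℂ (fun m : {m : ℤ // Bd L ≤ m ∧ m < Bd (L + 1)} => R.leak L m.1) := by
  rw [orthonormal_iff_ite]
  rintro ⟨m, h1, h2⟩ ⟨m', h1', h2'⟩
  rw [R.leak_same L]
  · simp only [Subtype.mk.injEq]
  · have ha := ad_nonneg L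
    have hM : Md (L + 1) = 30 * ad L + 12 := by unfold Md; rw [ad_succ]; ring
    have := ad_succ L
    unfold Bd at *
    simp only
    rw [abs_lt]
    constructor <;> omega

end RSys

end Pool.Agent.H55
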