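import Mathlib
import Pool.Agent.H55.Sim2

set_option autoImplicit false

namespace Pool.Agent.H55

open scoped InnerProductSpace

/-- Bessel's inequality for families orthonormal on a finite set of indices -/
lemma bessel_finset {K : Type*} [NormedAddCommGroup K] [InnerProductSpace ℂ K] {ι : Type*}
    [DecidableEq ι] (v : ι → K) (S : Finset ι)
    (hv : ∀ p ∈ S, ∀ q ∈ S, ⟪v p, v q⟫_ℂ = if p = q then 1 else 0) (x : K) :
    ∑ p ∈ S, ‖⟪v p, x⟫_ℂ‖ ^ 2 ≤ ‖x‖ ^ 2 := by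
  have h1 : Orthonormal ℂ (fun p : S => v p) := by
    rw [orthonormal_iff_ite]
    intro p q
    rw [hv p p.2 q q.2]
    by_cases h : p = q
    · rw [if_pos h, if_pos (congrArg _ h)]
    · rw [if_neg h, if_neg (fun hc => h (Subtype.ext hc))]
  have h2 := h1.sum_inner_products_le x (s := Finset.univ)
  rw [← Finset.sum_coe_sort S]
  exact h2

namespace RSys

variable {K : Type} [NormedAddCommGroup K] [InnerProductSpace ℂ K] [CompleteSpace K]
  {c s : ℝ} (R : RSys K c s)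

lemma V_pow_E (n : ℕ) (J : ℕ) (k : ℤ) : (R.V ^ n) (R.E J k) = R.E J (k + n) := by
  induction n with
  | zero => simp
  | succ n ih =>
    rw [pow_succ', mul_apply_eq_comp, ih, R.shift]
    congr 1
    push_cast
    ring

/-- the modified vector -/
noncomputable def xmod (L n : ℕ) (x : K) : K :=
  ∑ l ∈ Finset.Ico (-ad L) (Bd L),
    (if Bd L ≤ l + n ∧ l + n < Bd (L + 1) then ⟪R.leak L (l + n), x⟫_ℂ else 0) • R.E L l

lemma inner_E_xmod (L n : ℕ) (x : K) {l : ℤ} (h1 : -ad L ≤ l) (h2 : l < Bd L) :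
    ⟪R.E L l, R.xmod L n x⟫_ℂ =
      if Bd L ≤ l + n ∧ l + n < Bd (L + 1) then ⟪R.leak L (l + n), x⟫_ℂ else 0 := by
  unfold xmod
  rw [inner_sum]
  rw [Finset.sum_eq_single l]
  · rw [inner_smul_right, R.r2 L l l (by simpa using Md_pos L), if_pos rfl, mul_one]
  · intro l' hl' hne
    rw [Finset.mem_Ico] at hl'
    have ha := ad_nonneg L
    rw [inner_smul_right, R.r2 L l l', if_neg (Ne.symm hne), mul_zero]
    unfold Bd Md at *
    rw [abs_lt]
    constructor <;> omega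
  · intro h
    exact absurd (Finset.mem_Ico.mpr ⟨h1, h2⟩) h

lemma norm_xmod (L n : ℕ) (x : K) : ‖R.xmod L n x‖ ^ 2 =
    ∑ l ∈ Finset.Ico (-ad L) (Bd L),
      (if Bd L ≤ l + n ∧ l + n < Bd (L + 1) then ‖⟪R.leak L (l + n), x⟫_ℂ‖ ^ 2 else 0) := by
  have h1 : ((‖R.xmod L n x‖ ^ 2 : ℝ) : ℂ) = ⟪R.xmod L n x, R.xmod L n x⟫_ℂ := by
    rw [inner_self_eq_norm_sq_to_K]
    push_cast
    rfl
  have h2 : ⟪R.xmod L n x, R.xmod L n x⟫_ℂ = ∑ l ∈ Finset.Ico (-ad L) (Bd L),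
      (((if Bd L ≤ l + n ∧ l + n < Bd (L + 1) then ‖⟪R.leak L (l + n), x⟫_ℂ‖ ^ 2 else 0 : ℝ)) : ℂ) := by
    nth_rewrite 1 [xmod]
    rw [sum_inner]
    refine Finset.sum_congr rfl fun l hl => ?_
    rw [Finset.mem_Ico] at hl
    rw [inner_smul_left, R.inner_E_xmod L n x hl.1 hl.2]
    split_ifs with h
    · rw [mul_comm, Complex.mul_conj, Complex.normSq_eq_norm_sq]
    · simp
  rw [h2] at h1
  exact_mod_cast h1

/-- the key identity -/
lemma key_identity {L n k : ℕ} {x : K} (hx : x ∈ R.Fᗮ) (h1 : (k : ℤ) < Bd L)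
    (h2 : Bd L ≤ (k : ℤ) + n) (h3 : (k : ℤ) + n < Bd (L + 1)) :
    ⟪(R.V ^ n) (R.phi k), x⟫_ℂ = s * ⟪R.phi k, R.xmod L n x⟫_ℂ := by
  have ha := ad_nonneg L
  have hF : ∀ w ∈ R.F, ⟪w, x⟫_ℂ = 0 := fun w hw => (Submodule.mem_orthogonal _ _).mp hx w hw
  have key : ∀ w ∈ R.Win L ((k : ℤ) - ad L) (k + 1),
      ⟪(R.V ^ n) w, x⟫_ℂ = s * ⟪w, R.xmod L n x⟫_ℂ := by
    intro w hw
    induction hw using Submodule.span_induction with
    | mem w hw =>
      obtain ⟨l, hl1, hl2, rfl⟩ := hw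
      rw [R.V_pow_E, R.inner_E_xmod L n x (by omega) (by omega)]
      by_cases hc : l + n < Bd L
      · rw [hF _ (R.E_mem_F' (by omega) hc), if_neg (by omega), mul_zero]
      · rw [if_pos ⟨by omega, by omega⟩, R.r1 L, inner_add_left, inner_smul_left, inner_smul_left,
          hF _ (R.E_succ_mem_F (by omega) (by omega)), mul_zero, zero_add, Complex.conj_ofReal]
        rfl
    | zero => simp
    | add a b _ _ ha hb => rw [map_add, inner_add_left, ha, hb, inner_add_left, mul_add]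
    | smul a w _ hw => rw [map_smul, inner_smul_left, hw, inner_smul_left]; ring
  apply key
  have h4 : lev k ≤ L := lev_le h1
  have h5 := R.E_mem_Win h4 (k : ℤ)
  have h6 := ad_nonneg (lev k)
  exact R.Win_mono (by omega) le_rfl h5

/-- per level estimate -/
lemma level_estimate {L n : ℕ} {x : K} (hx : x ∈ R.Fᗮ) (Z : Finset ℕ)
    (hZ : ∀ k ∈ Z, (k : ℤ) < Bd L ∧ Bd L ≤ (k : ℤ) + n ∧ (k : ℤ) + n < Bd (L + 1)) :
    ∑ k ∈ Z, ‖⟪(R.V ^ n) (R.phi k), x⟫_ℂ‖ ^ 2 ≤ s ^ 2 * ∑ l ∈ Finset.Ico (-ad L) (Bd L),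
      (if Bd L ≤ l + n ∧ l + n < Bd (L + 1) then ‖⟪R.leak L (l + n), x⟫_ℂ‖ ^ 2 else 0) := by
  calc ∑ k ∈ Z, ‖⟪(R.V ^ n) (R.phi k), x⟫_ℂ‖ ^ 2
      = s ^ 2 * ∑ k ∈ Z, ‖⟪R.phi k, R.xmod L n x⟫_ℂ‖ ^ 2 := by
        rw [Finset.mul_sum]
        refine Finset.sum_congr rfl fun k hk => ?_
        obtain ⟨h1, h2, h3⟩ := hZ k hk
        rw [R.key_identity hx h1 h2 h3, norm_mul, mul_pow, Complex.norm_real, Real.norm_eq_abs,
          sq_abs]
    _ ≤ s ^ 2 * ‖R.xmod L n x‖ ^ 2 := by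
        gcongr
        exact R.phi_orthonormal.sum_inner_products_le _
    _ = _ := by rw [R.norm_xmod]

/-- the level quantity is at most the squared norm -/
lemma G_le (L n : ℕ) (x : K) : ∑ l ∈ Finset.Ico (-ad L) (Bd L),
      (if Bd L ≤ l + n ∧ l + n < Bd (L + 1) then ‖⟪R.leak L (l + n), x⟫_ℂ‖ ^ 2 else 0) ≤ ‖x‖ ^ 2 := by
  rw [← Finset.sum_filter]
  apply bessel_finset (fun l : ℤ => R.leak L (l + n))
  intro p hp q hq
  rw [Finset.mem_filter, Finset.mem_Ico] at hp hq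
  have ha := ad_nonneg L
  have hM : Md (L + 1) = 30 * ad L + 12 := by unfold Md; rw [ad_succ]; ring
  rw [R.leak_same L]
  · by_cases h : p = q
    · rw [if_pos h, if_pos (by omega)]
    · rw [if_neg h, if_neg (by omega)]
  · unfold Bd at *
    rw [abs_lt]
    constructor <;> omega

/-- sum over many levels -/
lemma G_sum_le (n : ℕ) (x : K) (T : Finset ℕ) (hT : ∀ L ∈ T, (n : ℤ) ≤ Bd L) :
    ∑ L ∈ T, ∑ l ∈ Finset.Ico (-ad L) (Bd L),
      (if Bd L ≤ l + n ∧ l + n < Bd (L + 1) then ‖⟪R.leak L (l + n), x⟫_ℂ‖ ^ 2 else 0) ≤ ‖x‖ ^ 2 := by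
  simp_rw [← Finset.sum_filter]
  rw [Finset.sum_sigma']
  apply bessel_finset (fun p : (_ : ℕ) × ℤ => R.leak p.1 (p.2 + n))
  rintro ⟨L, l⟩ hp ⟨L', l'⟩ hq
  rw [Finset.mem_sigma, Finset.mem_filter, Finset.mem_Ico] at hp hq
  simp only at hp hq ⊢
  have hn := hT L hp.1
  have hn' := hT L' hq.1
  rcases lt_trichotomy L L' with h | h | h
  · rw [R.leak_diff h (by omega) (by omega) (by omega) (by omega), if_neg]
    intro heq
    have := congrArg (fun p : (_ : ℕ) × ℤ => p.1) heq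
    simp only at this
    omega
  · subst h
    have ha := ad_nonneg L
    have hM : Md (L + 1) = 30 * ad L + 12 := by unfold Md; rw [ad_succ]; ring
    rw [R.leak_same L]
    · by_cases hm : l = l'
      · subst hm
        simp
      · rw [if_neg (by omega), if_neg]
        intro heq
        simp only [Sigma.mk.injEq, heq_eq_eq, true_and] at heq
        exact hm heq
    · unfold Bd at *
      rw [abs_lt]
      constructor <;> omega
  · rw [← inner_conj_symm, R.leak_diff h (by omega) (by omega) (by omega) (by omega), map_zero,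
      if_neg]
    intro heq
    have := congrArg (fun p : (_ : ℕ) × ℤ => p.1) heq
    simp only at this
    omega

/-- the main square sum estimate -/
lemma main_sq {n : ℕ} {x : K} (hx : x ∈ R.Fᗮ) (S : Finset ℕ) :
    ∑ k ∈ S, ‖⟪(R.V ^ n) (R.phi k), x⟫_ℂ‖ ^ 2 ≤ 2 * s ^ 2 * ‖x‖ ^ 2 := by
  classical
  have hF : ∀ w ∈ R.F, ⟪w, x⟫_ℂ = 0 := fun w hw => (Submodule.mem_orthogonal _ _).mp hx w hw
  -- restrict to those k which change level
  have h1 : ∑ k ∈ S, ‖⟪(R.V ^ n) (R.phi k), x⟫_ℂ‖ ^ 2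
      = ∑ k ∈ S.filter (fun k => lev k < lev (k + n)), ‖⟪(R.V ^ n) (R.phi k), x⟫_ℂ‖ ^ 2 := by
    rw [Finset.sum_filter]
    refine Finset.sum_congr rfl fun k _ => ?_
    split_ifs with h
    · rfl
    · have h2 : lev (k + n) = lev k := le_antisymm (not_lt.mp h) (lev_mono (by omega))
      have h3 : (R.V ^ n) (R.phi k) = R.phi (k + n) := by
        unfold phi
        rw [R.V_pow_E, h2]
        push_cast
        rfl
      rw [h3, hF _ (R.phi_mem_F _)]
      simp
  rw [h1]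
  set S' := S.filter (fun k => lev k < lev (k + n)) with hS'
  set T := S'.image (fun k => lev (k + n) - 1) with hT
  have hmem : ∀ k ∈ S', lev (k + n) = (lev (k + n) - 1) + 1 ∧ lev k ≤ lev (k + n) - 1 := by
    intro k hk
    have := (Finset.mem_filter.mp hk).2
    omega
  rw [← Finset.sum_fiberwise_of_maps_to (s := S') (t := T) (g := fun k => lev (k + n) - 1)
    (fun k hk => Finset.mem_image_of_mem _ hk)]
  set G : ℕ → ℝ := fun L => ∑ l ∈ Finset.Ico (-ad L) (Bd L),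
      (if Bd L ≤ l + n ∧ l + n < Bd (L + 1) then ‖⟪R.leak L (l + n), x⟫_ℂ‖ ^ 2 else 0) with hG
  have hG0 : ∀ L, 0 ≤ G L := by
    intro L
    apply Finset.sum_nonneg
    intro l _
    split_ifs <;> positivity
  have h2 : ∀ L ∈ T, ∑ k ∈ S'.filter (fun k => lev (k + n) - 1 = L),
      ‖⟪(R.V ^ n) (R.phi k), x⟫_ℂ‖ ^ 2 ≤ s ^ 2 * G L := by
    intro L _
    apply R.level_estimate hx
    intro k hk
    rw [Finset.mem_filter] at hk
    obtain ⟨h3, h4⟩ := hmem k hk.1
    rw [hk.2] at h3 h4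
    have h5 := lt_Bd_lev k
    have h6 := Bd_mono h4
    have h7 := lt_Bd_lev (k + n)
    rw [h3] at h7
    have h8 : Bd L ≤ ((k + n : ℕ) : ℤ) := Bd_le_of_lt_lev (by omega)
    push_cast at h7 h8
    exact ⟨by omega, h8, h7⟩
  calc ∑ L ∈ T, ∑ k ∈ S'.filter (fun k => lev (k + n) - 1 = L), ‖⟪(R.V ^ n) (R.phi k), x⟫_ℂ‖ ^ 2
      ≤ ∑ L ∈ T, s ^ 2 * G L := Finset.sum_le_sum h2
    _ = s ^ 2 * ∑ L ∈ T, G L := by rw [Finset.mul_sum]
    _ ≤ s ^ 2 * (2 * ‖x‖ ^ 2) := by
        gcongr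
        by_cases hTe : T.Nonempty
        · set L0 := T.min' hTe with hL0
          rw [← Finset.add_sum_erase T G (T.min'_mem hTe)]
          have h3 : G L0 ≤ ‖x‖ ^ 2 := R.G_le L0 n x
          have h4 : ∑ L ∈ T.erase L0, G L ≤ ‖x‖ ^ 2 := by
            apply R.G_sum_le
            intro L hL
            have hL1 : L ≠ L0 := Finset.ne_of_mem_erase hL
            have hL2 : L ∈ T := Finset.mem_of_mem_erase hL
            have hL3 : L0 ≤ L := T.min'_le L hL2
            have hL4 : L0 + 1 ≤ L := by omega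
            obtain ⟨k, hk, hk2⟩ := Finset.mem_image.mp (T.min'_mem hTe)
            have h5 := (hmem k hk).1
            rw [hk2] at h5
            have h6 := lt_Bd_lev (k + n)
            rw [h5] at h6
            have h7 := Bd_mono hL4
            rw [← hL0] at h6
            push_cast at h6
            omega
          linarith
        · rw [Finset.not_nonempty_iff_eq_empty] at hTe
          rw [hTe, Finset.sum_empty]
          positivity
    _ = 2 * s ^ 2 * ‖x‖ ^ 2 := by ring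

end RSys

end Pool.Agent.H55
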