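import Pool.Agent.H55.Sim3

set_option autoImplicit false

namespace Pool.Agent.H55

open scoped InnerProductSpace
open Filter Topology

namespace RSys

variable {K : Type} [NormedAddCommGroup K] [InnerProductSpace ℂ K] [CompleteSpace K]
  {c s : ℝ} (R : RSys K c s)

include R in
lemma s_lt_one : s < 1 := by
  have h1 := R.hcs
  have h2 := R.hs
  have h3 := R.hc
  nlinarith

include R in
lemma c_lt_one : c < 1 := by
  have h1 := R.hcs
  have h2 := R.hs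
  have h3 := R.hc
  nlinarith

lemma norm_V (x : K) : ‖R.V x‖ = ‖x‖ := by
  have h1 : (ContinuousLinearMap.adjoint R.V) * R.V = 1 := (Unitary.mem_iff.mp R.hV).1
  have h2 : ⟪R.V x, R.V x⟫_ℂ = ⟪x, x⟫_ℂ := by
    rw [← ContinuousLinearMap.adjoint_inner_left, ← mul_apply_eq_comp, h1]
    rfl
  have h3 := inner_self_eq_norm_sq (𝕜 := ℂ) (R.V x)
  have h4 := inner_self_eq_norm_sq (𝕜 := ℂ) x
  rw [h2, h4] at h3
  have h5 : ‖x‖ ^ 2 = ‖R.V x‖ ^ 2 := h3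
  nlinarith [norm_nonneg x, norm_nonneg (R.V x)]

lemma norm_V_pow (n : ℕ) (x : K) : ‖(R.V ^ n) x‖ = ‖x‖ := by
  induction n with
  | zero => simp
  | succ n ih => rw [pow_succ', mul_apply_eq_comp, R.norm_V, ih]

lemma inner_V_pow (n : ℕ) (x y : K) : ⟪(R.V ^ n) x, (R.V ^ n) y⟫_ℂ = ⟪x, y⟫_ℂ := by
  have h1 : (ContinuousLinearMap.adjoint R.V) * R.V = 1 := (Unitary.mem_iff.mp R.hV).1
  have h2 : ∀ x y : K, ⟪R.V x, R.V y⟫_ℂ = ⟪x, y⟫_ℂ := by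
    intro x y
    rw [← ContinuousLinearMap.adjoint_inner_left, ← mul_apply_eq_comp, h1]
    rfl
  induction n with
  | zero => simp
  | succ n ih => rw [pow_succ', mul_apply_eq_comp, mul_apply_eq_comp, h2, ih]

/-- the operator estimate -/
lemma inner_le {n : ℕ} {x f : K} (hx : x ∈ R.Fᗮ) (hf : f ∈ R.F) :
    ‖⟪(R.V ^ n) f, x⟫_ℂ‖ ≤ Real.sqrt 2 * s * ‖f‖ * ‖x‖ := by
  have hs := R.hs
  have hclosed : IsClosed {f : K | ‖⟪(R.V ^ n) f, x⟫_ℂ‖ ≤ Real.sqrt 2 * s * ‖f‖ * ‖x‖} := by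
    apply isClosed_le
    · exact (((R.V ^ n).continuous).inner continuous_const).norm
    · exact (continuous_const.mul continuous_norm).mul continuous_const
  have hsub : (Submodule.span ℂ (Set.range R.phi) : Set K) ⊆
      {f : K | ‖⟪(R.V ^ n) f, x⟫_ℂ‖ ≤ Real.sqrt 2 * s * ‖f‖ * ‖x‖} := by
    intro f hf
    obtain ⟨a, rfl⟩ := Finsupp.mem_span_range_iff_exists_finsupp.mp hf
    show ‖⟪(R.V ^ n) (a.sum fun i b => b • R.phi i), x⟫_ℂ‖ ≤ _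
    have hn : ‖a.sum fun i b => b • R.phi i‖ ^ 2 = ∑ i ∈ a.support, ‖a i‖ ^ 2 := by
      unfold Finsupp.sum
      have h1 := R.phi_orthonormal.inner_sum (fun i => a i) (fun i => a i) a.support
      have h3 := inner_self_eq_norm_sq (𝕜 := ℂ) (∑ i ∈ a.support, a i • R.phi i)
      rw [h1] at h3
      rw [← h3]
      rw [map_sum]
      refine Finset.sum_congr rfl fun i _ => ?_
      rw [RCLike.conj_mul]
      norm_cast
    have h1 : ⟪(R.V ^ n) (a.sum fun i b => b • R.phi i), x⟫_ℂ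
        = ∑ i ∈ a.support, (starRingEnd ℂ) (a i) * ⟪(R.V ^ n) (R.phi i), x⟫_ℂ := by
      unfold Finsupp.sum
      rw [map_sum, sum_inner]
      refine Finset.sum_congr rfl fun i _ => ?_
      rw [map_smul, inner_smul_left]
    rw [h1]
    have h2 : ‖∑ i ∈ a.support, (starRingEnd ℂ) (a i) * ⟪(R.V ^ n) (R.phi i), x⟫_ℂ‖
        ≤ ∑ i ∈ a.support, ‖a i‖ * ‖⟪(R.V ^ n) (R.phi i), x⟫_ℂ‖ := by
      refine (norm_sum_le _ _).trans (le_of_eq ?_)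
      refine Finset.sum_congr rfl fun i _ => ?_
      rw [norm_mul, RCLike.norm_conj]
    refine h2.trans ?_
    have h3 := Finset.sum_mul_sq_le_sq_mul_sq a.support (fun i => ‖a i‖)
      (fun i => ‖⟪(R.V ^ n) (R.phi i), x⟫_ℂ‖)
    rw [← hn] at h3
    have h4 := R.main_sq (n := n) hx a.support
    have h5 : (∑ i ∈ a.support, ‖a i‖ * ‖⟪(R.V ^ n) (R.phi i), x⟫_ℂ‖) ^ 2
        ≤ (Real.sqrt 2 * s * ‖a.sum fun i b => b • R.phi i‖ * ‖x‖) ^ 2 := by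
      calc _ ≤ _ := h3
        _ ≤ ‖a.sum fun i b => b • R.phi i‖ ^ 2 * (2 * s ^ 2 * ‖x‖ ^ 2) := by gcongr
        _ = _ := by
          rw [mul_pow, mul_pow, mul_pow, Real.sq_sqrt (by norm_num)]
          ring
    exact le_of_sq_le_sq h5 (by positivity)
  have h := closure_minimal hsub hclosed
  exact h hf

/-- the projection onto the future space -/
noncomputable def P : K →L[ℂ] K := R.F.starProjection

/-- the complementary projection -/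
noncomputable def Q : K →L[ℂ] K := R.Fᗮ.starProjection

lemma P_add_Q (x : K) : R.P x + R.Q x = x := by
  unfold P Q
  rw [Submodule.starProjection_orthogonal_val]
  abel

lemma P_mem (x : K) : R.P x ∈ R.F := Submodule.starProjection_apply_mem _ _

lemma Q_mem (x : K) : R.Q x ∈ R.Fᗮ := Submodule.starProjection_apply_mem _ _

lemma P_of_mem {x : K} (hx : x ∈ R.F) : R.P x = x := Submodule.starProjection_eq_self_iff.mpr hx

lemma Q_of_mem {x : K} (hx : x ∈ R.Fᗮ) : R.Q x = x := Submodule.starProjection_eq_self_iff.mpr hx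

lemma Q_of_mem_F {x : K} (hx : x ∈ R.F) : R.Q x = 0 := by
  have h := R.P_add_Q x
  rw [R.P_of_mem hx] at h
  simpa using h

lemma P_of_mem_orth {x : K} (hx : x ∈ R.Fᗮ) : R.P x = 0 := by
  have h := R.P_add_Q x
  rw [R.Q_of_mem hx] at h
  simpa using h

lemma norm_sq_add {f g : K} (hf : f ∈ R.F) (hg : g ∈ R.Fᗮ) : ‖f + g‖ ^ 2 = ‖f‖ ^ 2 + ‖g‖ ^ 2 := by
  have h : ⟪f, g⟫_ℂ = 0 := (Submodule.mem_orthogonal _ _).mp hg f hf
  have := norm_add_sq_eq_norm_sq_add_norm_sq_of_inner_eq_zero f g h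
  simpa [sq] using this

lemma norm_QV {n : ℕ} {f : K} (hf : f ∈ R.F) : ‖R.Q ((R.V ^ n) f)‖ ≤ Real.sqrt 2 * s * ‖f‖ := by
  set x := R.Q ((R.V ^ n) f) with hx
  have hxm : x ∈ R.Fᗮ := R.Q_mem _
  have h1 := R.inner_le (n := n) hxm hf
  have h2 : ⟪(R.V ^ n) f, x⟫_ℂ = ⟪x, x⟫_ℂ := by
    conv_lhs => rw [← R.P_add_Q ((R.V ^ n) f)]
    rw [inner_add_left, (Submodule.mem_orthogonal _ _).mp hxm _ (R.P_mem _), zero_add]
  rw [h2, inner_self_eq_norm_sq_to_K, norm_pow] at h1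
  rw [RCLike.norm_ofReal, abs_norm] at h1
  by_cases h0 : ‖x‖ = 0
  · rw [h0]
    have := R.hs
    positivity
  · have h3 : 0 < ‖x‖ := lt_of_le_of_ne (norm_nonneg _) (Ne.symm h0)
    have h4 : ‖x‖ * ‖x‖ ≤ (Real.sqrt 2 * s * ‖f‖) * ‖x‖ := by rw [← sq]; exact h1
    exact le_of_mul_le_mul_right h4 h3

/-- the intertwiner -/
noncomputable def X : K →L[ℂ] K := R.P + (s : ℂ) • R.Q

/-- its inverse -/
noncomputable def Xi : K →L[ℂ] K := R.P + ((s⁻¹ : ℝ) : ℂ) • R.Q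

lemma X_apply (x : K) : R.X x = R.P x + (s : ℂ) • R.Q x := rfl

lemma Xi_apply (x : K) : R.Xi x = R.P x + ((s⁻¹ : ℝ) : ℂ) • R.Q x := rfl

lemma PP (x : K) : R.P (R.P x) = R.P x := R.P_of_mem (R.P_mem x)
lemma QQ (x : K) : R.Q (R.Q x) = R.Q x := R.Q_of_mem (R.Q_mem x)
lemma QP (x : K) : R.Q (R.P x) = 0 := R.Q_of_mem_F (R.P_mem x)
lemma PQ (x : K) : R.P (R.Q x) = 0 := R.P_of_mem_orth (R.Q_mem x)

lemma X_Xi : R.X * R.Xi = 1 := by
  ext x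
  have hs := R.hs.ne'
  rw [mul_apply_eq_comp, Xi_apply, X_apply]
  simp only [map_add, map_smul, PP, QQ, QP, PQ, smul_zero, add_zero, zero_add, smul_smul]
  rw [show (s : ℂ) * ((s⁻¹ : ℝ) : ℂ) = 1 by
    push_cast; exact mul_inv_cancel₀ (by exact_mod_cast hs), one_smul, R.P_add_Q]
  rfl

lemma Xi_X : R.Xi * R.X = 1 := by
  ext x
  have hs := R.hs.ne'
  rw [mul_apply_eq_comp, Xi_apply, X_apply]
  simp only [map_add, map_smul, PP, QQ, QP, PQ, smul_zero, add_zero, zero_add, smul_smul]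
  rw [show ((s⁻¹ : ℝ) : ℂ) * (s : ℂ) = 1 by
    push_cast; exact inv_mul_cancel₀ (by exact_mod_cast hs), one_smul, R.P_add_Q]
  rfl

lemma norm_X_sq (x : K) : ‖R.X x‖ ^ 2 = ‖R.P x‖ ^ 2 + s ^ 2 * ‖R.Q x‖ ^ 2 := by
  rw [X_apply, R.norm_sq_add (R.P_mem x) (Submodule.smul_mem _ _ (R.Q_mem x)), norm_smul, mul_pow]
  congr 2
  simp

lemma norm_Xi_sq (x : K) : ‖R.Xi x‖ ^ 2 = ‖R.P x‖ ^ 2 + (s⁻¹) ^ 2 * ‖R.Q x‖ ^ 2 := by
  rw [Xi_apply, R.norm_sq_add (R.P_mem x) (Submodule.smul_mem _ _ (R.Q_mem x)), norm_smul, mul_pow]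
  congr 2
  simp

lemma norm_sq_eq (x : K) : ‖x‖ ^ 2 = ‖R.P x‖ ^ 2 + ‖R.Q x‖ ^ 2 := by
  conv_lhs => rw [← R.P_add_Q x]
  exact R.norm_sq_add (R.P_mem x) (R.Q_mem x)

lemma norm_X_le (x : K) : ‖R.X x‖ ≤ ‖x‖ := by
  apply le_of_sq_le_sq _ (norm_nonneg _)
  rw [R.norm_X_sq, R.norm_sq_eq x]
  have h1 := R.s_lt_one
  have h2 := R.hs
  have h3 : s ^ 2 ≤ 1 := by nlinarith
  nlinarith [sq_nonneg ‖R.Q x‖]

lemma norm_X_ge (x : K) : s * ‖x‖ ≤ ‖R.X x‖ := by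
  have h1 := R.s_lt_one
  have h2 := R.hs
  apply le_of_sq_le_sq _ (norm_nonneg _)
  rw [R.norm_X_sq, mul_pow, R.norm_sq_eq x]
  have h3 : s ^ 2 ≤ 1 := by nlinarith
  nlinarith [sq_nonneg ‖R.P x‖]

lemma norm_Xi_ge (x : K) : ‖x‖ ≤ ‖R.Xi x‖ := by
  have h := R.norm_X_le (R.Xi x)
  rwa [← mul_apply_eq_comp, R.X_Xi, one_apply_eq_self] at h

/-- the operator -/
noncomputable def T : K →L[ℂ] K := R.Xi * R.V * R.X

lemma X_T : R.X * R.T = R.V * R.X := by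
  unfold T
  rw [← mul_assoc, ← mul_assoc, R.X_Xi, one_mul]

lemma T_pow (n : ℕ) : R.T ^ n = R.Xi * R.V ^ n * R.X := by
  induction n with
  | zero => rw [pow_zero, pow_zero, mul_one, R.Xi_X]
  | succ n ih =>
    rw [pow_succ, ih]
    unfold T
    rw [pow_succ]
    calc R.Xi * R.V ^ n * R.X * (R.Xi * R.V * R.X)
        = R.Xi * R.V ^ n * (R.X * R.Xi) * R.V * R.X := by simp only [mul_assoc]
      _ = _ := by rw [R.X_Xi, mul_one]; simp only [mul_assoc]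

lemma norm_T_pow (n : ℕ) (x : K) : ‖(R.T ^ n) x‖ ≤ 2 * ‖x‖ := by
  have hs := R.hs
  rw [R.T_pow, mul_apply_eq_comp, mul_apply_eq_comp]
  set f := R.P x with hf
  set g := R.Q x with hg
  have h1 : R.X x = f + (s : ℂ) • g := rfl
  have hn1 := R.norm_sq_eq x
  rw [← hf, ← hg] at hn1
  apply le_of_sq_le_sq _ (by positivity)
  rw [R.norm_Xi_sq]
  have h2 : ‖R.P ((R.V ^ n) (R.X x))‖ ^ 2 ≤ ‖x‖ ^ 2 := by
    have h3 := R.norm_sq_eq ((R.V ^ n) (R.X x))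
    rw [R.norm_V_pow] at h3
    have h4 := R.norm_X_le x
    have h5 : ‖R.X x‖ ^ 2 ≤ ‖x‖ ^ 2 := by gcongr
    nlinarith [sq_nonneg ‖R.Q ((R.V ^ n) (R.X x))‖]
  have h3 : ‖R.Q ((R.V ^ n) (R.X x))‖ ≤ s * (Real.sqrt 2 * ‖f‖ + ‖g‖) := by
    rw [h1, map_add, map_add, map_smul, map_smul]
    refine (norm_add_le _ _).trans ?_
    have h4 := R.norm_QV (n := n) (R.P_mem x)
    have h5 : ‖(s : ℂ) • R.Q ((R.V ^ n) g)‖ ≤ s * ‖g‖ := by
      rw [norm_smul]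
      have h6 : ‖(s : ℂ)‖ = s := by simp [abs_of_pos hs]
      rw [h6]
      gcongr
      have h7 := R.norm_sq_eq ((R.V ^ n) g)
      rw [R.norm_V_pow] at h7
      apply le_of_sq_le_sq _ (norm_nonneg _)
      nlinarith [sq_nonneg ‖R.P ((R.V ^ n) g)‖]
    rw [← hf] at h4
    linarith
  have h4 : (s⁻¹) ^ 2 * ‖R.Q ((R.V ^ n) (R.X x))‖ ^ 2 ≤ (Real.sqrt 2 * ‖f‖ + ‖g‖) ^ 2 := by
    calc (s⁻¹) ^ 2 * ‖R.Q ((R.V ^ n) (R.X x))‖ ^ 2
        ≤ (s⁻¹) ^ 2 * (s * (Real.sqrt 2 * ‖f‖ + ‖g‖)) ^ 2 := by gcongr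
      _ = _ := by field_simp
  have h5 : (Real.sqrt 2 * ‖f‖ + ‖g‖) ^ 2 ≤ 3 * ‖x‖ ^ 2 := by
    rw [hn1]
    have h6 : Real.sqrt 2 ^ 2 = 2 := Real.sq_sqrt (by norm_num)
    nlinarith [sq_nonneg (‖f‖ - Real.sqrt 2 * ‖g‖)]
  nlinarith

lemma norm_T_pow_ge (n : ℕ) (x : K) : ‖R.X x‖ ≤ ‖(R.T ^ n) x‖ := by
  rw [R.T_pow, mul_apply_eq_comp, mul_apply_eq_comp]
  calc ‖R.X x‖ = ‖(R.V ^ n) (R.X x)‖ := (R.norm_V_pow n _).symm
    _ ≤ _ := R.norm_Xi_ge _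

lemma adjoint_P : ContinuousLinearMap.adjoint R.P = R.P := by
  have h : IsSelfAdjoint R.P := isSelfAdjoint_starProjection _
  exact h

lemma adjoint_Q : ContinuousLinearMap.adjoint R.Q = R.Q := by
  have h : IsSelfAdjoint R.Q := isSelfAdjoint_starProjection _
  exact h

lemma adjoint_X : ContinuousLinearMap.adjoint R.X = R.X := by
  unfold X
  rw [map_add, R.adjoint_P]
  congr 1
  rw [map_smulₛₗ, R.adjoint_Q]
  simp

lemma adjoint_Xi : ContinuousLinearMap.adjoint R.Xi = R.Xi := by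
  unfold Xi
  rw [map_add, R.adjoint_P]
  congr 1
  rw [map_smulₛₗ, R.adjoint_Q]
  simp

lemma adjoint_T_pow (n : ℕ) :
    ContinuousLinearMap.adjoint R.T ^ n = R.X * (ContinuousLinearMap.adjoint R.V) ^ n * R.Xi := by
  have h := congrArg star (R.T_pow n)
  rw [star_pow, star_mul, star_mul, star_pow] at h
  simp only [ContinuousLinearMap.star_eq_adjoint] at h
  rw [h, R.adjoint_X, R.adjoint_Xi, mul_assoc]

lemma norm_adjV_pow (n : ℕ) (x : K) : ‖((ContinuousLinearMap.adjoint R.V) ^ n) x‖ = ‖x‖ := by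
  have h1 : R.V * (ContinuousLinearMap.adjoint R.V) = 1 := (Unitary.mem_iff.mp R.hV).2
  induction n with
  | zero => simp
  | succ n ih =>
    rw [pow_succ', mul_apply_eq_comp, ← R.norm_V, ← mul_apply_eq_comp, h1, one_apply_eq_self, ih]

lemma norm_adjoint_T_pow_ge (n : ℕ) (x : K) :
    s * ‖x‖ ≤ ‖(ContinuousLinearMap.adjoint R.T ^ n) x‖ := by
  rw [R.adjoint_T_pow, mul_apply_eq_comp, mul_apply_eq_comp]
  have hs := R.hs
  calc s * ‖x‖ ≤ s * ‖R.Xi x‖ := by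
        have := R.norm_Xi_ge x
        gcongr
    _ = s * ‖(ContinuousLinearMap.adjoint R.V ^ n) (R.Xi x)‖ := by rw [R.norm_adjV_pow]
    _ ≤ _ := R.norm_X_ge _

end RSys

end Pool.Agent.H55
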