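import Pool.Agent.H55.Sim4

set_option autoImplicit false

namespace Pool.Agent.H55

open scoped InnerProductSpace
open Filter Topology

/-- averages of eventually orthogonal bounded vectors tend to zero -/
lemma avg_tendsto {E : Type} [NormedAddCommGroup E] [InnerProductSpace ℂ E] (u : ℕ → E) (C : ℝ)
    (hC : ∀ j, ‖u j‖ ≤ C) (j0 : ℕ) (horth : ∀ i j, j0 ≤ i → i < j → ⟪u i, u j⟫_ℂ = 0) :
    Tendsto (fun J : ℕ => ((J : ℂ)⁻¹) • ∑ j ∈ Finset.range J, u j) atTop (𝓝 0) := by
  have hC0 : 0 ≤ C := (norm_nonneg _).trans (hC 0)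
  have h1 : ∀ J, j0 ≤ J → ‖∑ j ∈ Finset.Ico j0 J, u j‖ ^ 2 ≤ J * C ^ 2 := by
    intro J hJ
    induction J, hJ using Nat.le_induction with
    | base => simp; positivity
    | succ J hJ ih =>
      rw [Finset.sum_Ico_succ_top hJ]
      have h2 : ⟪∑ j ∈ Finset.Ico j0 J, u j, u J⟫_ℂ = 0 := by
        rw [sum_inner]
        apply Finset.sum_eq_zero
        intro i hi
        rw [Finset.mem_Ico] at hi
        exact horth i J hi.1 hi.2
      have h3 := norm_add_sq_eq_norm_sq_add_norm_sq_of_inner_eq_zero _ _ h2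
      have h4 := hC J
      have h5 : ‖u J‖ ^ 2 ≤ C ^ 2 := by gcongr
      rw [sq, h3]
      push_cast
      nlinarith
  have h2 : ∀ J, j0 ≤ J → ‖∑ j ∈ Finset.range J, u j‖ ≤ j0 * C + Real.sqrt J * C := by
    intro J hJ
    rw [Finset.range_eq_Ico, ← Finset.sum_Ico_consecutive _ (Nat.zero_le j0) hJ]
    refine (norm_add_le _ _).trans ?_
    gcongr
    · refine (norm_sum_le _ _).trans ?_
      refine (Finset.sum_le_sum fun j _ => hC j).trans ?_
      simp
    · apply le_of_sq_le_sq _ (by positivity)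
      rw [mul_pow, Real.sq_sqrt (by positivity)]
      exact h1 J hJ
  have h3 : Tendsto (fun J : ℕ => (j0 * C) * ((J : ℝ)⁻¹) + C * (Real.sqrt J)⁻¹) atTop (𝓝 0) := by
    have ha : Tendsto (fun J : ℕ => ((J : ℝ)⁻¹)) atTop (𝓝 0) := tendsto_inv_atTop_nhds_zero_nat
    have hb : Tendsto (fun J : ℕ => (Real.sqrt J)⁻¹) atTop (𝓝 0) := by
      apply Filter.Tendsto.inv_tendsto_atTop
      exact Real.tendsto_sqrt_atTop.comp tendsto_natCast_atTop_atTop
    have := (ha.const_mul ((j0 : ℝ) * C)).add (hb.const_mul C)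
    simpa using this
  rw [tendsto_zero_iff_norm_tendsto_zero]
  refine squeeze_zero' (Eventually.of_forall fun _ => norm_nonneg _) ?_ h3
  filter_upwards [eventually_ge_atTop (max j0 1)] with J hJ
  have hJ0 : j0 ≤ J := le_trans (le_max_left _ _) hJ
  have hJ1 : 1 ≤ J := le_trans (le_max_right _ _) hJ
  have hJp : (0 : ℝ) < J := by exact_mod_cast hJ1
  rw [norm_smul, norm_inv, RCLike.norm_natCast]
  calc ((J : ℝ)⁻¹) * ‖∑ j ∈ Finset.range J, u j‖ ≤ ((J : ℝ)⁻¹) * (j0 * C + Real.sqrt J * C) := by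
        gcongr
        exact h2 J hJ0
    _ = _ := by
        have h5 : Real.sqrt J * Real.sqrt J = J := Real.mul_self_sqrt hJp.le
        have h6 : Real.sqrt J ≠ 0 := by positivity
        have h7 : ((J : ℝ)⁻¹) * Real.sqrt J = (Real.sqrt J)⁻¹ := by
          apply eq_inv_of_mul_eq_one_left
          rw [mul_assoc, h5, inv_mul_cancel₀ hJp.ne']
        calc ((J : ℝ)⁻¹) * (j0 * C + Real.sqrt J * C)
            = (j0 * C) * ((J : ℝ)⁻¹) + C * (((J : ℝ)⁻¹) * Real.sqrt J) := by ring
          _ = _ := by rw [h7]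

/-- windows of the Banach limit -/
def wdw (l : ℕ) : ℕ := (Bd l + ad (l + 1) + l).toNat

/-- natural number versions of the lacunary times -/
def Mn (j : ℕ) : ℕ := (Md j).toNat

lemma Mn_cast (j : ℕ) : ((Mn j : ℕ) : ℤ) = Md j := Int.toNat_of_nonneg (Md_pos j).le

lemma Mn_injective : Function.Injective Mn := by
  intro i j h
  have h2 : Md i = Md j := by rw [← Mn_cast, ← Mn_cast, h]
  exact Md_strictMono.injective h2

lemma Md_le {i j : ℕ} (h : i < j) : Md i ≤ ad j := by
  have h1 := ad_mono (show i + 1 ≤ j from h)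
  have h2 := ad_succ' i
  have h3 := ad_nonneg i
  omega

namespace RSys

variable {K : Type} [NormedAddCommGroup K] [InnerProductSpace ℂ K] [CompleteSpace K]
  {c s : ℝ} (R : RSys K c s)

lemma mem_Fperp_of {x : K} (h : ∀ l, ⟪R.phi l, x⟫_ℂ = 0) : x ∈ R.Fᗮ := by
  unfold F
  rw [Submodule.orthogonal_closure, Submodule.mem_orthogonal]
  intro u hu
  induction hu using Submodule.span_induction with
  | mem u hu =>
    obtain ⟨l, rfl⟩ := hu
    exact h l
  | zero => simp
  | add a b _ _ ha hb => rw [inner_add_left, ha, hb, add_zero]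
  | smul a y _ hy => rw [inner_smul_left, hy, mul_zero]

lemma low_mem : R.E 0 (-1) ∈ R.Fᗮ := by
  apply R.mem_Fperp_of
  intro l
  have h1 := R.E_mem_Win (Nat.zero_le (lev l)) (-1)
  have h2 := R.mem_Win (J := lev l) (p := (l : ℤ)) (q := l + 1) (l := (l:ℤ)) le_rfl (by omega)
  have h3 := lt_Bd_lev l
  have h4 := ad_nonneg (lev l)
  refine R.orth_Win' (L := lev l) ?_ ?_ h1 h2
  · omega
  · rw [ad_zero]
    unfold Md
    unfold Bd at h3
    omega

lemma E00_mem : R.E 0 0 ∈ R.F := R.E_zero_mem_F le_rfl (by unfold Bd; rw [ad_zero]; norm_num)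

lemma T_low : R.T (R.E 0 (-1)) = (s : ℂ) • R.E 0 0 := by
  have h : R.V (R.E 0 (-1)) = R.E 0 0 := by rw [R.shift]; norm_num
  unfold T
  rw [mul_apply_eq_comp, mul_apply_eq_comp, X_apply, R.P_of_mem_orth R.low_mem,
    R.Q_of_mem R.low_mem, zero_add, map_smul, h, map_smul, Xi_apply,
    R.P_of_mem R.E00_mem, R.Q_of_mem_F R.E00_mem, smul_zero, add_zero]

/-- every vector of the dense submodule enters the future space during the windows -/
lemma window_mem {x : K} (hx : x ∈ Submodule.span ℂ (Set.range (R.E 0))) :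
    ∃ l0 : ℕ, ∀ l, l0 ≤ l → ∀ n, wdw l ≤ n → n ≤ wdw l + l → (R.V ^ n) x ∈ R.F := by
  induction hx using Submodule.span_induction with
  | mem x hx =>
    obtain ⟨k, rfl⟩ := hx
    refine ⟨k.natAbs, fun l hl n h1 h2 => ?_⟩
    rw [R.V_pow_E]
    have h3 := R.E_mem_Win (Nat.zero_le (l + 1)) (k + n)
    have hw : ((wdw l : ℕ) : ℤ) = Bd l + ad (l + 1) + l := by
      unfold wdw
      apply Int.toNat_of_nonneg
      have := ad_nonneg l
      have := ad_nonneg (l + 1)
      unfold Bd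
      omega
    have h4 : Bd l + ad (l + 1) + l ≤ n := by rw [← hw]; exact_mod_cast h1
    have h5 : (n : ℤ) ≤ Bd l + ad (l + 1) + l + l := by rw [← hw]; exact_mod_cast h2
    have h6 : (k.natAbs : ℤ) ≤ l := by exact_mod_cast hl
    have h7 : R.Win (l + 1) (k + n - (ad (l + 1) - ad 0)) (k + n + 1) ≤ R.F := by
      apply Submodule.span_le.mpr
      rintro y ⟨m, hm1, hm2, rfl⟩
      have h8 := ad_ge l
      have h9 := ad_succ l
      rw [ad_zero] at hm1
      apply R.E_succ_mem_F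
      · omega
      · unfold Bd at *
        omega
    exact h7 h3
  | zero => exact ⟨0, fun l _ n _ _ => by rw [map_zero]; exact Submodule.zero_mem _⟩
  | add a b _ _ ha hb =>
    obtain ⟨la, ha⟩ := ha
    obtain ⟨lb, hb⟩ := hb
    refine ⟨max la lb, fun l hl n h1 h2 => ?_⟩
    rw [map_add]
    exact Submodule.add_mem _ (ha l (le_trans (le_max_left _ _) hl) n h1 h2)
      (hb l (le_trans (le_max_right _ _) hl) n h1 h2)
  | smul a y _ hy =>
    obtain ⟨l0, hy⟩ := hy
    refine ⟨l0, fun l hl n h1 h2 => ?_⟩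
    rw [map_smul]
    exact Submodule.smul_mem _ _ (hy l hl n h1 h2)

lemma T_window {x : K} (hx : x ∈ Submodule.span ℂ (Set.range (R.E 0))) :
    ∃ l0 : ℕ, ∀ l, l0 ≤ l → ∀ n, wdw l ≤ n → n ≤ wdw l + l →
      (R.T ^ n) (R.Xi x) = (R.V ^ n) (R.X (R.Xi x)) := by
  obtain ⟨l0, h⟩ := R.window_mem hx
  refine ⟨l0, fun l hl n h1 h2 => ?_⟩
  have h3 := h l hl n h1 h2
  have h4 : R.X (R.Xi x) = x := by
    rw [← mul_apply_eq_comp, R.X_Xi, one_apply_eq_self]
  rw [R.T_pow, mul_apply_eq_comp, mul_apply_eq_comp, h4, Xi_apply, R.P_of_mem h3,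
    R.Q_of_mem_F h3, smul_zero, add_zero]

/-- weak return -/
lemma weak_return {j : ℕ} {p q p' q' : ℤ} (h1 : q - p' ≤ Md j) (h2 : q' - p ≤ Md j) {x y : K}
    (hx : x ∈ R.Win j p q) (hy : y ∈ R.Win j p' q') :
    ⟪x, (R.V ^ (Mn j)) y⟫_ℂ = (c * s : ℝ) * ⟪x, y⟫_ℂ := by
  induction hx using Submodule.span_induction with
  | mem x hx =>
    obtain ⟨k, hk1, hk2, rfl⟩ := hx
    induction hy using Submodule.span_induction with
    | mem y hy =>
      obtain ⟨l, hl1, hl2, rfl⟩ := hy
      rw [R.V_pow_E, Mn_cast, R.r2 j k l (by rw [abs_lt]; constructor <;> omega),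
        R.r1 j k, R.r1 j (l + Md j)]
      have hM : Md (j + 1) = 30 * ad j + 12 := by unfold Md; rw [ad_succ]; ring
      have hM' : Md j = 5 * ad j + 2 := rfl
      have ha := ad_nonneg j
      simp only [inner_add_left, inner_add_right, inner_smul_left, inner_smul_right,
        Complex.conj_ofReal]
      rw [R.r2 (j + 1) k (l + Md j) (by rw [abs_lt]; constructor <;> omega),
        R.r2 (j + 1) k (l + Md j - Md j) (by rw [abs_lt]; constructor <;> omega),
        R.r2 (j + 1) (k - Md j) (l + Md j) (by rw [abs_lt]; constructor <;> omega),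
        R.r2 (j + 1) (k - Md j) (l + Md j - Md j) (by rw [abs_lt]; constructor <;> omega),
        if_neg (by omega), if_neg (show ¬ (k - Md j = l + Md j) by omega),
        if_neg (show ¬ (k - Md j = l + Md j - Md j) by omega)]
      by_cases hkl : k = l
      · rw [if_pos hkl, if_pos (by omega)]
        push_cast
        ring
      · rw [if_neg hkl, if_neg (by omega)]
        ring
    | zero => simp
    | add a b _ _ ha hb => rw [map_add, inner_add_right, inner_add_right, ha, hb]; ring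
    | smul a y _ hy => rw [map_smul, inner_smul_right, inner_smul_right, hy]; ring
  | zero => simp
  | add a b _ _ ha hb => rw [inner_add_left, inner_add_left, ha, hb]; ring
  | smul a y _ hy => rw [inner_smul_left, inner_smul_left, hy]; ring

/-- translates of windows -/
lemma V_pow_Win {j : ℕ} {p q : ℤ} (n : ℕ) {x : K} (hx : x ∈ R.Win j p q) :
    (R.V ^ n) x ∈ R.Win j (p + n) (q + n) := by
  induction hx using Submodule.span_induction with
  | mem x hx =>
    obtain ⟨k, hk1, hk2, rfl⟩ := hx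
    rw [R.V_pow_E]
    exact R.mem_Win (by omega) (by omega)
  | zero => rw [map_zero]; exact Submodule.zero_mem _
  | add a b _ _ ha hb => rw [map_add]; exact Submodule.add_mem _ ha hb
  | smul a y _ hy => rw [map_smul]; exact Submodule.smul_mem _ _ hy

lemma exists_Win {x : K} (hx : x ∈ Submodule.span ℂ (Set.range (R.E 0))) :
    ∃ m : ℕ, x ∈ R.Win 0 (-m) m := by
  induction hx using Submodule.span_induction with
  | mem x hx =>
    obtain ⟨k, rfl⟩ := hx
    exact ⟨k.natAbs + 1, R.mem_Win (by omega) (by omega)⟩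
  | zero => exact ⟨0, Submodule.zero_mem _⟩
  | add a b _ _ ha hb =>
    obtain ⟨ma, ha⟩ := ha
    obtain ⟨mb, hb⟩ := hb
    exact ⟨max ma mb, Submodule.add_mem _ (R.Win_mono (by omega) (by omega) ha)
      (R.Win_mono (by omega) (by omega) hb)⟩
  | smul a y _ hy =>
    obtain ⟨m, hy⟩ := hy
    exact ⟨m, Submodule.smul_mem _ _ hy⟩

/-- strong convergence of the averages on the dense submodule -/
lemma avg_return {x : K} (hx : x ∈ Submodule.span ℂ (Set.range (R.E 0))) :
    Tendsto (fun J : ℕ => ((J : ℂ)⁻¹) • ∑ j ∈ Finset.range J, (R.V ^ (Mn j)) x) atTop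
      (𝓝 (((c * s : ℝ) : ℂ) • x)) := by
  obtain ⟨m, hm⟩ := R.exists_Win hx
  set d : ℂ := ((c * s : ℝ) : ℂ) with hd
  have hdn : ‖d‖ ≤ 1 := by
    have h1 := R.s_lt_one
    have h2 := R.c_lt_one
    have h3 := R.hs
    have h4 := R.hc
    rw [hd, Complex.norm_real, Real.norm_eq_abs, abs_of_pos (by positivity)]
    nlinarith
  have hself : ∀ j, m ≤ j → ⟪x, (R.V ^ (Mn j)) x⟫_ℂ = d * ⟪x, x⟫_ℂ := by
    intro j hj
    have h1 := R.Win_le (Nat.zero_le j) _ _ hm
    have h2 := ad_ge j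
    have h3 : (m : ℤ) ≤ j := by exact_mod_cast hj
    refine R.weak_return ?_ ?_ h1 h1 <;> rw [ad_zero] <;> unfold Md <;> omega
  have hself' : ∀ j, m ≤ j → ⟪(R.V ^ (Mn j)) x, x⟫_ℂ = d * ⟪x, x⟫_ℂ := by
    intro j hj
    rw [← inner_conj_symm, hself j hj, map_mul, inner_conj_symm, hd, Complex.conj_ofReal]
  have hcross : ∀ i j, m ≤ i → i < j → ⟪(R.V ^ (Mn i)) x, (R.V ^ (Mn j)) x⟫_ℂ =
      d * (d * ⟪x, x⟫_ℂ) := by
    intro i j hi hij
    have h1 := R.Win_le (Nat.zero_le j) _ _ hm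
    have h2 := ad_ge j
    have h3 : (m : ℤ) ≤ j := by exact_mod_cast hi.trans hij.le
    have h4 := R.V_pow_Win (Mn i) h1
    rw [Mn_cast] at h4
    have h5 := Md_le hij
    have h6 := Md_pos i
    have h7 : ⟪(R.V ^ (Mn i)) x, (R.V ^ (Mn j)) x⟫_ℂ = d * ⟪(R.V ^ (Mn i)) x, x⟫_ℂ := by
      refine R.weak_return ?_ ?_ h4 h1 <;> rw [ad_zero] <;> unfold Md at * <;> omega
    rw [h7, hself' i hi]
  have h1 := avg_tendsto (fun j => (R.V ^ (Mn j)) x - d • x) (2 * ‖x‖) (by
    intro j
    refine (norm_sub_le _ _).trans ?_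
    rw [R.norm_V_pow, norm_smul]
    nlinarith [norm_nonneg x]) m (by
    intro i j hi hij
    rw [inner_sub_left, inner_sub_right, inner_sub_right, hcross i j hi hij,
      inner_smul_right, inner_smul_left, inner_smul_left, inner_smul_right,
      hself j (hi.trans hij.le), hself' i hi, hd, Complex.conj_ofReal]
    ring)
  have h2 : Tendsto (fun J : ℕ => ((J : ℂ)⁻¹) • ∑ j ∈ Finset.range J, ((R.V ^ (Mn j)) x - d • x)
      + d • x) atTop (𝓝 (0 + d • x)) := h1.add tendsto_const_nhds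
  rw [zero_add] at h2
  refine h2.congr' ?_
  filter_upwards [eventually_ge_atTop 1] with J hJ
  have hJp : (J : ℂ) ≠ 0 := by
    have : J ≠ 0 := by omega
    exact_mod_cast this
  rw [Finset.sum_sub_distrib, smul_sub, Finset.sum_const, Finset.card_range, ← Nat.cast_smul_eq_nsmul ℂ,
    smul_smul, inv_mul_cancel₀ hJp, one_smul, sub_add_cancel]

end RSys

end Pool.Agent.H55
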