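import Pool.Agent.H55.Sim5

set_option autoImplicit false

namespace Pool.Agent.H55

open scoped InnerProductSpace
open Filter Topology

section General

variable {K : ℕ → Type} [∀ i, NormedAddCommGroup (K i)] [∀ i, InnerProductSpace ℂ (K i)]

lemma eq_top_of_single (G : Submodule ℂ (lp K 2)) (hG : IsClosed (G : Set (lp K 2)))
    (S : ∀ i, Submodule ℂ (K i)) (hS : ∀ i, (S i).topologicalClosure = ⊤)
    (h : ∀ i, ∀ x ∈ S i, lp.single 2 i x ∈ G) : G = ⊤ := by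
  have h1 : ∀ i, ∀ x : K i, lp.single 2 i x ∈ G := by
    intro i x
    have h2 : IsClosed {x : K i | lp.single 2 i x ∈ G} :=
      hG.preimage (lp.singleContinuousLinearMap ℂ K 2 i).continuous
    have h3 : ((S i : Submodule ℂ (K i)) : Set (K i)) ⊆ {x : K i | lp.single 2 i x ∈ G} := fun x hx => h i x hx
    have h4 := closure_minimal h3 h2
    have h5 : x ∈ (S i).topologicalClosure := by rw [hS i]; trivial
    exact h4 h5
  rw [eq_top_iff]
  intro f _
  have h2 := lp.hasSum_single (p := 2) (by norm_num) f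
  refine hG.mem_of_tendsto h2 (Eventually.of_forall fun t => ?_)
  exact Submodule.sum_mem _ fun i _ => h1 i _

lemma mapCLM_apply (A : ∀ i, K i →L[ℂ] K i) {C : ℝ} (hC : 0 ≤ C) (h : ∀ i, ‖A i‖ ≤ C) (x : lp K 2)
    (i : ℕ) : (lp.mapCLM 2 A hC h x) i = A i (x i) := rfl

lemma mapCLM_pow_apply (A : ∀ i, K i →L[ℂ] K i) {C : ℝ} (hC : 0 ≤ C) (h : ∀ i, ‖A i‖ ≤ C) (n : ℕ)
    (x : lp K 2) (i : ℕ) : ((lp.mapCLM 2 A hC h ^ n) x) i = (A i ^ n) (x i) := by
  induction n with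
  | zero => simp
  | succ n ih => rw [pow_succ', pow_succ', mul_apply_eq_comp, mul_apply_eq_comp, mapCLM_apply, ih]

lemma adjoint_mapCLM [∀ i, CompleteSpace (K i)] (A : ∀ i, K i →L[ℂ] K i) {C : ℝ} (hC : 0 ≤ C)
    (h : ∀ i, ‖A i‖ ≤ C) (h' : ∀ i, ‖ContinuousLinearMap.adjoint (A i)‖ ≤ C) :
    ContinuousLinearMap.adjoint (lp.mapCLM 2 A hC h) =
      lp.mapCLM 2 (fun i => ContinuousLinearMap.adjoint (A i)) hC h' := by
  symm
  rw [ContinuousLinearMap.eq_adjoint_iff]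
  intro x y
  rw [lp.inner_eq_tsum, lp.inner_eq_tsum]
  congr 1
  ext i
  rw [mapCLM_apply, mapCLM_apply, ContinuousLinearMap.adjoint_inner_left]

lemma norm_le_of_apply {x y : lp K 2} (h : ∀ i, ‖x i‖ ≤ ‖y i‖) : ‖x‖ ≤ ‖y‖ :=
  lp.norm_mono (by norm_num) h

lemma mapCLM_single (A : ∀ i, K i →L[ℂ] K i) {C : ℝ} (hC : 0 ≤ C) (h : ∀ i, ‖A i‖ ≤ C) (i : ℕ)
    (x : K i) : lp.mapCLM 2 A hC h (lp.single 2 i x) = lp.single 2 i (A i x) := by
  ext j
  rw [mapCLM_apply]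
  by_cases hj : j = i
  · subst hj
    rw [lp.single_apply_self, lp.single_apply_self]
  · rw [lp.single_apply_ne 2 i x hj, lp.single_apply_ne 2 i _ hj, map_zero]

lemma mapCLM_pow_single (A : ∀ i, K i →L[ℂ] K i) {C : ℝ} (hC : 0 ≤ C) (h : ∀ i, ‖A i‖ ≤ C) (n : ℕ)
    (i : ℕ) (x : K i) :
    (lp.mapCLM 2 A hC h ^ n) (lp.single 2 i x) = lp.single 2 i ((A i ^ n) x) := by
  ext j
  rw [mapCLM_pow_apply]
  by_cases hj : j = i
  · subst hj
    rw [lp.single_apply_self, lp.single_apply_self]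
  · rw [lp.single_apply_ne 2 i x hj, lp.single_apply_ne 2 i _ hj, map_zero]

lemma norm_single (i : ℕ) (x : K i) : ‖lp.single 2 i x‖ = ‖x‖ := lp.norm_single (by norm_num) i x

end General

section Fam

variable {K : ℕ → Type} [∀ i, NormedAddCommGroup (K i)] [∀ i, InnerProductSpace ℂ (K i)]
  [∀ i, CompleteSpace (K i)] {c s : ℕ → ℝ} (R : ∀ i, RSys (K i) (c i) (s i))

include R in
lemma norm_T_le (i : ℕ) : ‖(R i).T‖ ≤ 2 := by
  refine ContinuousLinearMap.opNorm_le_bound _ (by norm_num) fun x => ?_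
  have := (R i).norm_T_pow 1 x
  rwa [pow_one] at this

lemma norm_adjT_le (i : ℕ) : ‖ContinuousLinearMap.adjoint (R i).T‖ ≤ 2 := by
  rw [LinearIsometryEquiv.norm_map]
  exact norm_T_le R i

lemma norm_V_le (i : ℕ) : ‖(R i).V‖ ≤ 1 := by
  refine ContinuousLinearMap.opNorm_le_bound _ (by norm_num) fun x => ?_
  rw [(R i).norm_V, one_mul]

lemma norm_adjV_le (i : ℕ) : ‖ContinuousLinearMap.adjoint (R i).V‖ ≤ 1 := by
  rw [LinearIsometryEquiv.norm_map]
  exact norm_V_le R i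

lemma norm_Xop_le (i : ℕ) : ‖(R i).X‖ ≤ 1 := by
  refine ContinuousLinearMap.opNorm_le_bound _ (by norm_num) fun x => ?_
  rw [one_mul]
  exact (R i).norm_X_le x

/-- the operator `T` -/
noncomputable def TT : lp K 2 →L[ℂ] lp K 2 :=
  lp.mapCLM 2 (fun i => (R i).T) (by norm_num : (0 : ℝ) ≤ 2) (norm_T_le R)

/-- the unitary asymptote -/
noncomputable def WW : lp K 2 →L[ℂ] lp K 2 :=
  lp.mapCLM 2 (fun i => (R i).V) (by norm_num : (0 : ℝ) ≤ 1) (norm_V_le R)

/-- the intertwiner -/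
noncomputable def XX : lp K 2 →L[ℂ] lp K 2 :=
  lp.mapCLM 2 (fun i => (R i).X) (by norm_num : (0 : ℝ) ≤ 1) (norm_Xop_le R)

lemma TT_pow_apply (n : ℕ) (x : lp K 2) (i : ℕ) : ((TT R ^ n) x) i = ((R i).T ^ n) (x i) :=
  mapCLM_pow_apply _ _ _ n x i

lemma WW_pow_apply (n : ℕ) (x : lp K 2) (i : ℕ) : ((WW R ^ n) x) i = ((R i).V ^ n) (x i) :=
  mapCLM_pow_apply _ _ _ n x i

lemma XX_apply (x : lp K 2) (i : ℕ) : (XX R x) i = (R i).X (x i) := rfl

lemma adj_TT_pow_apply (n : ℕ) (x : lp K 2) (i : ℕ) :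
    ((ContinuousLinearMap.adjoint (TT R) ^ n) x) i = (ContinuousLinearMap.adjoint (R i).T ^ n) (x i) := by
  unfold TT
  rw [adjoint_mapCLM _ _ _ (norm_adjT_le R)]
  exact mapCLM_pow_apply _ _ _ n x i

lemma norm_TT_pow (n : ℕ) (x : lp K 2) : ‖(TT R ^ n) x‖ ≤ 2 * ‖x‖ := by
  have h : ‖(TT R ^ n) x‖ ≤ ‖(2 : ℂ) • x‖ := by
    apply norm_le_of_apply
    intro i
    rw [TT_pow_apply, lp.coeFn_smul, Pi.smul_apply, norm_smul]
    refine ((R i).norm_T_pow n _).trans ?_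
    norm_num
  refine h.trans ?_
  rw [norm_smul]
  norm_num

lemma norm_TT_pow_op (n : ℕ) : ‖TT R ^ n‖ ≤ 2 :=
  ContinuousLinearMap.opNorm_le_bound _ (by norm_num) fun x => norm_TT_pow R n x

lemma norm_WW_pow (n : ℕ) (x : lp K 2) : ‖(WW R ^ n) x‖ = ‖x‖ := by
  apply le_antisymm
  · apply norm_le_of_apply
    intro i
    rw [WW_pow_apply, (R i).norm_V_pow]
  · apply norm_le_of_apply
    intro i
    rw [WW_pow_apply, (R i).norm_V_pow]

lemma WW_unitary : WW R ∈ unitary (lp K 2 →L[ℂ] lp K 2) := by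
  rw [Unitary.mem_iff, ContinuousLinearMap.star_eq_adjoint]
  unfold WW
  rw [adjoint_mapCLM _ _ _ (norm_adjV_le R)]
  constructor
  · ext x i
    rw [mul_apply_eq_comp, mapCLM_apply, mapCLM_apply, ← mul_apply_eq_comp]
    have h1 : (ContinuousLinearMap.adjoint (R i).V) * (R i).V = 1 :=
      (Unitary.mem_iff.mp (R i).hV).1
    rw [h1]
    rfl
  · ext x i
    rw [mul_apply_eq_comp, mapCLM_apply, mapCLM_apply, ← mul_apply_eq_comp]
    have h1 : (R i).V * (ContinuousLinearMap.adjoint (R i).V) = 1 :=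
      (Unitary.mem_iff.mp (R i).hV).2
    rw [h1]
    rfl

lemma TT_C1 (x : lp K 2) (hx : x ≠ 0) : ¬ Tendsto (fun n : ℕ => (TT R ^ n) x) atTop (𝓝 0) := by
  intro h
  obtain ⟨i, hi⟩ : ∃ i, x i ≠ 0 := by
    by_contra hc
    push Not at hc
    exact hx (lp.ext (funext hc))
  have h1 := h.norm
  rw [norm_zero] at h1
  have h2 : ∀ n, s i * ‖x i‖ ≤ ‖(TT R ^ n) x‖ := by
    intro n
    have h3 := lp.norm_apply_le_norm (p := 2) (by norm_num) ((TT R ^ n) x) i
    rw [TT_pow_apply] at h3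
    exact ((R i).norm_X_ge _).trans (((R i).norm_T_pow_ge n _).trans h3)
  have h3 := ge_of_tendsto' h1 h2
  have h4 : 0 < s i * ‖x i‖ := mul_pos (R i).hs (norm_pos_iff.mpr hi)
  linarith

lemma TT_C2 (x : lp K 2) (hx : x ≠ 0) :
    ¬ Tendsto (fun n : ℕ => (ContinuousLinearMap.adjoint (TT R) ^ n) x) atTop (𝓝 0) := by
  intro h
  obtain ⟨i, hi⟩ : ∃ i, x i ≠ 0 := by
    by_contra hc
    push Not at hc
    exact hx (lp.ext (funext hc))
  have h1 := h.norm
  rw [norm_zero] at h1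
  have h2 : ∀ n, s i * ‖x i‖ ≤ ‖(ContinuousLinearMap.adjoint (TT R) ^ n) x‖ := by
    intro n
    have h3 := lp.norm_apply_le_norm (p := 2) (by norm_num)
      ((ContinuousLinearMap.adjoint (TT R) ^ n) x) i
    rw [adj_TT_pow_apply] at h3
    exact ((R i).norm_adjoint_T_pow_ge n _).trans h3
  have h3 := ge_of_tendsto' h1 h2
  have h4 : 0 < s i * ‖x i‖ := mul_pos (R i).hs (norm_pos_iff.mpr hi)
  linarith

lemma XX_comp : (XX R).comp (TT R) = (WW R).comp (XX R) := by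
  ext x i
  have h := congrArg (fun A : K i →L[ℂ] K i => A (x i)) (R i).X_T
  exact h

lemma XX_dense : DenseRange (XX R) := by
  have h : (LinearMap.range (XX R : lp K 2 →ₗ[ℂ] lp K 2)).topologicalClosure = ⊤ := by
    apply eq_top_of_single _ (Submodule.isClosed_topologicalClosure _) (fun _ => ⊤)
    · intro i
      rw [eq_top_iff]
      exact Submodule.le_topologicalClosure _
    · intro i x _
      apply Submodule.le_topologicalClosure
      refine ⟨lp.single 2 i ((R i).Xi x), ?_⟩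
      have h1 : XX R (lp.single 2 i ((R i).Xi x)) = lp.single 2 i ((R i).X ((R i).Xi x)) :=
        mapCLM_single _ _ _ i _
      have h2 : (R i).X ((R i).Xi x) = x := by
        rw [← mul_apply_eq_comp, (R i).X_Xi, one_apply_eq_self]
      rw [h2] at h1
      exact h1
  have h2 := congrArg (fun G : Submodule ℂ (lp K 2) => (G : Set (lp K 2))) h
  simp only [Submodule.topologicalClosure_coe, Submodule.top_coe] at h2
  rw [DenseRange, dense_iff_closure_eq]
  exact h2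

/-- a similarity would make `T` bounded below -/
lemma no_similarity (hs : Tendsto s atTop (𝓝 0)) :
    ¬ ∃ S : lp K 2 ≃L[ℂ] lp K 2, ∀ v, S (TT R v) = WW R (S v) := by
  rintro ⟨S, hS⟩
  have h1 : ∀ v : lp K 2, ‖v‖ ≤ ‖(S.symm : lp K 2 →L[ℂ] lp K 2)‖ * ‖(S : lp K 2 →L[ℂ] lp K 2)‖ * ‖TT R v‖ := by
    intro v
    calc ‖v‖ = ‖(S.symm : lp K 2 →L[ℂ] lp K 2) (S v)‖ := by
          rw [ContinuousLinearEquiv.coe_coe, S.symm_apply_apply]
      _ ≤ ‖(S.symm : lp K 2 →L[ℂ] lp K 2)‖ * ‖S v‖ := ContinuousLinearMap.le_opNorm _ _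
      _ = ‖(S.symm : lp K 2 →L[ℂ] lp K 2)‖ * ‖WW R (S v)‖ := by
          have := norm_WW_pow R 1 (S v)
          rw [pow_one] at this
          rw [this]
      _ = ‖(S.symm : lp K 2 →L[ℂ] lp K 2)‖ * ‖(S : lp K 2 →L[ℂ] lp K 2) (TT R v)‖ := by
          rw [← hS, ContinuousLinearEquiv.coe_coe]
      _ ≤ ‖(S.symm : lp K 2 →L[ℂ] lp K 2)‖ * (‖(S : lp K 2 →L[ℂ] lp K 2)‖ * ‖TT R v‖) := by
          gcongr
          exact ContinuousLinearMap.le_opNorm _ _
      _ = _ := by ring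
  set C := ‖(S.symm : lp K 2 →L[ℂ] lp K 2)‖ * ‖(S : lp K 2 →L[ℂ] lp K 2)‖ with hC
  have h2 : ∀ i, 1 ≤ C * s i := by
    intro i
    have h3 := h1 (lp.single 2 i ((R i).E 0 (-1)))
    have h4 : TT R (lp.single 2 i ((R i).E 0 (-1))) = lp.single 2 i ((R i).T ((R i).E 0 (-1))) :=
      mapCLM_single _ _ _ i _
    rw [h4, norm_single, norm_single, (R i).norm_E, (R i).T_low, norm_smul, (R i).norm_E, mul_one,
      Complex.norm_real, Real.norm_eq_abs, abs_of_pos (R i).hs] at h3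
    exact h3
  have h3 := ge_of_tendsto' (hs.const_mul C) h2
  rw [mul_zero] at h3
  linarith

/-- the dense submodule on which `T^n` and `W^n X` agree during the windows -/
def Dsub : Submodule ℂ (lp K 2) where
  carrier := {x | ∃ l0 : ℕ, ∀ l, l0 ≤ l → ∀ n, wdw l ≤ n → n ≤ wdw l + l →
      (TT R ^ n) x = (WW R ^ n) (XX R x)}
  zero_mem' := ⟨0, fun l _ n _ _ => by simp⟩
  add_mem' := by
    rintro a b ⟨la, ha⟩ ⟨lb, hb⟩
    refine ⟨max la lb, fun l hl n h1 h2 => ?_⟩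
    rw [map_add, map_add, map_add, ha l (le_trans (le_max_left _ _) hl) n h1 h2,
      hb l (le_trans (le_max_right _ _) hl) n h1 h2]
  smul_mem' := by
    rintro a x ⟨l0, hx⟩
    refine ⟨l0, fun l hl n h1 h2 => ?_⟩
    rw [map_smul, map_smul, map_smul, hx l hl n h1 h2]

lemma Dsub_dense : (Dsub R).topologicalClosure = ⊤ := by
  apply eq_top_of_single _ (Submodule.isClosed_topologicalClosure _)
    (fun i => (Submodule.span ℂ (Set.range ((R i).E 0))).map ((R i).Xi : K i →ₗ[ℂ] K i))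
  · intro i
    rw [eq_top_iff]
    intro x _
    have h1 : (R i).X x ∈ closure ((Submodule.span ℂ (Set.range ((R i).E 0)) : Submodule ℂ (K i)) : Set (K i)) := by
      have := (R i).r3
      have h2 : (R i).X x ∈ (Submodule.span ℂ (Set.range ((R i).E 0))).topologicalClosure := by
        rw [this]; trivial
      exact h2
    have h2 : (R i).Xi ((R i).X x) = x := by
      rw [← mul_apply_eq_comp, (R i).Xi_X, one_apply_eq_self]
    have h3 := image_closure_subset_closure_image (R i).Xi.continuous (Set.mem_image_of_mem (R i).Xi h1)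
    rw [h2] at h3
    exact h3
  · rintro i x ⟨y, hy, rfl⟩
    apply Submodule.le_topologicalClosure
    obtain ⟨l0, h⟩ := (R i).T_window hy
    refine ⟨l0, fun l hl n h1 h2 => ?_⟩
    have h3 := h l hl n h1 h2
    unfold TT WW XX
    rw [mapCLM_pow_single, mapCLM_single, mapCLM_pow_single]
    exact congrArg _ h3

/-- along the windows the norms converge -/
lemma window_norm (x : lp K 2) {ε : ℝ} (hε : 0 < ε) :
    ∀ᶠ l in atTop, ∀ n, wdw l ≤ n → n ≤ wdw l + l →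
      |‖(TT R ^ n) x‖ ^ 2 - ‖XX R x‖ ^ 2| ≤ ε := by
  have hx : x ∈ closure ((Dsub R : Submodule ℂ (lp K 2)) : Set (lp K 2)) := by
    have h : x ∈ (Dsub R).topologicalClosure := by rw [Dsub_dense R]; trivial
    exact h
  set M := 3 * ‖x‖ + 1 with hM
  have hMp : 0 < M := by positivity
  obtain ⟨y, hy, hxy⟩ := Metric.mem_closure_iff.mp hx (ε / (3 * M)) (by positivity)
  obtain ⟨l0, hl0⟩ := hy
  rw [dist_eq_norm] at hxy
  filter_upwards [eventually_ge_atTop l0] with l hl n h1 h2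
  have h3 := hl0 l hl n h1 h2
  have hX1 : ∀ z, ‖XX R z‖ ≤ ‖z‖ := by
    intro z
    apply norm_le_of_apply
    intro i
    rw [XX_apply]
    exact (R i).norm_X_le _
  have h4 : |‖(TT R ^ n) x‖ - ‖(TT R ^ n) y‖| ≤ 2 * ‖x - y‖ := by
    refine (abs_norm_sub_norm_le _ _).trans ?_
    rw [← map_sub]
    exact norm_TT_pow R n _
  have h5 : |‖XX R x‖ - ‖XX R y‖| ≤ ‖x - y‖ := by
    refine (abs_norm_sub_norm_le _ _).trans ?_
    rw [← map_sub]
    exact hX1 _
  have h6 : ‖(TT R ^ n) y‖ = ‖XX R y‖ := by rw [h3, norm_WW_pow]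
  have h7 : |‖(TT R ^ n) x‖ - ‖XX R x‖| ≤ 3 * ‖x - y‖ := by
    rw [abs_le] at h4 h5 ⊢
    constructor <;> linarith [h4.1, h4.2, h5.1, h5.2]
  have h8 : ‖(TT R ^ n) x‖ + ‖XX R x‖ ≤ M := by
    have := norm_TT_pow R n x
    have := hX1 x
    rw [hM]
    linarith
  rw [sq_sub_sq, abs_mul, abs_of_nonneg (by positivity : 0 ≤ ‖(TT R ^ n) x‖ + ‖XX R x‖)]
  calc (‖(TT R ^ n) x‖ + ‖XX R x‖) * |‖(TT R ^ n) x‖ - ‖XX R x‖| ≤ M * (3 * ‖x - y‖) := by gcongr
    _ ≤ M * (3 * (ε / (3 * M))) := by gcongr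
    _ = ε := by field_simp

end Fam

end Pool.Agent.H55
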