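import Mathlib

/-!
Module SING: three measure theoretic lemmas on measures on the unit circle.
-/

set_option autoImplicit false

open scoped InnerProductSpace
open MeasureTheory

namespace Pool.Agent.H55

namespace Sing

theorem integrable_of_sphere {μ : Measure ℂ} [IsFiniteMeasure μ]
    (hμ : μ (Metric.sphere (0 : ℂ) 1)ᶜ = 0) {E : Type} [NormedAddCommGroup E]
    [SecondCountableTopology E] {f : ℂ → E} (hf : Continuous f) : Integrable f μ := by
  obtain ⟨C, hC⟩ := (isCompact_sphere (0 : ℂ) 1).exists_bound_of_continuousOn hf.continuousOn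
  refine Integrable.of_bound hf.aestronglyMeasurable C ?_
  have h1 : ∀ᵐ z ∂μ, z ∈ Metric.sphere (0 : ℂ) 1 := by
    rw [ae_iff]; exact hμ
  filter_upwards [h1] with z hz
  exact hC z hz

theorem ae_sphere {μ : Measure ℂ} (hμ : μ (Metric.sphere (0 : ℂ) 1)ᶜ = 0) :
    ∀ᵐ z ∂μ, ‖z‖ = 1 := by
  have h1 : ∀ᵐ z ∂μ, z ∈ Metric.sphere (0 : ℂ) 1 := by
    rw [ae_iff]; exact hμ
  filter_upwards [h1] with z hz
  simpa using hz

end Sing

open Sing

theorem mutuallySingular_of_approx {μ ν : Measure ℂ} [IsFiniteMeasure μ] [IsFiniteMeasure ν]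
    (hμ : μ (Metric.sphere (0 : ℂ) 1)ᶜ = 0) (hν : ν (Metric.sphere (0 : ℂ) 1)ᶜ = 0)
    (h : ∀ ε > 0, ∃ p : Polynomial ℂ, ∫ z, ‖p.eval z‖ ^ 2 ∂μ ≤ ε ∧
      ∫ z, ‖1 - p.eval z‖ ^ 2 ∂ν ≤ ε) : μ ⟂ₘ ν := by
  have h' : ∀ k : ℕ, ∃ p : Polynomial ℂ, ∫ z, ‖p.eval z‖ ^ 2 ∂μ ≤ (1 / 2 : ℝ) ^ k / 4 ∧
      ∫ z, ‖1 - p.eval z‖ ^ 2 ∂ν ≤ (1 / 2 : ℝ) ^ k / 4 := fun k => h _ (by positivity)
  choose p hp1 hp2 using h'
  -- Markov
  have key : ∀ (ρ : Measure ℂ) [IsFiniteMeasure ρ] (_ : ρ (Metric.sphere (0 : ℂ) 1)ᶜ = 0)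
      (f : ℕ → ℂ → ℂ) (_ : ∀ k, Continuous (f k))
      (_ : ∀ k, ∫ z, ‖f k z‖ ^ 2 ∂ρ ≤ (1 / 2 : ℝ) ^ k / 4),
      ρ (Filter.limsup (fun k => {z | (1 / 4 : ℝ) ≤ ‖f k z‖ ^ 2}) Filter.atTop) = 0 := by
    intro ρ _ hρ f hf hfi
    apply measure_limsup_atTop_eq_zero
    have h1 : ∀ k, ρ {z | (1 / 4 : ℝ) ≤ ‖f k z‖ ^ 2} ≤ ENNReal.ofReal ((1 / 2 : ℝ) ^ k) := by
      intro k
      have h2 := mul_meas_ge_le_integral_of_nonneg (μ := ρ) (f := fun z => ‖f k z‖ ^ 2)
        (Filter.Eventually.of_forall fun z => by positivity)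
        (integrable_of_sphere hρ ((hf k).norm.pow 2)) (1 / 4)
      have h3 : ρ.real {z | (1 / 4 : ℝ) ≤ ‖f k z‖ ^ 2} ≤ (1 / 2 : ℝ) ^ k := by
        have := hfi k
        linarith
      rw [← ofReal_measureReal]
      exact ENNReal.ofReal_le_ofReal h3
    have h4 : ∑' k : ℕ, ENNReal.ofReal ((1 / 2 : ℝ) ^ k) ≠ ⊤ := by
      rw [← ENNReal.ofReal_tsum_of_nonneg (fun k => by positivity) summable_geometric_two]
      exact ENNReal.ofReal_ne_top
    exact ne_top_of_le_ne_top h4 (ENNReal.tsum_le_tsum h1)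
  have hA := key μ hμ (fun k z => (p k).eval z) (fun k => (p k).continuous) hp1
  have hB := key ν hν (fun k z => 1 - (p k).eval z)
    (fun k => continuous_const.sub (p k).continuous) hp2
  refine ⟨Filter.limsup (fun k => {z | (1 / 4 : ℝ) ≤ ‖(p k).eval z‖ ^ 2}) Filter.atTop,
    ?_, hA, ?_⟩
  · refine MeasurableSet.measurableSet_limsup fun k => ?_
    exact (isClosed_le continuous_const ((p k).continuous.norm.pow 2)).measurableSet
  · refine measure_mono_null ?_ hB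
    intro z hz
    rw [Set.mem_compl_iff, Filter.limsup_eq_iInf_iSup_of_nat] at hz
    rw [Filter.limsup_eq_iInf_iSup_of_nat]
    simp only [Set.iInf_eq_iInter, Set.iSup_eq_iUnion, Set.mem_iInter, Set.mem_iUnion,
      Set.mem_ofPred_eq, not_forall, not_exists, exists_prop, not_and, not_le] at hz ⊢
    obtain ⟨N, hN⟩ := hz
    intro n
    refine ⟨max n N, le_max_left _ _, ?_⟩
    have h1 := hN (max n N) (le_max_right _ _)
    have h2 : ‖(p (max n N)).eval z‖ < 1 / 2 := by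
      by_contra hcon
      push Not at hcon
      nlinarith [norm_nonneg ((p (max n N)).eval z)]
    have h3 : 1 / 2 ≤ ‖1 - (p (max n N)).eval z‖ := by
      have := norm_sub_norm_le (1 : ℂ) ((p (max n N)).eval z)
      rw [norm_one] at this
      linarith
    nlinarith [norm_nonneg (1 - (p (max n N)).eval z)]

theorem poly_moment {K : Type} [NormedAddCommGroup K] [InnerProductSpace ℂ K] [CompleteSpace K]
    (W : K →L[ℂ] K) (hW : W ∈ unitary (K →L[ℂ] K)) (y : K) (μ : Measure ℂ) [IsFiniteMeasure μ]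
    (hμ : μ (Metric.sphere (0 : ℂ) 1)ᶜ = 0)
    (hmom : ∀ n : ℕ, ∫ z, z ^ n ∂μ = ⟪y, (W ^ n) y⟫_ℂ) (p : Polynomial ℂ) :
    ∫ z, ‖p.eval z‖ ^ 2 ∂μ = ‖(Polynomial.aeval W p) y‖ ^ 2 := by
  have hWn : ∀ (n : ℕ) (a b : K), ⟪(W ^ n) a, (W ^ n) b⟫_ℂ = ⟪a, b⟫_ℂ := by
    intro n a b
    have h1 : W ^ n ∈ unitary (K →L[ℂ] K) := pow_mem hW n
    rw [← ContinuousLinearMap.adjoint_inner_right, ← ContinuousLinearMap.star_eq_adjoint]
    have h2 : star (W ^ n) * W ^ n = 1 := (Unitary.mem_iff.mp h1).1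
    have h3 : (star (W ^ n)) ((W ^ n) b) = b := by
      show (star (W ^ n) * W ^ n) b = b
      rw [h2]; rfl
    rw [h3]
  have hae := ae_sphere hμ
  have hmom2 : ∀ k l : ℕ, k ≤ l →
      ∫ z, (starRingEnd ℂ) (z ^ k) * z ^ l ∂μ = ⟪(W ^ k) y, (W ^ l) y⟫_ℂ := by
    intro k l hkl
    obtain ⟨d, rfl⟩ := Nat.exists_eq_add_of_le hkl
    rw [pow_add W, show (W ^ k * W ^ d) y = (W ^ k) ((W ^ d) y) from rfl, hWn, ← hmom d]
    refine integral_congr_ae ?_
    filter_upwards [hae] with z hz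
    have h1 : (starRingEnd ℂ) (z ^ k) * z ^ k = 1 := by
      rw [Complex.conj_mul', norm_pow, hz]
      simp
    rw [pow_add, ← mul_assoc, h1, one_mul]
  have hmom3 : ∀ k l : ℕ,
      ∫ z, (starRingEnd ℂ) (z ^ k) * z ^ l ∂μ = ⟪(W ^ k) y, (W ^ l) y⟫_ℂ := by
    intro k l
    rcases le_total k l with hkl | hkl
    · exact hmom2 k l hkl
    · have h1 := hmom2 l k hkl
      have h2 := congrArg (starRingEnd ℂ) h1
      rw [inner_conj_symm, ← integral_conj] at h2
      rw [← h2]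
      refine integral_congr_ae (Filter.Eventually.of_forall fun z => ?_)
      simp only [map_mul, Complex.conj_conj]
      ring
  set n := p.natDegree + 1 with hn
  have hL : ((∫ z, ‖p.eval z‖ ^ 2 ∂μ : ℝ) : ℂ) = ∑ i ∈ Finset.range n, ∑ j ∈ Finset.range n,
      (starRingEnd ℂ) (p.coeff i) * p.coeff j * ⟪(W ^ i) y, (W ^ j) y⟫_ℂ := by
    rw [← integral_complex_ofReal]
    have h1 : ∀ z : ℂ, ((‖p.eval z‖ ^ 2 : ℝ) : ℂ) = ∑ i ∈ Finset.range n, ∑ j ∈ Finset.range n,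
        (starRingEnd ℂ) (p.coeff i) * p.coeff j * ((starRingEnd ℂ) (z ^ i) * z ^ j) := by
      intro z
      rw [Complex.ofReal_pow, ← Complex.conj_mul', Polynomial.eval_eq_sum_range, map_sum,
        Finset.sum_mul_sum]
      refine Finset.sum_congr rfl fun i _ => Finset.sum_congr rfl fun j _ => ?_
      rw [map_mul]; ring
    simp_rw [h1]
    rw [integral_finsetSum]
    · refine Finset.sum_congr rfl fun i _ => ?_
      rw [integral_finsetSum]
      · refine Finset.sum_congr rfl fun j _ => ?_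
        rw [integral_const_mul, hmom3]
      · intro j _
        refine integrable_of_sphere hμ ?_
        fun_prop
    · intro i _
      refine integrable_of_sphere hμ ?_
      fun_prop
  have hR : ((‖(Polynomial.aeval W p) y‖ ^ 2 : ℝ) : ℂ) =
      ∑ i ∈ Finset.range n, ∑ j ∈ Finset.range n,
      (starRingEnd ℂ) (p.coeff i) * p.coeff j * ⟪(W ^ i) y, (W ^ j) y⟫_ℂ := by
    have h1 : (Polynomial.aeval W p) y = ∑ i ∈ Finset.range n, p.coeff i • (W ^ i) y := by
      rw [Polynomial.aeval_eq_sum_range, _root_.sum_apply]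
      rfl
    have h2 : ((‖(Polynomial.aeval W p) y‖ ^ 2 : ℝ) : ℂ) =
        ⟪(Polynomial.aeval W p) y, (Polynomial.aeval W p) y⟫_ℂ := by
      rw [inner_self_eq_norm_sq_to_K]
      push_cast
      rfl
    rw [h2, h1, sum_inner]
    refine Finset.sum_congr rfl fun i _ => ?_
    rw [inner_sum]
    refine Finset.sum_congr rfl fun j _ => ?_
    rw [inner_smul_left, inner_smul_right]
    ring
  exact_mod_cast hL.trans hR.symm

theorem lebesgue_moment (M : ℕ → ℕ) (hM : Function.Injective M) (J : ℕ) (hJ : 0 < J) :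
    ∫ z, ‖(((J : ℂ)⁻¹) • ∑ j ∈ Finset.range J, (Polynomial.X ^ (M j) : Polynomial ℂ)).eval z‖ ^ 2
      ∂(Measure.map (fun t : ℝ => Complex.exp ((t : ℂ) * Complex.I))
          (volume.restrict (Set.Ioc 0 (2 * Real.pi)))) = 2 * Real.pi / J := by
  rw [integral_map (by fun_prop) (by
    refine Continuous.aestronglyMeasurable ?_
    exact ((Polynomial.continuous _).norm.pow 2))]
  have hpi := Real.pi_pos
  have hexp : ∀ k l : ℕ, k ≠ l → ∫ t in Set.Ioc 0 (2 * Real.pi),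
      Complex.exp ((((k : ℤ) - l : ℤ) : ℂ) * Complex.I * (t : ℂ)) = 0 := by
    intro k l hkl
    rw [← intervalIntegral.integral_of_le (by positivity)]
    have hne : (((k : ℤ) - l : ℤ) : ℂ) * Complex.I ≠ 0 := by
      refine mul_ne_zero ?_ Complex.I_ne_zero
      rw [Int.cast_ne_zero, sub_ne_zero]
      exact_mod_cast hkl
    rw [integral_exp_mul_complex hne]
    have h1 : (((k : ℤ) - l : ℤ) : ℂ) * Complex.I * ((2 * Real.pi : ℝ) : ℂ) =
        (((k : ℤ) - l : ℤ) : ℂ) * (2 * Real.pi * Complex.I) := by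
      push_cast; ring
    rw [h1, Complex.exp_int_mul_two_pi_mul_I]
    simp
  have h1 : ∀ t : ℝ, ((‖(((J : ℂ)⁻¹) • ∑ j ∈ Finset.range J,
      (Polynomial.X ^ (M j) : Polynomial ℂ)).eval (Complex.exp ((t : ℂ) * Complex.I))‖ ^ 2 : ℝ) : ℂ)
      = ∑ i ∈ Finset.range J, ∑ j ∈ Finset.range J, ((J : ℂ)⁻¹) ^ 2 *
        Complex.exp ((((M j : ℤ) - M i : ℤ) : ℂ) * Complex.I * (t : ℂ)) := by
    intro t
    rw [Complex.ofReal_pow, ← Complex.conj_mul', Polynomial.eval_smul, Polynomial.eval_finsetSum,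
      smul_eq_mul, map_mul, map_sum]
    simp only [Polynomial.eval_pow, Polynomial.eval_X]
    rw [show (starRingEnd ℂ) (J : ℂ)⁻¹ * (∑ x ∈ Finset.range J,
        (starRingEnd ℂ) (Complex.exp ((t : ℂ) * Complex.I) ^ M x)) *
        ((J : ℂ)⁻¹ * ∑ i ∈ Finset.range J, Complex.exp ((t : ℂ) * Complex.I) ^ M i) =
        ((J : ℂ)⁻¹) ^ 2 * ((∑ x ∈ Finset.range J,
        (starRingEnd ℂ) (Complex.exp ((t : ℂ) * Complex.I) ^ M x)) *
        ∑ i ∈ Finset.range J, Complex.exp ((t : ℂ) * Complex.I) ^ M i) by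
          rw [map_inv₀, Complex.conj_natCast]; ring]
    rw [Finset.sum_mul_sum, Finset.mul_sum]
    refine Finset.sum_congr rfl fun i _ => ?_
    rw [Finset.mul_sum]
    refine Finset.sum_congr rfl fun j _ => ?_
    congr 1
    rw [← Complex.exp_nat_mul, ← Complex.exp_nat_mul, ← Complex.exp_conj, ← Complex.exp_add]
    congr 1
    simp only [map_mul, Complex.conj_natCast, Complex.conj_ofReal, Complex.conj_I]
    push_cast
    ring
  have h2 : ((∫ t in Set.Ioc 0 (2 * Real.pi), ‖(((J : ℂ)⁻¹) • ∑ j ∈ Finset.range J,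
      (Polynomial.X ^ (M j) : Polynomial ℂ)).eval (Complex.exp ((t : ℂ) * Complex.I))‖ ^ 2 : ℝ) : ℂ)
      = ((2 * Real.pi / J : ℝ) : ℂ) := by
    rw [← integral_complex_ofReal]
    simp_rw [h1]
    have hint : ∀ i j : ℕ, IntegrableOn (fun t : ℝ => ((J : ℂ)⁻¹) ^ 2 *
        Complex.exp ((((M j : ℤ) - M i : ℤ) : ℂ) * Complex.I * (t : ℂ)))
        (Set.Ioc 0 (2 * Real.pi)) := by
      intro i j
      refine (Continuous.integrableOn_Icc ?_).mono_set Set.Ioc_subset_Icc_self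
      fun_prop
    rw [integral_finsetSum _ (fun i _ => integrable_finsetSum _ fun j _ => hint i j)]
    have h3 : ∀ i ∈ Finset.range J, ∫ t in Set.Ioc 0 (2 * Real.pi),
        ∑ j ∈ Finset.range J, ((J : ℂ)⁻¹) ^ 2 *
          Complex.exp ((((M j : ℤ) - M i : ℤ) : ℂ) * Complex.I * (t : ℂ)) =
        ((J : ℂ)⁻¹) ^ 2 * (2 * Real.pi) := by
      intro i hi
      rw [integral_finsetSum _ (fun j _ => hint i j), Finset.sum_eq_single_of_mem i hi]
      · rw [integral_const_mul]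
        congr 1
        rw [sub_self]
        simp only [Int.cast_zero, zero_mul, Complex.exp_zero]
        rw [setIntegral_const]
        simp [Real.volume_real_Ioc_of_le (show (0 : ℝ) ≤ 2 * Real.pi by positivity)]
      · intro j _ hji
        rw [integral_const_mul, hexp (M j) (M i) (fun h => hji (hM h)), mul_zero]
    rw [Finset.sum_congr rfl h3, Finset.sum_const, Finset.card_range, nsmul_eq_mul]
    have hJ' : (J : ℂ) ≠ 0 := by exact_mod_cast hJ.ne'
    push_cast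
    field_simp
  exact_mod_cast h2

end Pool.Agent.H55
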