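import Pool.Agent.H55.Sim6
import Pool.Agent.H55.SimSing

set_option autoImplicit false

namespace Pool.Agent.H55

open scoped InnerProductSpace
open Filter Topology MeasureTheory

section General

variable {E : Type} [NormedAddCommGroup E] [NormedSpace ℂ E]

/-- the submodule of strong convergence -/
def convSub (A : ℕ → E →L[ℂ] E) (D : E →L[ℂ] E) : Submodule ℂ E where
  carrier := {x | Tendsto (fun n => A n x) atTop (𝓝 (D x))}
  zero_mem' := by simp
  add_mem' := by
    intro a b ha hb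
    simp only [Set.mem_ofPred_eq] at *
    simpa using ha.add hb
  smul_mem' := by
    intro a x hx
    simp only [Set.mem_ofPred_eq] at *
    simpa using hx.const_smul a

lemma convSub_closed (A : ℕ → E →L[ℂ] E) (D : E →L[ℂ] E) (C : ℝ) (hA : ∀ n x, ‖A n x‖ ≤ C * ‖x‖)
    (hD : ∀ x, ‖D x‖ ≤ C * ‖x‖) : IsClosed (convSub A D : Set E) := by
  rw [← closure_subset_iff_isClosed]
  intro x hx
  show Tendsto (fun n => A n x) atTop (𝓝 (D x))
  rw [Metric.tendsto_atTop]
  intro ε hε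
  set M := |C| + 1 with hM
  have hMp : 0 < M := by positivity
  have hCM : C ≤ M := (le_abs_self C).trans (by rw [hM]; linarith)
  obtain ⟨y, hy, hxy⟩ := Metric.mem_closure_iff.mp hx (ε / (4 * M)) (by positivity)
  have hy' : Tendsto (fun n => A n y) atTop (𝓝 (D y)) := hy
  obtain ⟨N, hN⟩ := Metric.tendsto_atTop.mp hy' (ε / 2) (by positivity)
  refine ⟨N, fun n hn => ?_⟩
  have h1 := hN n hn
  rw [dist_eq_norm] at *
  have h2 : A n x - D x = A n (x - y) + (A n y - D y) - D (x - y) := by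
    rw [map_sub, map_sub]; abel
  have h3 : ‖A n (x - y)‖ ≤ M * ‖x - y‖ := (hA n _).trans (by gcongr)
  have h4 : ‖D (x - y)‖ ≤ M * ‖x - y‖ := (hD _).trans (by gcongr)
  have h5 : M * ‖x - y‖ < ε / 4 := by
    calc M * ‖x - y‖ < M * (ε / (4 * M)) := by gcongr
      _ = ε / 4 := by field_simp
  rw [h2]
  have h6 := norm_sub_le (A n (x - y) + (A n y - D y)) (D (x - y))
  have h7 := norm_add_le (A n (x - y)) (A n y - D y)
  linarith

lemma tendsto_pow_apply (B : ℕ → E →L[ℂ] E) (D : E →L[ℂ] E) (C : ℝ) (hB : ∀ n x, ‖B n x‖ ≤ C * ‖x‖)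
    (h : ∀ x, Tendsto (fun J => B J x) atTop (𝓝 (D x))) (n : ℕ) (x : E) :
    Tendsto (fun J => (B J ^ n) x) atTop (𝓝 ((D ^ n) x)) := by
  induction n with
  | zero => simp
  | succ n ih =>
    have h1 : Tendsto (fun J => B J ((B J ^ n) x - (D ^ n) x)) atTop (𝓝 0) := by
      have h2 : Tendsto (fun J => C * ‖(B J ^ n) x - (D ^ n) x‖) atTop (𝓝 0) := by
        have h3 : Tendsto (fun J => (B J ^ n) x - (D ^ n) x) atTop (𝓝 0) := by
          have := ih.sub_const ((D ^ n) x)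
          rwa [sub_self] at this
        have h4 := h3.norm.const_mul C
        rwa [norm_zero, mul_zero] at h4
      exact squeeze_zero_norm (fun J => hB J _) h2
    have h2 := h1.add (h ((D ^ n) x))
    rw [zero_add, ← mul_apply_eq_comp, ← pow_succ'] at h2
    refine h2.congr fun J => ?_
    rw [map_sub, sub_add_cancel, ← mul_apply_eq_comp, ← pow_succ']

end General

lemma norm_one_sub_pow_le {q : ℂ} (hq : ‖q‖ ≤ 1) (n : ℕ) : ‖1 - (1 - q) ^ n‖ ≤ 2 ^ n * ‖q‖ := by
  have h1 : 1 - (1 - q) ^ n = q * ∑ i ∈ Finset.range n, (1 - q) ^ i := by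
    have := mul_neg_geom_sum (1 - q) n
    rw [← this]
    ring
  rw [h1, norm_mul, mul_comm]
  gcongr
  refine (norm_sum_le _ _).trans ?_
  have h2 : ∀ i ∈ Finset.range n, ‖(1 - q) ^ i‖ ≤ 2 ^ i := by
    intro i _
    rw [norm_pow]
    gcongr
    refine (norm_sub_le _ _).trans ?_
    rw [norm_one]
    linarith
  refine (Finset.sum_le_sum h2).trans ?_
  have h3 := Nat.geomSum_eq (le_refl 2) n
  have h4 : ((∑ i ∈ Finset.range n, 2 ^ i : ℕ) : ℝ) ≤ 2 ^ n := by
    have h5 : (∑ i ∈ Finset.range n, 2 ^ i : ℕ) ≤ 2 ^ n := by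
      rw [h3]
      exact (Nat.div_le_self _ _).trans (Nat.sub_le _ _)
    exact_mod_cast h5
  push_cast at h4
  exact h4

section Fam

variable {K : ℕ → Type} [∀ i, NormedAddCommGroup (K i)] [∀ i, InnerProductSpace ℂ (K i)]
  [∀ i, CompleteSpace (K i)] {c s : ℕ → ℝ} (R : ∀ i, RSys (K i) (c i) (s i))

include R in
lemma cs_pos (i : ℕ) : 0 < c i * s i := mul_pos (R i).hc (R i).hs

include R in
lemma cs_lt_one (i : ℕ) : c i * s i < 1 := by
  have h1 := (R i).s_lt_one
  have h2 := (R i).c_lt_one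
  have h3 := (R i).hs
  have h4 := (R i).hc
  nlinarith

lemma norm_smul_one_le {E : Type} [NormedAddCommGroup E] [NormedSpace ℂ E] {a : ℝ} (ha : 0 ≤ a)
    (ha1 : a ≤ 1) : ‖(a : ℂ) • (1 : E →L[ℂ] E)‖ ≤ 1 := by
  refine ContinuousLinearMap.opNorm_le_bound _ (by norm_num) fun x => ?_
  rw [smul_apply, norm_smul, Complex.norm_real, Real.norm_eq_abs,
    abs_of_nonneg ha, one_apply_eq_self]
  gcongr

/-- the strong limit of the averages -/
noncomputable def DD : lp K 2 →L[ℂ] lp K 2 :=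
  lp.mapCLM 2 (fun i => ((c i * s i : ℝ) : ℂ) • (1 : K i →L[ℂ] K i)) (by norm_num : (0 : ℝ) ≤ 1)
    (fun i => norm_smul_one_le (cs_pos R i).le (cs_lt_one R i).le)

/-- `1 - D` -/
noncomputable def DD' : lp K 2 →L[ℂ] lp K 2 :=
  lp.mapCLM 2 (fun i => ((1 - c i * s i : ℝ) : ℂ) • (1 : K i →L[ℂ] K i)) (by norm_num : (0 : ℝ) ≤ 1)
    (fun i => norm_smul_one_le (by linarith [cs_lt_one R i]) (by linarith [cs_pos R i]))

lemma DD'_eq : DD' R = 1 - DD R := by
  ext x i
  have h1 : (DD' R x) i = ((1 - c i * s i : ℝ) : ℂ) • x i := rfl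
  have h2 : ((1 - DD R) x) i = x i - ((c i * s i : ℝ) : ℂ) • x i := rfl
  rw [h1, h2]
  push_cast
  rw [sub_smul, one_smul]

lemma norm_DD_le (x : lp K 2) : ‖DD R x‖ ≤ 1 * ‖x‖ := by
  have := lp.norm_mapCLM_le 2 (fun i => ((c i * s i : ℝ) : ℂ) • (1 : K i →L[ℂ] K i))
    (by norm_num : (0 : ℝ) ≤ 1) (fun i => norm_smul_one_le (cs_pos R i).le (cs_lt_one R i).le)
  exact ContinuousLinearMap.le_of_opNorm_le _ this x

lemma norm_DD'_le (x : lp K 2) : ‖DD' R x‖ ≤ 1 * ‖x‖ := by
  have := lp.norm_mapCLM_le 2 (fun i => ((1 - c i * s i : ℝ) : ℂ) • (1 : K i →L[ℂ] K i))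
    (by norm_num : (0 : ℝ) ≤ 1)
    (fun i => norm_smul_one_le (by linarith [cs_lt_one R i]) (by linarith [cs_pos R i]))
  exact ContinuousLinearMap.le_of_opNorm_le _ this x

/-- the averages -/
noncomputable def AA (J : ℕ) : lp K 2 →L[ℂ] lp K 2 :=
  ((J : ℂ)⁻¹) • ∑ j ∈ Finset.range J, WW R ^ (Mn j)

lemma AA_apply (J : ℕ) (x : lp K 2) :
    AA R J x = ((J : ℂ)⁻¹) • ∑ j ∈ Finset.range J, (WW R ^ (Mn j)) x := by
  unfold AA
  rw [smul_apply, sum_apply]

lemma norm_AA_le (J : ℕ) (x : lp K 2) : ‖AA R J x‖ ≤ 1 * ‖x‖ := by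
  rw [AA_apply, norm_smul, norm_inv, RCLike.norm_natCast, one_mul]
  have h1 : ‖∑ j ∈ Finset.range J, (WW R ^ (Mn j)) x‖ ≤ J * ‖x‖ := by
    refine (norm_sum_le _ _).trans ?_
    have : ∀ j ∈ Finset.range J, ‖(WW R ^ (Mn j)) x‖ ≤ ‖x‖ := fun j _ => (norm_WW_pow R _ x).le
    refine (Finset.sum_le_sum this).trans ?_
    simp
  rcases Nat.eq_zero_or_pos J with h0 | h0
  · subst h0
    simp
  · have h2 : (0 : ℝ) < J := by exact_mod_cast h0
    calc ((J : ℝ)⁻¹) * ‖∑ j ∈ Finset.range J, (WW R ^ (Mn j)) x‖ ≤ ((J : ℝ)⁻¹) * (J * ‖x‖) := by gcongr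
      _ = ‖x‖ := by field_simp

lemma AA_tendsto (x : lp K 2) : Tendsto (fun J => AA R J x) atTop (𝓝 (DD R x)) := by
  have h : convSub (AA R) (DD R) = ⊤ := by
    apply eq_top_of_single _ (convSub_closed _ _ 1 (norm_AA_le R) (norm_DD_le R))
      (fun i => Submodule.span ℂ (Set.range ((R i).E 0))) (fun i => (R i).r3)
    intro i x hx
    have h1 := (R i).avg_return hx
    have h2 : DD R (lp.single 2 i x) = lp.single 2 i (((c i * s i : ℝ) : ℂ) • x) :=
      mapCLM_single _ _ _ i _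
    show Tendsto (fun J => AA R J (lp.single 2 i x)) atTop (𝓝 (DD R (lp.single 2 i x)))
    rw [h2]
    have h3 := ((lp.singleContinuousLinearMap ℂ K 2 i).continuous.tendsto _).comp h1
    refine h3.congr fun J => ?_
    rw [AA_apply]
    unfold WW
    simp_rw [mapCLM_pow_single]
    show (lp.singleContinuousLinearMap ℂ K 2 i) _ = _
    rw [map_smul, map_sum]
    rfl
  have h2 : x ∈ convSub (AA R) (DD R) := by rw [h]; trivial
  exact h2

lemma DD'_pow_tendsto (x : lp K 2) : Tendsto (fun n => (DD' R ^ n) x) atTop (𝓝 0) := by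
  have hn : ∀ n (x : lp K 2), ‖(DD' R ^ n) x‖ ≤ 1 * ‖x‖ := by
    intro n
    induction n with
    | zero => intro x; simp
    | succ n ih =>
      intro x
      rw [pow_succ', mul_apply_eq_comp]
      refine (norm_DD'_le R _).trans ?_
      rw [one_mul]
      exact ih x
  have h : convSub (fun n => DD' R ^ n) 0 = ⊤ := by
    apply eq_top_of_single _ (convSub_closed _ _ 1 hn (by intro x; simp))
      (fun i => ⊤)
    · intro i
      rw [eq_top_iff]
      exact Submodule.le_topologicalClosure _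
    intro i x _
    show Tendsto (fun n => (DD' R ^ n) (lp.single 2 i x)) atTop (𝓝 0)
    have h2 : ∀ n, (DD' R ^ n) (lp.single 2 i x) = lp.single 2 i ((((1 - c i * s i : ℝ) : ℂ) ^ n) • x) := by
      intro n
      unfold DD'
      rw [mapCLM_pow_single, smul_pow, one_pow]
      rfl
    simp_rw [h2]
    rw [tendsto_zero_iff_norm_tendsto_zero]
    simp_rw [norm_single, norm_smul, norm_pow, Complex.norm_real]
    have h3 : Tendsto (fun n : ℕ => ‖(1 - c i * s i : ℝ)‖ ^ n) atTop (𝓝 0) := by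
      apply tendsto_pow_atTop_nhds_zero_of_lt_one (norm_nonneg _)
      rw [Real.norm_eq_abs, abs_of_nonneg (by linarith [cs_lt_one R i])]
      linarith [cs_pos R i]
    have h4 := h3.mul_const ‖x‖
    rwa [zero_mul] at h4
  have h2 : x ∈ convSub (fun n => DD' R ^ n) 0 := by rw [h]; trivial
  exact h2

lemma one_sub_AA_pow_tendsto (n : ℕ) (x : lp K 2) :
    Tendsto (fun J => ((1 - AA R J) ^ n) x) atTop (𝓝 ((DD' R ^ n) x)) := by
  apply tendsto_pow_apply (fun J => 1 - AA R J) (DD' R) 2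
  · intro J x
    have := norm_AA_le R J x
    rw [sub_apply, one_apply_eq_self]
    refine (norm_sub_le _ _).trans ?_
    linarith
  · intro x
    rw [DD'_eq]
    simp only [sub_apply, one_apply_eq_self]
    exact (AA_tendsto R x).const_sub x

/-- the averaging polynomial -/
noncomputable def qpol (J : ℕ) : Polynomial ℂ :=
  ((J : ℂ)⁻¹) • ∑ j ∈ Finset.range J, (Polynomial.X ^ (Mn j) : Polynomial ℂ)

lemma aeval_qpol (J : ℕ) : Polynomial.aeval (WW R) (qpol J) = AA R J := by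
  unfold qpol AA
  rw [map_smul, map_sum]
  simp

lemma norm_qpol_le (J : ℕ) {z : ℂ} (hz : ‖z‖ = 1) : ‖(qpol J).eval z‖ ≤ 1 := by
  unfold qpol
  rw [Polynomial.eval_smul, Polynomial.eval_finsetSum, norm_smul, norm_inv, RCLike.norm_natCast]
  have h1 : ‖∑ j ∈ Finset.range J, (Polynomial.X ^ (Mn j) : Polynomial ℂ).eval z‖ ≤ J := by
    refine (norm_sum_le _ _).trans ?_
    have : ∀ j ∈ Finset.range J, ‖(Polynomial.X ^ (Mn j) : Polynomial ℂ).eval z‖ ≤ 1 := by
      intro j _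
      rw [Polynomial.eval_pow, Polynomial.eval_X, norm_pow, hz, one_pow]
    refine (Finset.sum_le_sum this).trans ?_
    simp
  rcases Nat.eq_zero_or_pos J with h0 | h0
  · subst h0
    simp
  · have h2 : (0 : ℝ) < J := by exact_mod_cast h0
    calc ((J : ℝ)⁻¹) * _ ≤ ((J : ℝ)⁻¹) * J := by gcongr
      _ = 1 := by field_simp

/-- Lebesgue measure on the circle -/
noncomputable def nu : Measure ℂ := Measure.map (fun t : ℝ => Complex.exp ((t : ℂ) * Complex.I))
    (volume.restrict (Set.Ioc 0 (2 * Real.pi)))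

instance : IsFiniteMeasure nu := by
  unfold nu
  infer_instance

lemma nu_sphere : nu (Metric.sphere (0 : ℂ) 1)ᶜ = 0 := by
  unfold nu
  rw [Measure.map_apply (by fun_prop) (Metric.isClosed_sphere.measurableSet.compl)]
  have : (fun t : ℝ => Complex.exp ((t : ℂ) * Complex.I)) ⁻¹' (Metric.sphere (0 : ℂ) 1)ᶜ = ∅ := by
    ext t
    simp [Complex.norm_exp_ofReal_mul_I]
  rw [this, measure_empty]

lemma singular (y : lp K 2) (μ : Measure ℂ) [IsFiniteMeasure μ]
    (hμ : μ (Metric.sphere (0 : ℂ) 1)ᶜ = 0)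
    (hmom : ∀ n : ℕ, ∫ z, z ^ n ∂μ = ⟪y, (WW R ^ n) y⟫_ℂ) : μ ⟂ₘ nu := by
  apply mutuallySingular_of_approx hμ nu_sphere
  intro ε hε
  -- choose n
  have h1 := (DD'_pow_tendsto R y).norm
  rw [norm_zero] at h1
  have h1' : Tendsto (fun n => ‖(DD' R ^ n) y‖ ^ 2) atTop (𝓝 0) := by
    have := h1.pow 2
    rwa [zero_pow (by norm_num)] at this
  obtain ⟨n, hn⟩ := (h1'.eventually (gt_mem_nhds hε)).exists
  -- choose J
  have h2 := ((one_sub_AA_pow_tendsto R n y).norm).pow 2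
  have h3 := h2.eventually (gt_mem_nhds hn)
  have h4 : Tendsto (fun J : ℕ => (4 ^ n * (2 * Real.pi)) * ((J : ℝ)⁻¹)) atTop (𝓝 0) := by
    have := (tendsto_inv_atTop_nhds_zero_nat (𝕜 := ℝ)).const_mul (4 ^ n * (2 * Real.pi))
    rwa [mul_zero] at this
  have h5 := h4.eventually (gt_mem_nhds hε)
  obtain ⟨J, hJ1, hJ2, hJ3⟩ := (h3.and (h5.and (eventually_gt_atTop 0))).exists
  refine ⟨(1 - qpol J) ^ n, ?_, ?_⟩
  · rw [poly_moment (WW R) (WW_unitary R) y μ hμ hmom, map_pow, map_sub, map_one, aeval_qpol]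
    exact hJ1.le
  · calc ∫ z, ‖1 - ((1 - qpol J) ^ n).eval z‖ ^ 2 ∂nu
        ≤ ∫ z, 4 ^ n * ‖(qpol J).eval z‖ ^ 2 ∂nu := by
          apply integral_mono_ae
          · apply Sing.integrable_of_sphere nu_sphere
            exact ((continuous_const.sub (Polynomial.continuous _)).norm).pow 2
          · apply Sing.integrable_of_sphere nu_sphere
            exact continuous_const.mul ((Polynomial.continuous _).norm.pow 2)
          · filter_upwards [Sing.ae_sphere nu_sphere] with z hz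
            have h6 := norm_one_sub_pow_le (norm_qpol_le J hz) n
            rw [Polynomial.eval_pow, Polynomial.eval_sub, Polynomial.eval_one]
            calc ‖1 - (1 - (qpol J).eval z) ^ n‖ ^ 2 ≤ (2 ^ n * ‖(qpol J).eval z‖) ^ 2 := by gcongr
              _ = 4 ^ n * ‖(qpol J).eval z‖ ^ 2 := by
                rw [mul_pow, ← pow_mul, mul_comm n 2, pow_mul]
                norm_num
      _ = 4 ^ n * (2 * Real.pi / J) := by
          rw [integral_const_mul]
          congr 1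
          exact lebesgue_moment Mn Mn_injective J hJ3
      _ = (4 ^ n * (2 * Real.pi)) * ((J : ℝ)⁻¹) := by ring
      _ ≤ ε := hJ2.le

end Fam

end Pool.Agent.H55
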