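import Mathlib

/-!
# A Banach limit concentrated on prescribed windows
-/

open scoped BoundedContinuousFunction
open Filter Topology

namespace Pool.Agent.H55

/-- Average of `f` over the window `[w l, w l + l]`. -/
noncomputable def winAvg (w : ℕ → ℕ) (f : ℕ → ℝ) (l : ℕ) : ℝ :=
  (∑ n ∈ Finset.range (l + 1), f (w l + n)) / ((l : ℝ) + 1)

lemma abs_winAvg_le (w : ℕ → ℕ) (f : ℕ → ℝ) (C : ℝ) (h : ∀ n, |f n| ≤ C) (l : ℕ) :
    |winAvg w f l| ≤ C := by
  have hl : (0 : ℝ) < (l : ℝ) + 1 := by positivity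
  unfold winAvg
  rw [abs_div, abs_of_pos hl, div_le_iff₀ hl]
  calc |∑ n ∈ Finset.range (l + 1), f (w l + n)|
      ≤ ∑ n ∈ Finset.range (l + 1), |f (w l + n)| := Finset.abs_sum_le_sum_abs _ _
    _ ≤ ∑ _n ∈ Finset.range (l + 1), C := Finset.sum_le_sum fun n _ => h _
    _ = C * ((l : ℝ) + 1) := by
      rw [Finset.sum_const, Finset.card_range, nsmul_eq_mul]; push_cast; ring

lemma exists_lim (w : ℕ → ℕ) (f : ℕ →ᵇ ℝ) :
    ∃ a : ℝ, |a| ≤ ‖f‖ ∧ Tendsto (winAvg w f) (hyperfilter ℕ) (𝓝 a) := by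
  have h1 : ∀ l, winAvg w f l ∈ Set.Icc (-‖f‖) ‖f‖ := fun l =>
    abs_le.1 (abs_winAvg_le w f ‖f‖ (fun n => by
      have := f.norm_coe_le_norm n
      rwa [Real.norm_eq_abs] at this) l)
  have hc : IsCompact (Set.Icc (-‖f‖) ‖f‖) := isCompact_Icc
  have hle : ((hyperfilter ℕ).map (winAvg w f) : Filter ℝ) ≤ 𝓟 (Set.Icc (-‖f‖) ‖f‖) := by
    rw [le_principal_iff]
    exact Filter.mem_map.2 (Filter.univ_mem' h1)
  obtain ⟨a, ha, hlim⟩ := hc.ultrafilter_le_nhds ((hyperfilter ℕ).map (winAvg w f)) hle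
  exact ⟨a, abs_le.2 ha, hlim⟩

theorem exists_banach_limit (w : ℕ → ℕ) :
    ∃ L : (ℕ →ᵇ ℝ) →L[ℝ] ℝ, (∀ f : ℕ →ᵇ ℝ, (∀ n, 0 ≤ f n) → 0 ≤ L f) ∧
      L (BoundedContinuousFunction.const ℕ (1 : ℝ)) = 1 ∧
      (∀ f g : ℕ →ᵇ ℝ, (∀ n, g n = f (n + 1)) → L g = L f) ∧
      ∀ (f : ℕ →ᵇ ℝ) (a : ℝ),
        (∀ ε > 0, ∀ᶠ l in atTop, ∀ n, w l ≤ n → n ≤ w l + l → |f n - a| ≤ ε) → L f = a := by
  choose lim hbound hlim using exists_lim w
  have huniq : ∀ f : ℕ →ᵇ ℝ, ∀ a, Tendsto (winAvg w f) (hyperfilter ℕ) (𝓝 a) → lim f = a :=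
    fun f a h => tendsto_nhds_unique (hlim f) h
  have hle : (hyperfilter ℕ : Filter ℕ) ≤ atTop := by
    have := hyperfilter_le_cofinite (α := ℕ)
    rwa [Nat.cofinite_eq_atTop] at this
  let L₀ : (ℕ →ᵇ ℝ) →ₗ[ℝ] ℝ :=
    { toFun := lim
      map_add' := by
        intro f g
        apply huniq
        refine ((hlim f).add (hlim g)).congr fun l => ?_
        simp only [winAvg, BoundedContinuousFunction.coe_add, Pi.add_apply,
          Finset.sum_add_distrib, add_div]
      map_smul' := by
        intro c f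
        apply huniq
        refine ((hlim f).const_mul c).congr fun l => ?_
        simp only [winAvg, BoundedContinuousFunction.coe_smul, smul_eq_mul]
        rw [← Finset.mul_sum, mul_div_assoc] }
  let L : (ℕ →ᵇ ℝ) →L[ℝ] ℝ := L₀.mkContinuous 1 (by
    intro f
    rw [one_mul, Real.norm_eq_abs]
    exact hbound f)
  refine ⟨L, ?_, ?_, ?_, ?_⟩
  · intro f hf
    have h0 : ∀ l, 0 ≤ winAvg w f l := fun l =>
      div_nonneg (Finset.sum_nonneg fun n _ => hf _) (by positivity)
    exact ge_of_tendsto (hlim f) (Eventually.of_forall h0)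
  · apply huniq
    refine tendsto_const_nhds.congr fun l => ?_
    have hl : (l : ℝ) + 1 ≠ 0 := by positivity
    simp only [winAvg, BoundedContinuousFunction.const_apply, Finset.sum_const,
      Finset.card_range, nsmul_eq_mul, mul_one]
    push_cast
    rw [div_self hl]
  · intro f g hfg
    apply huniq
    have hdiff : Tendsto (fun l => winAvg w g l - winAvg w f l) (hyperfilter ℕ) (𝓝 0) := by
      refine Tendsto.mono_left ?_ hle
      have hb : ∀ l, |winAvg w g l - winAvg w f l| ≤ 2 * ‖f‖ / ((l : ℝ) + 1) := by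
        intro l
        have hl : (0 : ℝ) < (l : ℝ) + 1 := by positivity
        have h1 : winAvg w g l - winAvg w f l =
            (f (w l + (l + 1)) - f (w l)) / ((l : ℝ) + 1) := by
          unfold winAvg
          rw [← sub_div]
          congr 1
          have h2 : ∀ n, g (w l + n) = f (w l + (n + 1)) := fun n => by rw [hfg]; rfl
          simp_rw [h2]
          rw [Finset.sum_range_succ' (fun n => f (w l + n)), Finset.sum_range_succ
            (fun n => f (w l + (n + 1)))]
          simp only [add_zero]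
          rw [← Finset.sum_range_succ, Finset.sum_range_succ]
          ring
        rw [h1, abs_div, abs_of_pos hl]
        gcongr
        have h3 := f.norm_coe_le_norm (w l + (l + 1))
        have h4 := f.norm_coe_le_norm (w l)
        rw [Real.norm_eq_abs] at h3 h4
        calc |f (w l + (l + 1)) - f (w l)| ≤ |f (w l + (l + 1))| + |f (w l)| := abs_sub _ _
          _ ≤ 2 * ‖f‖ := by linarith
      apply squeeze_zero_norm hb
      have : Tendsto (fun l : ℕ => (l : ℝ) + 1) atTop atTop :=
        tendsto_atTop_add_const_right _ _ tendsto_natCast_atTop_atTop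
      exact Tendsto.div_atTop tendsto_const_nhds this
    have h5 : Tendsto (fun l => winAvg w g l - winAvg w f l + winAvg w f l) (hyperfilter ℕ)
        (𝓝 (0 + lim f)) := hdiff.add (hlim f)
    rw [zero_add] at h5
    refine h5.congr fun l => ?_
    ring
  · intro f a h
    apply huniq
    refine Tendsto.mono_left ?_ hle
    rw [Metric.tendsto_atTop']
    intro ε hε
    obtain ⟨N, hN⟩ := eventually_atTop.1 (h (ε / 2) (by linarith))
    refine ⟨N, fun l hl => ?_⟩
    have hl0 : (0 : ℝ) < (l : ℝ) + 1 := by positivity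
    have h1 : winAvg w f l - a = winAvg w (fun n => f n - a) l := by
      unfold winAvg
      rw [Finset.sum_sub_distrib, Finset.sum_const, Finset.card_range, nsmul_eq_mul, sub_div]
      push_cast
      field_simp
    rw [Real.dist_eq, h1]
    have h2 : |winAvg w (fun n => f n - a) l| ≤ ε / 2 := by
      unfold winAvg
      rw [abs_div, abs_of_pos hl0, div_le_iff₀ hl0]
      calc |∑ n ∈ Finset.range (l + 1), (f (w l + n) - a)|
          ≤ ∑ n ∈ Finset.range (l + 1), |f (w l + n) - a| := Finset.abs_sum_le_sum_abs _ _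
        _ ≤ ∑ _n ∈ Finset.range (l + 1), ε / 2 := by
            apply Finset.sum_le_sum
            intro n hn
            have := Finset.mem_range.1 hn
            exact hN l hl.le _ (by omega) (by omega)
        _ = ε / 2 * ((l : ℝ) + 1) := by
            rw [Finset.sum_const, Finset.card_range, nsmul_eq_mul]; push_cast; ring
    linarith

end Pool.Agent.H55
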