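import Mathlib
import Pool.Agent.H55.Sim2

set_option autoImplicit false

namespace Pool.Agent.H55

open scoped InnerProductSpace ComplexOrder
open MeasureTheory Filter Topology AddCircle

namespace SimEx

/-- the algebra of continuous functions on the circle -/
abbrev CA := C(UnitAddCircle, ℂ)

/-- characters -/
noncomputable def ch (n : ℤ) : CA := fourier n

lemma ch_add (m n : ℤ) : ch (m + n) = ch m * ch n := by
  ext x
  simp only [ch, ContinuousMap.mul_apply]
  exact fourier_add

lemma ch_zero : ch 0 = 1 := by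
  ext x
  simp only [ch, ContinuousMap.one_apply]
  exact fourier_zero

lemma star_ch (n : ℤ) : star (ch n) = ch (-n) := by
  ext x
  simp only [ch, ContinuousMap.star_apply]
  exact fourier_neg.symm

lemma norm_ch (n : ℤ) (x : UnitAddCircle) : ‖ch n x‖ = 1 := by
  unfold ch
  rw [fourier_apply, Circle.norm_coe]

/-- the integral against Haar measure -/
noncomputable def hI (f : CA) : ℂ := ∫ x, f x ∂haarAddCircle

lemma integrable_CA (f : CA) : Integrable (fun x => f x) (haarAddCircle (T := 1)) :=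
  f.continuous.integrable_of_hasCompactSupport (HasCompactSupport.of_compactSpace _)

lemma hI_add (f g : CA) : hI (f + g) = hI f + hI g :=
  integral_add (integrable_CA f) (integrable_CA g)

lemma hI_smul (a : ℂ) (f : CA) : hI (a • f) = a * hI f := by
  unfold hI
  simp only [ContinuousMap.smul_apply, smul_eq_mul]
  exact integral_const_mul a _

lemma hI_ch (n : ℤ) : hI (ch n) = if n = 0 then 1 else 0 := by
  unfold hI ch
  split_ifs with h
  · subst h
    simp
  · exact integral_eq_zero_of_add_right_eq_neg (μ := haarAddCircle)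
      (fourier_add_half_inv_index h one_pos)

lemma norm_hI_le (f g : CA) (hg : ∀ x, 0 ≤ (g x).re ∧ (g x).im = 0) :
    ‖hI (f * g)‖ ≤ ‖f‖ * ‖hI g‖ := by
  have h1 : ∀ x, ‖g x‖ = (g x).re := by
    intro x
    have : g x = ((g x).re : ℂ) := Complex.ext rfl (hg x).2
    rw [this, Complex.norm_real, Real.norm_eq_abs, Complex.ofReal_re, abs_of_nonneg (hg x).1]
  have h2 : hI g = ((∫ x, ‖g x‖ ∂haarAddCircle : ℝ) : ℂ) := by
    unfold hI
    rw [← integral_complex_ofReal]
    congr 1
    ext x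
    rw [h1]
    exact Complex.ext rfl (hg x).2
  have h3 : ‖hI g‖ = ∫ x, ‖g x‖ ∂haarAddCircle := by
    rw [h2, Complex.norm_real, Real.norm_eq_abs, abs_of_nonneg]
    exact integral_nonneg fun x => norm_nonneg _
  rw [h3, ← integral_const_mul]
  unfold hI
  apply norm_integral_le_of_norm_le
  · exact (integrable_CA g).norm.const_mul _
  · refine Eventually.of_forall fun x => ?_
    rw [ContinuousMap.mul_apply, norm_mul]
    exact mul_le_mul_of_nonneg_right (f.norm_coe_le_norm x) (norm_nonneg _)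

variable (c s : ℝ)

/-- the factors -/
noncomputable def P (j : ℕ) : CA := (c : ℂ) • 1 + (s : ℂ) • ch (-(Md j))

lemma star_P (j : ℕ) : star (P c s j) = (c : ℂ) • 1 + (s : ℂ) • ch (Md j) := by
  unfold P
  rw [star_add, star_smul, star_smul, star_one, star_ch, neg_neg]
  simp

lemma P_ne {c s : ℝ} (hs : 0 < s) (hsc : s < c) (j : ℕ) (x : UnitAddCircle) : P c s j x ≠ 0 := by
  intro h
  have h1 : (P c s j) x = (c : ℂ) + (s : ℂ) * ch (-(Md j)) x := by
    simp [P]
  rw [h1] at h
  have h2 : (c : ℂ) = -((s : ℂ) * ch (-(Md j)) x) := eq_neg_of_add_eq_zero_left h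
  have h3 := congrArg norm h2
  rw [norm_neg, norm_mul, norm_ch, mul_one, Complex.norm_real, Complex.norm_real,
    Real.norm_eq_abs, Real.norm_eq_abs, abs_of_pos hs, abs_of_pos (hs.trans hsc)] at h3
  linarith

/-- the inverse factors -/
noncomputable def iP (j : ℕ) : CA := Ring.inverse (P c s j)

lemma P_mul_iP {c s : ℝ} (hs : 0 < s) (hsc : s < c) (j : ℕ) : P c s j * iP c s j = 1 := by
  apply Ring.mul_inverse_cancel
  rw [ContinuousMap.isUnit_iff_forall_ne_zero]
  exact P_ne hs hsc j

/-- the products of the inverse factors -/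
noncomputable def Q (J : ℕ) : CA := ∏ j ∈ Finset.range J, iP c s j

/-- the densities -/
noncomputable def rho (J L : ℕ) : CA := ∏ j ∈ Finset.Ico J L, (star (P c s j) * P c s j)

variable {c s}

lemma rho_self (J : ℕ) : rho c s J J = 1 := by simp [rho]

lemma rho_succ {J L : ℕ} (h : J ≤ L) :
    rho c s J (L + 1) = rho c s J L * (star (P c s L) * P c s L) :=
  Finset.prod_Ico_succ_top h _

lemma absP (hcs : c ^ 2 + s ^ 2 = 1) (j : ℕ) :
    star (P c s j) * P c s j = 1 + ((c * s : ℝ) : ℂ) • (ch (Md j) + ch (-(Md j))) := by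
  rw [star_P, P]
  have h1 : ch (Md j) * ch (-(Md j)) = 1 := by
    rw [← ch_add, add_neg_cancel, ch_zero]
  have h2 : ((c : ℂ)) ^ 2 + (s : ℂ) ^ 2 = 1 := by exact_mod_cast hcs
  have e : ((c : ℂ) • (1 : CA) + (s : ℂ) • ch (Md j)) * ((c : ℂ) • 1 + (s : ℂ) • ch (-(Md j))) =
      ((c : ℂ) ^ 2) • (1 : CA) + ((s : ℂ) ^ 2) • (ch (Md j) * ch (-(Md j))) +
        ((c * s : ℝ) : ℂ) • (ch (Md j) + ch (-(Md j))) := by
    simp only [add_mul, mul_add, smul_mul_smul_comm, one_mul, mul_one]
    push_cast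
    rw [mul_comm (s : ℂ) (c : ℂ)]
    module
  rw [e, h1]
  have h3 : ((c : ℂ) ^ 2) • (1 : CA) + ((s : ℂ) ^ 2) • (1 : CA) = 1 := by
    have : ((c : ℂ) ^ 2) • (1 : CA) + ((s : ℂ) ^ 2) • (1 : CA) =
      ((c : ℂ) ^ 2 + (s : ℂ) ^ 2) • (1 : CA) := by module
    rw [this, h2, one_smul]
  rw [h3]

lemma coef_succ (hcs : c ^ 2 + s ^ 2 = 1) {J L : ℕ} (h : J ≤ L) (n : ℤ) :
    hI (ch n * rho c s J (L + 1)) = hI (ch n * rho c s J L) +
      ((c * s : ℝ) : ℂ) * (hI (ch (n + Md L) * rho c s J L) +
        hI (ch (n - Md L) * rho c s J L)) := by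
  rw [rho_succ h, absP hcs, ← hI_add, ← hI_smul, ← hI_add]
  congr 1
  rw [sub_eq_add_neg, ch_add, ch_add]
  simp only [mul_add, mul_one, mul_smul_comm]
  ring_nf

lemma Md_sub {J L : ℕ} (h : J ≤ L) : ad L - ad J ≤ Md L - Md J := by
  have := ad_mono h
  unfold Md
  omega

lemma coef_large (hcs : c ^ 2 + s ^ 2 = 1) {J L : ℕ} (h : J ≤ L) :
    ∀ n : ℤ, ad L - ad J < |n| → hI (ch n * rho c s J L) = 0 := by
  induction L, h using Nat.le_induction with
  | base =>
    intro n hn
    rw [rho_self, mul_one, hI_ch, if_neg]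
    rintro rfl
    simp at hn
  | succ L hL ih =>
    intro n hn
    have hM := Md_pos L
    have h1 := ad_succ' L
    rw [coef_succ hcs hL, ih n, ih (n + Md L), ih (n - Md L)]
    · simp
    · have := abs_sub_abs_le_abs_sub n (Md L)
      rw [abs_of_pos hM] at this
      omega
    · have := abs_sub_abs_le_abs_sub n (-(Md L))
      rw [abs_neg, abs_of_pos hM, sub_neg_eq_add] at this
      omega
    · omega

lemma coef_small (hcs : c ^ 2 + s ^ 2 = 1) {J L : ℕ} (h : J ≤ L) :
    ∀ n : ℤ, |n| < Md J → hI (ch n * rho c s J L) = if n = 0 then 1 else 0 := by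
  induction L, h using Nat.le_induction with
  | base =>
    intro n _
    rw [rho_self, mul_one, hI_ch]
  | succ L hL ih =>
    intro n hn
    have h1 := Md_sub hL
    rw [coef_succ hcs hL, ih n hn, coef_large hcs hL (n + Md L), coef_large hcs hL (n - Md L)]
    · simp
    · rw [abs_lt] at hn
      rw [lt_abs]
      right
      omega
    · rw [abs_lt] at hn
      rw [lt_abs]
      left
      omega

lemma rho_real (J L : ℕ) (x : UnitAddCircle) :
    0 ≤ ((rho c s J L) x).re ∧ ((rho c s J L) x).im = 0 := by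
  have h : (rho c s J L) x = ((∏ j ∈ Finset.Ico J L, ‖P c s j x‖ ^ 2 : ℝ) : ℂ) := by
    rw [rho, ContinuousMap.coe_prod, Finset.prod_apply]
    push_cast
    refine Finset.prod_congr rfl fun j _ => ?_
    rw [Pi.mul_apply, ContinuousMap.star_apply, Complex.star_def, Complex.conj_mul']
  rw [h, Complex.ofReal_re, Complex.ofReal_im]
  exact ⟨Finset.prod_nonneg fun j _ => by positivity, rfl⟩

lemma hI_rho (hcs : c ^ 2 + s ^ 2 = 1) (L : ℕ) : hI (rho c s 0 L) = 1 := by
  have := coef_small hcs (Nat.zero_le L) 0 (by simpa using Md_pos 0)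
  rwa [ch_zero, one_mul, if_pos rfl] at this

lemma norm_le (hcs : c ^ 2 + s ^ 2 = 1) (L : ℕ) (f : CA) : ‖hI (f * rho c s 0 L)‖ ≤ ‖f‖ := by
  have := norm_hI_le f (rho c s 0 L) (rho_real 0 L)
  rwa [hI_rho hcs, norm_one, mul_one] at this

lemma exists_lim (hcs : c ^ 2 + s ^ 2 = 1) (f : CA) :
    ∃ a : ℂ, Tendsto (fun L => hI (f * rho c s 0 L)) (hyperfilter ℕ : Filter ℕ) (𝓝 a) := by
  have hK : IsCompact (Metric.closedBall (0 : ℂ) ‖f‖) := isCompact_closedBall _ _
  obtain ⟨a, _, ha⟩ := hK.ultrafilter_le_nhds ((hyperfilter ℕ).map fun L => hI (f * rho c s 0 L))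
    (by
      rw [Ultrafilter.coe_map, le_principal_iff, mem_map]
      refine Filter.univ_mem' fun L => ?_
      simp only [Set.mem_preimage, mem_closedBall_zero_iff]
      exact norm_le hcs L f)
  exact ⟨a, ha⟩

/-- the limit functional -/
noncomputable def lim (hcs : c ^ 2 + s ^ 2 = 1) : CA →ₗ[ℂ] ℂ where
  toFun f := (exists_lim hcs f).choose
  map_add' f g := by
    have h := ((exists_lim hcs f).choose_spec.add (exists_lim hcs g).choose_spec)
    refine tendsto_nhds_unique (exists_lim hcs (f + g)).choose_spec (h.congr fun L => ?_)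
    rw [add_mul, hI_add]
  map_smul' a f := by
    have h := (exists_lim hcs f).choose_spec.const_mul a
    refine tendsto_nhds_unique (exists_lim hcs (a • f)).choose_spec (h.congr fun L => ?_)
    rw [smul_mul_assoc, hI_smul]

lemma tendsto_lim (hcs : c ^ 2 + s ^ 2 = 1) (f : CA) :
    Tendsto (fun L => hI (f * rho c s 0 L)) (hyperfilter ℕ : Filter ℕ) (𝓝 (lim hcs f)) :=
  (exists_lim hcs f).choose_spec

lemma lim_nonneg (hcs : c ^ 2 + s ^ 2 = 1) (f : CA) (hf : 0 ≤ f) : 0 ≤ lim hcs f := by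
  refine ge_of_tendsto' (tendsto_lim hcs f) fun L => ?_
  unfold hI
  have h1 : ∀ x, (f * rho c s 0 L) x = (((f x).re * ((rho c s 0 L) x).re : ℝ) : ℂ) := by
    intro x
    have h2 : (0 : ℂ) ≤ f x := hf x
    rw [Complex.nonneg_iff] at h2
    have h3 := rho_real (c := c) (s := s) 0 L x
    rw [ContinuousMap.mul_apply]
    apply Complex.ext
    · simp [h3.2]
    · simp [h3.2, ← h2.2]
  simp_rw [h1]
  rw [integral_complex_ofReal]
  rw [Complex.zero_le_real]
  apply integral_nonneg
  intro x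
  have h2 : (0 : ℂ) ≤ f x := hf x
  rw [Complex.nonneg_iff] at h2
  exact mul_nonneg h2.1 (rho_real 0 L x).1

lemma norm_lim_le (hcs : c ^ 2 + s ^ 2 = 1) (f : CA) : ‖lim hcs f‖ ≤ ‖f‖ :=
  le_of_tendsto (tendsto_lim hcs f).norm (Eventually.of_forall fun L => norm_le hcs L f)

lemma ultra_eventually_ge (J : ℕ) : ∀ᶠ L in (hyperfilter ℕ : Filter ℕ), J ≤ L := by
  have h : (hyperfilter ℕ : Filter ℕ) ≤ atTop := Nat.hyperfilter_le_atTop
  exact h (eventually_ge_atTop J)

/-- the positive functional -/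
noncomputable def pos (hcs : c ^ 2 + s ^ 2 = 1) : CA →ₚ[ℂ] ℂ :=
  PositiveLinearMap.mk₀ (lim hcs) (lim_nonneg hcs)

lemma pos_apply (hcs : c ^ 2 + s ^ 2 = 1) (f : CA) : pos hcs f = lim hcs f := rfl

lemma Q_rho (hs : 0 < s) (hsc : s < c) (J : ℕ) :
    star (Q c s J) * Q c s J * rho c s 0 J = 1 := by
  unfold Q rho
  rw [star_prod, ← Finset.prod_mul_distrib, Finset.range_eq_Ico, ← Finset.prod_mul_distrib]
  apply Finset.prod_eq_one
  intro j _
  have h1 := P_mul_iP hs hsc j
  have h2 : star (iP c s j) * star (P c s j) = 1 := by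
    have h3 : star (P c s j * iP c s j) = star (iP c s j) * star (P c s j) := star_mul _ _
    rw [← h3, h1, star_one]
  calc star (iP c s j) * iP c s j * (star (P c s j) * P c s j) =
      (star (iP c s j) * star (P c s j)) * (P c s j * iP c s j) := by ring
    _ = 1 := by rw [h1, h2, one_mul]

lemma rho_split {J L : ℕ} (h : J ≤ L) : rho c s 0 L = rho c s 0 J * rho c s J L := by
  unfold rho
  rw [Finset.prod_Ico_consecutive _ (Nat.zero_le J) h]

lemma lim_value (hcs : c ^ 2 + s ^ 2 = 1) (hs : 0 < s) (hsc : s < c) (J : ℕ) (n : ℤ)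
    (hn : |n| < Md J) :
    lim hcs (ch n * (star (Q c s J) * Q c s J)) = if n = 0 then 1 else 0 := by
  refine tendsto_nhds_unique (tendsto_lim hcs _) ?_
  refine Tendsto.congr' ?_ tendsto_const_nhds
  filter_upwards [ultra_eventually_ge J] with L hL
  rw [rho_split hL]
  have : ch n * (star (Q c s J) * Q c s J) * (rho c s 0 J * rho c s J L) =
      ch n * rho c s J L * (star (Q c s J) * Q c s J * rho c s 0 J) := by ring
  rw [this, Q_rho hs hsc, mul_one, coef_small hcs hL n hn]

/-- the vectors, in the algebra -/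
noncomputable def e (c s : ℝ) (J : ℕ) (k : ℤ) : CA := ch k * Q c s J

lemma e_shift (J : ℕ) (k : ℤ) : ch 1 * e c s J k = e c s J (k + 1) := by
  unfold e
  rw [add_comm, ch_add]
  ring

lemma e_r1 (hs : 0 < s) (hsc : s < c) (J : ℕ) (k : ℤ) :
    e c s J k = (c : ℂ) • e c s (J + 1) k + (s : ℂ) • e c s (J + 1) (k - Md J) := by
  unfold e Q
  rw [Finset.prod_range_succ, sub_eq_add_neg, ch_add]
  have h1 := P_mul_iP hs hsc J
  have h2 : (c : ℂ) • (ch k * ((∏ j ∈ Finset.range J, iP c s j) * iP c s J)) +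
      (s : ℂ) • (ch k * ch (-(Md J)) * ((∏ j ∈ Finset.range J, iP c s j) * iP c s J)) =
      ch k * (∏ j ∈ Finset.range J, iP c s j) * (P c s J * iP c s J) := by
    unfold P
    simp only [add_mul, mul_add, smul_mul_assoc, mul_smul_comm, one_mul]
    ring_nf
  rw [h2, h1, mul_one]

/-- the continuous map into the Hilbert space -/
noncomputable def toK (hcs : c ^ 2 + s ^ 2 = 1) (a : CA) : (pos hcs).GNS :=
  (((pos hcs).toPreGNS a : (pos hcs).PreGNS) : (pos hcs).GNS)

lemma toK_add (hcs : c ^ 2 + s ^ 2 = 1) (a b : CA) : toK hcs (a + b) = toK hcs a + toK hcs b := by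
  unfold toK
  rw [map_add, UniformSpace.Completion.coe_add]

lemma toK_smul (hcs : c ^ 2 + s ^ 2 = 1) (r : ℂ) (a : CA) : toK hcs (r • a) = r • toK hcs a := by
  unfold toK
  rw [map_smul, UniformSpace.Completion.coe_smul]

lemma toK_inner (hcs : c ^ 2 + s ^ 2 = 1) (a b : CA) :
    ⟪toK hcs a, toK hcs b⟫_ℂ = lim hcs (star a * b) := by
  unfold toK
  rw [UniformSpace.Completion.inner_coe, PositiveLinearMap.preGNS_inner_def]
  rfl

lemma toK_norm (hcs : c ^ 2 + s ^ 2 = 1) (a : CA) : ‖toK hcs a‖ ≤ ‖a‖ := by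
  have h1 : (‖toK hcs a‖ ^ 2 : ℝ) ≤ ‖a‖ ^ 2 := by
    have h2 := toK_inner hcs a a
    rw [inner_self_eq_norm_sq_to_K] at h2
    have h3 := congrArg norm h2
    rw [norm_pow] at h3
    have h4 : ‖((‖toK hcs a‖ : ℝ) : ℂ)‖ = ‖toK hcs a‖ := by simp
    have h5 := norm_lim_le hcs (star a * a)
    have h6 : ‖star a * a‖ ≤ ‖a‖ ^ 2 := by
      refine (norm_mul_le _ _).trans ?_
      have h7 : ‖star a‖ = ‖a‖ := norm_star a
      rw [h7, sq]
    calc (‖toK hcs a‖ ^ 2 : ℝ) = ‖lim hcs (star a * a)‖ := by rw [← h3]; simp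
      _ ≤ _ := h5.trans h6
  exact le_of_sq_le_sq h1 (norm_nonneg _)

/-- the same, as a continuous linear map -/
noncomputable def toKL (hcs : c ^ 2 + s ^ 2 = 1) : CA →L[ℂ] (pos hcs).GNS :=
  LinearMap.mkContinuous ⟨⟨toK hcs, toK_add hcs⟩, toK_smul hcs⟩ 1 (fun a => by
    rw [one_mul]; exact toK_norm hcs a)

end SimEx

open SimEx in
theorem exists_RSys (c s : ℝ) (hcs : c ^ 2 + s ^ 2 = 1) (hs : 0 < s) (hsc : s < c) :
    ∃ (K : Type) (_ : NormedAddCommGroup K) (_ : InnerProductSpace ℂ K) (_ : CompleteSpace K),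
      Nonempty (RSys K c s) := by
  refine ⟨(pos hcs).GNS, inferInstance, inferInstance, inferInstance, ⟨?_⟩⟩
  refine
    { V := (pos hcs).gnsStarAlgHom (ch 1)
      E := fun J k => toK hcs (e c s J k)
      hV := ?_
      hcs := hcs
      hs := hs
      hc := hs.trans hsc
      shift := ?_
      r1 := ?_
      r2 := ?_
      r3 := ?_ }
  · have h1 : ch 1 ∈ unitary CA := by
      rw [Unitary.mem_iff, star_ch]
      constructor
      · rw [← ch_add, neg_add_cancel, ch_zero]
      · rw [← ch_add, add_neg_cancel, ch_zero]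
    exact Unitary.map_mem (pos hcs).gnsStarAlgHom h1
  · intro J k
    rw [← e_shift]
    change (pos hcs).gnsNonUnitalStarAlgHom (ch 1) (toK hcs (e c s J k)) = _
    unfold toK
    rw [PositiveLinearMap.gnsNonUnitalStarAlgHom_apply_coe]
    rfl
  · intro J k
    rw [← toK_smul, ← toK_smul, ← toK_add, ← e_r1 hs hsc]
  · intro J k l hkl
    rw [toK_inner]
    have h1 : star (e c s J k) * e c s J l = ch (l - k) * (star (Q c s J) * Q c s J) := by
      unfold e
      rw [star_mul, star_ch, sub_eq_add_neg, ch_add]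
      ring
    rw [h1, lim_value hcs hs hsc J _ (by rw [abs_sub_comm]; exact hkl)]
    by_cases h : k = l
    · rw [if_pos h, if_pos (by omega)]
    · rw [if_neg h, if_neg (by omega)]
  · rw [eq_top_iff]
    intro x _
    have hmem : ∀ a : CA, toK hcs a ∈
        (Submodule.span ℂ (Set.range (fun k : ℤ => toK hcs (e c s 0 k)))).topologicalClosure := by
      intro a
      have ha : a ∈ (Submodule.span ℂ (Set.range (@fourier (1 : ℝ)))).topologicalClosure := by
        rw [span_fourier_closure_eq_top]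
        trivial
      have hmap : Set.MapsTo (toKL hcs) (Submodule.span ℂ (Set.range (@fourier (1 : ℝ))) : Set CA)
          (Submodule.span ℂ (Set.range (fun k : ℤ => toK hcs (e c s 0 k))) :
            Set (pos hcs).GNS) := by
        intro b hb
        have hb' : b ∈ Submodule.span ℂ (Set.range (@fourier (1 : ℝ))) := hb
        have : (toKL hcs) b ∈ (Submodule.span ℂ (Set.range (@fourier (1 : ℝ)))).map
            (toKL hcs).toLinearMap := ⟨b, hb', rfl⟩
        rw [Submodule.map_span] at this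
        refine Submodule.span_mono ?_ this
        rintro _ ⟨_, ⟨k, rfl⟩, rfl⟩
        refine ⟨k, ?_⟩
        have : e c s 0 k = fourier k := by simp [e, Q, ch]
        change toK hcs (e c s 0 k) = toK hcs (fourier k)
        rw [this]
      exact map_mem_closure (toKL hcs).continuous ha hmap
    have hd : DenseRange (fun a : (pos hcs).PreGNS => (a : (pos hcs).GNS)) :=
      UniformSpace.Completion.denseRange_coe
    refine hd.induction_on x ?_ ?_
    · exact (Submodule.isClosed_topologicalClosure _)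
    · intro a
      exact hmem ((pos hcs).ofPreGNS a)

end Pool.Agent.H55
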